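import Mathlib
import Pool.Agent.BernIrr.Arch
import Pool.Agent.StSP.VdC
import Pool.Agent.H6.HR.Sieve

/-!
# MP_f85b9b_nt : statements of the modules of the squad BLF

MAIN THEOREM 1.  For all large odd `n`: `B_n = x (x - 1/2) (x - 1) P Q` with `P` irreducible over `ℚ` and
`deg Q ≤ n ^ (2/5)`.
MAIN THEOREM 2.  If moreover every prime `r ∣ n - 2` has `ord_r(2) > n ^ (2/5)`, then `R_n` is irreducible; so
`R_(l+2)` is irreducible for all but `O(X ^ (4/5))` primes `l ≤ X`.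

PROOF IN ONE PAGE.  `T = D R_n` primitive in `ℤ[x]`, `D` odd squarefree, `3 T(2) = D n`.  If `p ∣ D`, `p ^ 2 > n`, then
`(n/p + 1) p ≤ n + n/p` (BIG), so `p` is determined by `n/p` and `log D ≤ 6 √(n log n)` (LOGD).  The zeros of `B_n` of
modulus `≤ n/200` are simple, one near each half-integer (UNIQ), so `T` has exactly one zero near `2` (NEAR).  Let `H` be the
irreducible factor with this zero, `T = G H` (SPLIT).  Then `|G(2)| ≤ D n / 3` but `log |G(2)| ≥ (d/2) log d - C d`, `d = deg G`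
(PROD), so `d ≤ C √(n / log n)` and `G(1-x) = ± G(x)` (FACT).  Now `d` is small, so all zeros of `G` are `> n/100`, and the primes
`p ∣ D`, `p ∣ G(2)` (or `G(3/2)`) satisfy `2 (n mod (p-1)) ≤ d` (`4 (n mod (p-1)) ≤ d` for both): MASS.  The primes
`p ≤ d log n/1000` contribute little, those `> 1000 n/d` little by BIG, and the others are counted with Selberg's sieve and
van der Corput's exponential sums (EXS, MAJ, LAM, SSL, SEL, BLK, MID): at most `1.96 d log n < 2 d log n` if `d ≥ n ^ (2/5)`.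
For Theorem 2: `T = (x+1)^(n-2) + x^(n-2)` mod 2 (TWO), so a nonconstant factor of `T` has degree `≥ ord_r(2)` for a prime
`r ∣ n - 2` (ORD), and `#{l ≤ X : ord_l(2) ≤ E} ≤ E^2` (CNT).
-/

namespace Pool.Agent.BLF

open Polynomial Finset Pool.Agent.BernIrr Pool.Agent.StSP

/-- the Bernoulli polynomial over `ℂ` -/
noncomputable abbrev BC (n : ℕ) : ℂ[X] := (Polynomial.bernoulli n).map (algebraMap ℚ ℂ)

/-- EXS: exponential sums with phase `x / (r v - 1)` (van der Corput + Kusmin-Landau). -/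
def ExsS : Prop := ∃ C : ℝ, 0 < C ∧ ∀ (x : ℝ) (r a b A : ℕ), 0 < x → 1 ≤ r → 2 * r ≤ A →
  A < r * (a + 1) → r * b ≤ 2 * A →
  ‖∑ v ∈ Ioc a b, StSP.e (x / ((r : ℝ) * v - 1))‖ ≤
    C * (√(x / A) + √(A * (1 + Real.log A)) + (A : ℝ) ^ 2 / x)

/-- MAJ: trigonometric majorant of the interval `[0, δ]` mod 1. -/
def MajS : Prop := ∀ ε : ℝ, 0 < ε → ∃ C : ℝ, 0 < C ∧ ∀ δ : ℝ, 0 < δ → δ ≤ 1 / 4 →
  ∃ (H : ℕ) (a : ℤ → ℂ) (F : ℝ → ℝ), (H : ℝ) ≤ C / δ ∧ (∀ h, ‖a h‖ ≤ C * δ) ∧ ‖a 0‖ ≤ (1 + ε) * δ ∧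
    (∀ x, (F x : ℂ) = ∑ h ∈ Icc (-(H : ℤ)) H, a h * StSP.e (h * x)) ∧ (∀ x, 0 ≤ F x) ∧
    ∀ x, Int.fract x ≤ δ → 1 ≤ F x

/-- LAM: Selberg's weights are bounded by 1. -/
def LamS : Prop := ∀ (s : BoundingSieve) (D : ℕ), 1 ≤ D → ∀ d : ℕ, |H6.lam s D d| ≤ 1

/-- SSL: `∑_{l ≤ D squarefree} 1/φ(l) ≥ log D`. -/
def SslS : Prop := ∀ D : ℕ, 1 ≤ D → Real.log D ≤ H6.SS (H6.HR.intSieve 0 1 D) D

/-- SEL: Selberg's upper bound weights for the primes. -/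
def SelS : Prop := ∀ D : ℕ, 2 ≤ D → ∃ l : ℕ → ℝ, l 1 = 1 ∧ (∀ d, |l d| ≤ 1) ∧
  ∑ d ∈ Icc 1 D, ∑ e ∈ Icc 1 D, l d * l e / (Nat.lcm d e : ℝ) ≤ 1 / Real.log D

/-- BLK: primes `p` in `(A, B]` with `n mod (p - 1) ≤ y`. -/
def BlkS : Prop := ∀ ε : ℝ, 0 < ε → ∃ C : ℝ, 0 < C ∧ ∀ n A B y D : ℕ, 1 ≤ n → 1 ≤ y → 4 * y ≤ A →
  A ≤ B → B ≤ 2 * A → 2 ≤ D → 2 * D ^ 2 ≤ A →
  (((Ioc A B).filter (fun p => p.Prime ∧ n % (p - 1) ≤ y)).card : ℝ) ≤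
    (1 + ε) * y * ((B : ℝ) - A) / (A * Real.log D) +
      C * (D : ℝ) ^ 2 * (√((n : ℝ) / y) + √(A * (1 + Real.log A)) + (A : ℝ) ^ 2 / n)

/-- MID: the middle primes. -/
def MidS : Prop := ∃ n₀ : ℕ, ∀ n : ℕ, n₀ ≤ n → ∀ d y : ℕ, (n : ℝ) ^ (2 / 5 : ℝ) ≤ d → d ^ 2 ≤ n →
  d ≤ 5 * y → 2 * y ≤ d →
  ∑ p ∈ (Ioc ⌊(d : ℝ) * Real.log n / 1000⌋₊ ⌊1000 * (n : ℝ) / d⌋₊).filter
      (fun p => p.Prime ∧ n % (p - 1) ≤ y), Real.log p ≤ 13 / 5 * y * Real.log n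

/-- BIG: the structure of the primes `p ∣ D` with `p ^ 2 > n`. -/
def BigS : Prop := ∀ (n D κ : ℕ) (T U : ℤ[X]), Data n D κ T U → ∀ p : ℕ, p.Prime → p ∣ D →
  n < p ^ 2 → (n / p + 1) * p ≤ n + n / p

/-- LOGD: the size of `D`. -/
def LogDS : Prop := ∀ (n D κ : ℕ) (T U : ℤ[X]), Data n D κ T U →
  (∀ P : ℕ, 1 ≤ P → n ≤ P ^ 2 → ∑ p ∈ D.primeFactors.filter (fun p => P < p), Real.log p ≤
    ((n : ℝ) / P + 1) * Real.log (n + 1)) ∧ Real.log D ≤ 6 * √(n * Real.log n)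

/-- UNIQ: the zeros of modulus `≤ n / 200` are simple and separated. -/
def UniqS : Prop := ∃ n₀ : ℕ, ∀ n : ℕ, n₀ ≤ n → Odd n → ∀ x : ℂ, (BC n).IsRoot x → ‖x‖ ≤ n / 200 →
  (BC n).rootMultiplicity x = 1 ∧
    ∀ y : ℂ, (BC n).IsRoot y → ‖y‖ ≤ n / 200 → ‖x - y‖ ≤ 1 / 8 → x = y

/-- PROD: a set of zeros avoiding the neighbourhood of `2` has a large product of distances to `2`. -/
def ProdS : Prop := ∃ (C : ℝ) (n₀ : ℕ), 0 < C ∧ ∀ n : ℕ, n₀ ≤ n → Odd n → ∀ s : Multiset ℂ,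
  s ≤ (BC n).roots → (∀ a ∈ s, 1 / 4 ≤ ‖2 - a‖) →
  (Multiset.card s : ℝ) / 2 * Real.log (Multiset.card s) - C * Multiset.card s ≤
    Real.log (s.map (fun a => ‖2 - a‖)).prod

/-- NEAR: `T` has exactly one zero near `2`, and it is simple. -/
def NearS : Prop := ∃ n₀ : ℕ, ∀ (n D κ : ℕ) (T U : ℤ[X]), Data n D κ T U → n₀ ≤ n →
  ∃ ρ : ℂ, (T.map (Int.castRingHom ℂ)).rootMultiplicity ρ = 1 ∧
    ∀ a : ℂ, (T.map (Int.castRingHom ℂ)).IsRoot a → ‖2 - a‖ < 1 / 4 → a = ρ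

/-- SPLIT: the irreducible factor with the zero near `2`. -/
def SplitS : Prop := ∃ n₀ : ℕ, ∀ (n D κ : ℕ) (T U : ℤ[X]), Data n D κ T U → n₀ ≤ n →
  ∃ G H : ℤ[X], T = G * H ∧ Irreducible H ∧
    ∀ a : ℂ, (G.map (Int.castRingHom ℂ)).IsRoot a → 1 / 4 ≤ ‖2 - a‖

/-- FACT: the cofactor has degree `O(√(n / log n))` and is symmetric. -/
def FactS : Prop := ∃ (C : ℝ) (n₀ : ℕ), 0 < C ∧ ∀ (n D κ : ℕ) (T U : ℤ[X]), Data n D κ T U → n₀ ≤ n →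
  ∃ G H : ℤ[X], T = G * H ∧ Irreducible H ∧ (sg G = G ∨ sg G = -G) ∧
    (G.natDegree : ℝ) ≤ C * √(n / Real.log n)

/-- MASS: the inequality for symmetric factors of small degree. -/
def MassS : Prop := ∃ c₀ : ℝ, 0 < c₀ ∧ ∃ n₀ : ℕ, ∀ (n D κ : ℕ) (T U G H : ℤ[X]), Data n D κ T U →
  n₀ ≤ n → T = G * H → (sg G = G ∨ sg G = -G) → 1 ≤ G.natDegree →
  (G.natDegree : ℝ) * Real.log n ≤ c₀ * n →
  2 * G.natDegree * (Real.log n - Real.log 200) ≤ 2 * Real.log n + Real.log 225 +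
    ∑ p ∈ D.primeFactors.filter (fun p => n % (p - 1) ≤ G.natDegree / 2), Real.log p +
    ∑ p ∈ D.primeFactors.filter (fun p => n % (p - 1) ≤ G.natDegree / 4), Real.log p

/-- ALL: the cofactor has degree `≤ n ^ (2/5)`. -/
def AllS : Prop := ∃ n₀ : ℕ, ∀ (n D κ : ℕ) (T U : ℤ[X]), Data n D κ T U → n₀ ≤ n →
  ∃ G H : ℤ[X], T = G * H ∧ Irreducible H ∧ (G.natDegree : ℝ) ≤ (n : ℝ) ^ (2 / 5 : ℝ)

/-- TWO: the reduction of `T` modulo 2. -/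
def TwoS : Prop := ∀ (n D κ : ℕ) (T U : ℤ[X]), Data n D κ T U →
  T.map (Int.castRingHom (ZMod 2)) = (X + 1) ^ (n - 2) + X ^ (n - 2)

/-- ORD: degrees of factors of `T` and orders of 2. -/
def OrdS : Prop := ∀ (n D κ : ℕ) (T U G H : ℤ[X]), Data n D κ T U → T = G * H → 1 ≤ G.natDegree →
  ∃ r e : ℕ, r.Prime ∧ r ∣ n - 2 ∧ 1 ≤ e ∧ e ≤ G.natDegree ∧ r ∣ 2 ^ e - 1

/-- CNT: primes modulo which 2 has small order. -/
def CntS : Prop := ∀ X E : ℕ,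
  (((Icc 1 X).filter (fun l => l.Prime ∧ ∃ e ∈ Icc 1 E, l ∣ 2 ^ e - 1)).card : ℝ) ≤ (E : ℝ) ^ 2

end Pool.Agent.BLF
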