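import Mathlib
import Pool.Agent.BLF.Stmt

/-!
Module All (size 3).  From FACT, MASS, MID, LOGD.  PROOF.  `G, H` from FACT, `d = deg G`.  If `d < n^(2/5)` or `d = 0` done.  Otherwise `n^(2/5) ≤ d ≤ C √(n/log n)`, so `d log n ≤ C √(n log n) ≤ c₀ n`, `d^2 ≤ n` for large `n`, `d ≥ 1`, and MASS applies.  For `y ∈ {d/2, d/4}` (floors; `d ≤ 5 y`, `2 y ≤ d`):
`∑_{p ∣ D, n%(p-1) ≤ y} log p ≤ θ(P1) + MID + ∑_{p∣D, p > P2} log p` with `P1 = ⌊d log n/1000⌋`, `P2 = ⌊1000 n/d⌋` (`P2^2 ≥ n` since `d^2 ≤ n`): `θ(P1) ≤ 1.4 P1 ≤ 0.0014 d log n` (`Chebyshev.theta_le_log4_mul_x`), MID `≤ (13/5) y log n`, last one (LOGD) `≤ (n/P2 + 1) log(n+1) ≤ (d/999 + 1)(log n + 1)`.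
Sum over the two `y`: `≤ (13/5)(3d/4) log n + 2 (0.0014 + 0.0011) d log n + small = 1.955 d log n + small`, but MASS says `≥ 2 d log n - 2 d log 200 - 2 log n - log 225`: contradiction for large `n`.
-/

namespace Pool.Agent.BLF

open Polynomial Finset Pool.Agent.BernIrr Pool.Agent.StSP

private theorem all_union (s t : Finset ℕ) :
    ∑ p ∈ s ∪ t, Real.log p ≤ ∑ p ∈ s, Real.log p + ∑ p ∈ t, Real.log p := by
  rw [← Finset.sum_union_inter (s₁ := s) (s₂ := t)]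
  have : 0 ≤ ∑ p ∈ s ∩ t, Real.log (p : ℝ) :=
    Finset.sum_nonneg fun p _ => Real.log_natCast_nonneg p
  linarith

private theorem all_split (n D y P1 P2 : ℕ) :
    ∑ p ∈ D.primeFactors.filter (fun p => n % (p - 1) ≤ y), Real.log p ≤
      Chebyshev.theta P1 +
      ∑ p ∈ (Ioc P1 P2).filter (fun p => p.Prime ∧ n % (p - 1) ≤ y), Real.log p +
      ∑ p ∈ D.primeFactors.filter (fun p => P2 < p), Real.log p := by
  have hsub : D.primeFactors.filter (fun p => n % (p - 1) ≤ y) ⊆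
      (((Ioc 0 P1).filter (fun p => p.Prime)) ∪
        ((Ioc P1 P2).filter (fun p => p.Prime ∧ n % (p - 1) ≤ y))) ∪
        (D.primeFactors.filter (fun p => P2 < p)) := by
    intro p hp
    rw [Finset.mem_filter, Nat.mem_primeFactors] at hp
    obtain ⟨⟨hpp, hpD, hD⟩, hy⟩ := hp
    rw [Finset.mem_union, Finset.mem_union, Finset.mem_filter, Finset.mem_filter,
      Finset.mem_filter, Finset.mem_Ioc, Finset.mem_Ioc, Nat.mem_primeFactors]
    by_cases h1 : p ≤ P1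
    · exact Or.inl (Or.inl ⟨⟨hpp.pos, h1⟩, hpp⟩)
    · by_cases h2 : p ≤ P2
      · exact Or.inl (Or.inr ⟨⟨not_le.mp h1, h2⟩, hpp, hy⟩)
      · exact Or.inr ⟨⟨hpp, hpD, hD⟩, not_le.mp h2⟩
  refine (Finset.sum_le_sum_of_subset_of_nonneg hsub
    fun p _ _ => Real.log_natCast_nonneg p).trans ?_
  refine (all_union _ _).trans ?_
  have h1 := all_union ((Ioc 0 P1).filter (fun p => p.Prime))
        ((Ioc P1 P2).filter (fun p => p.Prime ∧ n % (p - 1) ≤ y))
  have h2 : Chebyshev.theta P1 = ∑ p ∈ (Ioc 0 P1).filter (fun p => p.Prime), Real.log p := by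
    unfold Chebyshev.theta
    rw [Nat.floor_natCast]
  rw [h2]
  linarith

/-- the bound for one value of `y` -/
private theorem all_one (n D d y : ℕ) (hd : 1 ≤ d) (hn : 1 ≤ n) (hdn : d ^ 2 ≤ n)
    (h3 : ∑ p ∈ (Ioc ⌊(d : ℝ) * Real.log n / 1000⌋₊ ⌊1000 * (n : ℝ) / d⌋₊).filter
      (fun p => p.Prime ∧ n % (p - 1) ≤ y), Real.log p ≤ 13 / 5 * y * Real.log n)
    (h4 : ∀ P : ℕ, 1 ≤ P → n ≤ P ^ 2 → ∑ p ∈ D.primeFactors.filter (fun p => P < p), Real.log p ≤
      ((n : ℝ) / P + 1) * Real.log (n + 1)) :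
    ∑ p ∈ D.primeFactors.filter (fun p => n % (p - 1) ≤ y), Real.log p ≤
      14 / 10000 * (d * Real.log n) + 13 / 5 * y * Real.log n +
        ((d : ℝ) / 999 + 1) * (Real.log n + 1) := by
  have hdR : (1 : ℝ) ≤ d := by exact_mod_cast hd
  have hnR : (1 : ℝ) ≤ n := by exact_mod_cast hn
  have hdnR : (d : ℝ) ^ 2 ≤ n := by exact_mod_cast hdn
  have hL : 0 ≤ Real.log n := Real.log_nonneg hnR
  have hdn1 : (d : ℝ) ≤ n := by nlinarith
  have hsp := all_split n D y ⌊(d : ℝ) * Real.log n / 1000⌋₊ ⌊1000 * (n : ℝ) / d⌋₊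
  set P1 := ⌊(d : ℝ) * Real.log n / 1000⌋₊ with hP1
  set P2 := ⌊1000 * (n : ℝ) / d⌋₊ with hP2
  have hP1R : (P1 : ℝ) ≤ d * Real.log n / 1000 := Nat.floor_le (by positivity)
  have hθ : Chebyshev.theta P1 ≤ 14 / 10000 * (d * Real.log n) := by
    have h5 := Chebyshev.theta_le_log4_mul_x (x := (P1 : ℝ)) (Nat.cast_nonneg _)
    have h6 : Real.log 4 ≤ 14 / 10 := by
      have : Real.log 4 = 2 * Real.log 2 := by
        rw [show (4 : ℝ) = 2 ^ 2 by norm_num, Real.log_pow]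
        norm_num
      rw [this]
      have := Real.log_two_lt_d9
      linarith
    have h7 : (0 : ℝ) ≤ P1 := Nat.cast_nonneg _
    have h8 : 0 ≤ (d : ℝ) * Real.log n := by positivity
    calc Chebyshev.theta P1 ≤ Real.log 4 * P1 := h5
      _ ≤ 14 / 10 * (d * Real.log n / 1000) := mul_le_mul h6 hP1R h7 (by norm_num)
      _ = 14 / 10000 * (d * Real.log n) := by ring
  have hnd : 1 ≤ (n : ℝ) / d := by rw [le_div_iff₀ (by linarith)]; linarith
  have hP2R : 999 * ((n : ℝ) / d) ≤ P2 := by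
    have h5 := Nat.lt_floor_add_one (1000 * (n : ℝ) / d)
    rw [← hP2, mul_div_assoc] at h5
    linarith
  have hP2pos : (0 : ℝ) < P2 := by linarith
  have hP21 : 1 ≤ P2 := by
    have : 0 < P2 := by exact_mod_cast hP2pos
    omega
  have hP2sq : n ≤ P2 ^ 2 := by
    have h5 : (n : ℝ) ≤ (P2 : ℝ) ^ 2 := by
      have h6 : (n : ℝ) ≤ ((n : ℝ) / d) ^ 2 := by
        rw [div_pow, le_div_iff₀ (by positivity)]
        nlinarith
      have h7 : (n : ℝ) / d ≤ P2 := by linarith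
      have h8 : ((n : ℝ) / d) ^ 2 ≤ (P2 : ℝ) ^ 2 := by
        apply pow_le_pow_left₀ (by positivity) h7
      linarith
    exact_mod_cast h5
  have h5 := h4 P2 hP21 hP2sq
  have h6 : (n : ℝ) / P2 ≤ d / 999 := by
    rw [div_le_div_iff₀ hP2pos (by norm_num)]
    have h7 : 999 * ((n : ℝ) / d) * d ≤ P2 * d := mul_le_mul_of_nonneg_right hP2R (by linarith)
    have h8 : 999 * ((n : ℝ) / d) * d = 999 * n := by field_simp
    linarith
  have h7 : Real.log ((n : ℝ) + 1) ≤ Real.log n + 1 := by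
    have h8 : Real.log ((n : ℝ) + 1) ≤ Real.log (n * Real.exp 1) := by
      apply Real.log_le_log (by linarith)
      have := Real.add_one_le_exp (1 : ℝ)
      nlinarith
    rw [Real.log_mul (by linarith) (Real.exp_pos 1).ne', Real.log_exp] at h8
    exact h8
  have h8 : 0 ≤ Real.log ((n : ℝ) + 1) := Real.log_nonneg (by linarith)
  have h9 : ((n : ℝ) / P2 + 1) * Real.log (n + 1) ≤ ((d : ℝ) / 999 + 1) * (Real.log n + 1) :=
    mul_le_mul (by linarith) h7 h8 (by positivity)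
  linarith

private theorem all_lim (c : ℝ) (hc : 0 < c) : ∃ n₀ : ℕ, ∀ n : ℕ, n₀ ≤ n →
    Real.log n ≤ c * n := by
  have h := Real.isLittleO_log_id_atTop.bound hc
  rw [Filter.eventually_atTop] at h
  obtain ⟨a, ha⟩ := h
  refine ⟨max 1 ⌈a⌉₊, fun n hn => ?_⟩
  have h1 : a ≤ n := (Nat.le_ceil a).trans (by exact_mod_cast (le_max_right 1 ⌈a⌉₊).trans hn)
  have h2 := ha n h1
  rw [Real.norm_eq_abs, id, Real.norm_eq_abs, abs_of_nonneg (Nat.cast_nonneg n : (0 : ℝ) ≤ n)] at h2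
  exact (le_abs_self _).trans h2

theorem all_holds (h1 : FactS) (h2 : MassS) (h3 : MidS) (h4 : LogDS) : AllS := by
  obtain ⟨C, n1, hC, h1⟩ := h1
  obtain ⟨c0, hc0, n2, h2⟩ := h2
  obtain ⟨n3, h3⟩ := h3
  obtain ⟨n5, h5⟩ := all_lim (c0 ^ 2 / C ^ 2) (by positivity)
  -- large log
  obtain ⟨n6, h6⟩ : ∃ n6 : ℕ, ∀ n : ℕ, n6 ≤ n → max 1000 (C ^ 2) ≤ Real.log n := by
    refine ⟨⌈Real.exp (max 1000 (C ^ 2))⌉₊, fun n hn => ?_⟩
    have h7 : Real.exp (max 1000 (C ^ 2)) ≤ n := (Nat.le_ceil _).trans (by exact_mod_cast hn)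
    rw [← Real.log_exp (max 1000 (C ^ 2))]
    exact Real.log_le_log (Real.exp_pos _) h7
  refine ⟨n1 + n2 + n3 + n5 + n6 + 1, fun n D κ T U hD hn => ?_⟩
  obtain ⟨G, H, hT, hH, hG, hdeg⟩ := h1 n D κ T U hD (by omega)
  refine ⟨G, H, hT, hH, ?_⟩
  by_contra hcon
  rw [not_le] at hcon
  set d := G.natDegree with hd
  have hn1 : 1 ≤ n := by omega
  have hnR : (1 : ℝ) ≤ n := by exact_mod_cast hn1
  have hL := h6 n (by omega)
  have hL1 : 1000 ≤ Real.log n := (le_max_left _ _).trans hL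
  have hL2 : C ^ 2 ≤ Real.log n := (le_max_right _ _).trans hL
  have hLpos : 0 < Real.log n := by linarith
  -- d is large
  have hbig : (1000 : ℝ) ≤ (n : ℝ) ^ (2 / 5 : ℝ) := by
    have h7 : (n : ℝ) ^ (2 / 5 : ℝ) = Real.exp (Real.log n * (2 / 5)) := by
      rw [Real.rpow_def_of_pos (by linarith)]
    rw [h7]
    have h8 : Real.log n * (2 / 5) + 1 ≤ Real.exp (Real.log n * (2 / 5)) := Real.add_one_le_exp _
    have h9 : (400 : ℝ) ≤ Real.log n * (2 / 5) := by linarith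
    have h10 : (201 : ℝ) ≤ Real.exp (Real.log n * (2 / 5) / 2) := by
      have := Real.add_one_le_exp (Real.log n * (2 / 5) / 2)
      linarith
    have h11 : Real.exp (Real.log n * (2 / 5)) = Real.exp (Real.log n * (2 / 5) / 2) *
        Real.exp (Real.log n * (2 / 5) / 2) := by
      rw [← Real.exp_add]; ring_nf
    rw [h11]
    nlinarith
  have hdR : (1000 : ℝ) ≤ d := by linarith
  have hdN : 1000 ≤ d := by exact_mod_cast hdR
  -- the upper bound for d
  have hsq : (d : ℝ) ^ 2 ≤ C ^ 2 * (n / Real.log n) := by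
    have h7 : (d : ℝ) ^ 2 ≤ (C * √(n / Real.log n)) ^ 2 :=
      pow_le_pow_left₀ (by positivity) hdeg 2
    rwa [mul_pow, Real.sq_sqrt (by positivity)] at h7
  have hsqL : (d : ℝ) ^ 2 * Real.log n ≤ C ^ 2 * n := by
    have h7 := mul_le_mul_of_nonneg_right hsq hLpos.le
    have h8 : C ^ 2 * ((n : ℝ) / Real.log n) * Real.log n = C ^ 2 * n := by field_simp
    linarith
  have hdn : d ^ 2 ≤ n := by
    have h7 : (d : ℝ) ^ 2 ≤ n := by
      have h8 : C ^ 2 * (d : ℝ) ^ 2 ≤ C ^ 2 * n := by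
        have : C ^ 2 * (d : ℝ) ^ 2 ≤ Real.log n * (d : ℝ) ^ 2 :=
          mul_le_mul_of_nonneg_right hL2 (by positivity)
        linarith
      exact le_of_mul_le_mul_left h8 (by positivity)
    exact_mod_cast h7
  have hdL : (d : ℝ) * Real.log n ≤ c0 * n := by
    have h7 : ((d : ℝ) * Real.log n) ^ 2 ≤ (c0 * n) ^ 2 := by
      have h8 := h5 n (by omega)
      have h9 : ((d : ℝ) * Real.log n) ^ 2 = ((d : ℝ) ^ 2 * Real.log n) * Real.log n := by ring
      rw [h9]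
      calc ((d : ℝ) ^ 2 * Real.log n) * Real.log n ≤ (C ^ 2 * n) * (c0 ^ 2 / C ^ 2 * n) :=
            mul_le_mul hsqL h8 hLpos.le (by positivity)
        _ = (c0 * n) ^ 2 := by field_simp
    exact le_of_sq_le_sq h7 (by positivity)
  have hmass := h2 n D κ T U G H hD (by omega) hT hG (by omega) hdL
  obtain ⟨h4a, -⟩ := h4 n D κ T U hD
  have m1 := h3 n (by omega) d (d / 2) hcon.le hdn (by omega) (by omega)
  have m2 := h3 n (by omega) d (d / 4) hcon.le hdn (by omega) (by omega)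
  have s1 := all_one n D d (d / 2) (by omega) hn1 hdn m1 h4a
  have s2 := all_one n D d (d / 4) (by omega) hn1 hdn m2 h4a
  have y1 : ((d / 2 : ℕ) : ℝ) ≤ d / 2 := Nat.cast_div_le
  have y2 : ((d / 4 : ℕ) : ℝ) ≤ d / 4 := Nat.cast_div_le
  have y1' : 13 / 5 * ((d / 2 : ℕ) : ℝ) * Real.log n ≤ 13 / 5 * (d / 2) * Real.log n :=
    mul_le_mul_of_nonneg_right (by linarith) hLpos.le
  have y2' : 13 / 5 * ((d / 4 : ℕ) : ℝ) * Real.log n ≤ 13 / 5 * (d / 4) * Real.log n :=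
    mul_le_mul_of_nonneg_right (by linarith) hLpos.le
  have l200 : Real.log 200 ≤ 8 := by
    have h7 : Real.log 200 ≤ Real.log (2 ^ 8) := Real.log_le_log (by norm_num) (by norm_num)
    rw [Real.log_pow] at h7
    have := Real.log_two_lt_d9
    push_cast at h7
    linarith
  have l225 : Real.log 225 ≤ 8 := by
    have h7 : Real.log 225 ≤ Real.log (2 ^ 8) := Real.log_le_log (by norm_num) (by norm_num)
    rw [Real.log_pow] at h7
    have := Real.log_two_lt_d9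
    push_cast at h7
    linarith
  have p1 : 1000 * (d : ℝ) ≤ d * Real.log n := by nlinarith
  have p2 : 1000 * Real.log n ≤ d * Real.log n := mul_le_mul_of_nonneg_right hdR hLpos.le
  have hd200 : (d : ℝ) * Real.log 200 ≤ 8 * d := by nlinarith
  have e1 : ((d : ℝ) / 999 + 1) * (Real.log n + 1) =
      (d * Real.log n) / 999 + d / 999 + Real.log n + 1 := by ring
  rw [e1] at s1 s2
  have e2 : 2 * (d : ℝ) * (Real.log n - Real.log 200) = 2 * (d * Real.log n) -
      2 * (d * Real.log 200) := by ring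
  rw [e2] at hmass
  have e3 : 13 / 5 * ((d : ℝ) / 2) * Real.log n = 13 / 10 * (d * Real.log n) := by ring
  have e4 : 13 / 5 * ((d : ℝ) / 4) * Real.log n = 13 / 20 * (d * Real.log n) := by ring
  rw [e3] at y1'
  rw [e4] at y2'
  linarith

end Pool.Agent.BLF
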