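import Mathlib
import Pool.Agent.BLF.Stmt

/-!
Module Big (size 2).  PROOF.  `p ∣ D`, so `p` odd, `p ≤ n + 1` (`Data.p_facts`), `κ` is a unit mod `p` (`Data.kappa_unit`), `red p U = κ q3 T ≠ 0` mod `p` (`Data.red_U`, `Data.red_T_ne_zero`), so some coefficient of `U` is nonzero mod `p`:
by `Data.Ucoeff` there is `i ≤ n`, `k = n - i > 0`, `(p-1) ∣ k`, `p ∤ C(n,i)` (= `C(n,k)`).  `n < p^2`: digits `n = n1 p + n0`, `k = k1 p + k0`, Lucas (`Choose.choose_modEq_choose_mod_mul_choose_div_nat`) gives `k0 ≤ n0`, `k1 ≤ n1`.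
`k = k0 + k1 mod (p-1)` so `(p-1) ∣ k0 + k1 > 0`, hence `p - 1 ≤ n0 + n1`.  `n` odd and `p` odd: `n0 + n1 = n mod 2` is odd, `p - 1` is even, so `p ≤ n0 + n1`.  Finally `(n1+1) p = n1 p + p ≤ n1 p + n0 + n1 = n + n/p`.
(If `p = n+1` then `n1 = 0, n0 = n = p - 1` even, excluded by parity.)
-/

namespace Pool.Agent.BLF

open Polynomial Finset Pool.Agent.BernIrr Pool.Agent.StSP

theorem big_holds : BigS := by
  intro n D κ T U h p hp hpD hnp
  have := Fact.mk hp
  obtain ⟨hp2, hpn, -⟩ := h.p_facts hp hpD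
  have hU0 : red p U ≠ 0 := by
    rw [h.red_U]
    have h3 : red p (q3 * T) = red p q3 * red p T := by simp [red]
    rw [h3]
    have hq : red p q3 ≠ 0 := by
      intro h0
      have := Data.red_q3_deg hp hp2
      rw [h0] at this
      simp at this
    exact mul_ne_zero (C_ne_zero.2 (h.kappa_unit hp hpD)) (mul_ne_zero hq (h.red_T_ne_zero hp))
  obtain ⟨i, hi⟩ : ∃ i, (red p U).coeff i ≠ 0 := by
    by_contra hcon
    push Not at hcon
    exact hU0 (Polynomial.ext fun i => by rw [hcon i, coeff_zero])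
  rw [coeff_red] at hi
  have hin : i ≤ n := by
    by_contra hcon
    apply hi
    rw [coeff_eq_zero_of_natDegree_lt (by rw [h.Udeg]; omega)]
    simp
  rw [h.Ucoeff p hp hp2 (by omega) i hin] at hi
  have hcond : (p - 1) ∣ (n - i) ∧ 0 < n - i := by
    by_contra hcon
    rw [if_neg hcon] at hi
    exact hi rfl
  rw [if_pos hcond] at hi
  obtain ⟨hdvd, hpos⟩ := hcond
  have hch : (n.choose i : ZMod p) ≠ 0 := right_ne_zero_of_mul hi
  set k := n - i with hk
  have hch2 : (n.choose k : ZMod p) ≠ 0 := by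
    rw [hk, Nat.choose_symm hin]
    exact hch
  have hluc := Choose.choose_modEq_choose_mod_mul_choose_div_nat (n := n) (k := k) (p := p)
  have hluc2 : (n.choose k : ZMod p) =
      (((n % p).choose (k % p) * (n / p).choose (k / p) : ℕ) : ZMod p) :=
    (ZMod.natCast_eq_natCast_iff _ _ _).2 hluc
  rw [hluc2, Nat.cast_mul] at hch2
  have h0 : k % p ≤ n % p := by
    by_contra hcon
    rw [Nat.choose_eq_zero_of_lt (not_le.mp hcon)] at hch2
    simp at hch2
  have h1 : k / p ≤ n / p := by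
    by_contra hcon
    rw [Nat.choose_eq_zero_of_lt (not_le.mp hcon)] at hch2
    simp at hch2
  have hp1 := hp.two_le
  have hkd : p * (k / p) + k % p = k := Nat.div_add_mod k p
  have hnd : p * (n / p) + n % p = n := Nat.div_add_mod n p
  have hdvd2 : (p - 1) ∣ k % p + k / p := by
    have h2 : k = (p - 1) * (k / p) + (k % p + k / p) := by
      obtain ⟨q, hq⟩ : ∃ q, p = q + 1 := ⟨p - 1, by omega⟩
      have h3 : p - 1 = q := by omega
      rw [h3]
      calc k = p * (k / p) + k % p := hkd.symm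
        _ = (q + 1) * (k / p) + k % p := by rw [← hq]
        _ = q * (k / p) + (k % p + k / p) := by ring
    rw [h2] at hdvd
    exact (Nat.dvd_add_right (dvd_mul_right _ _)).mp hdvd
  have hpos2 : 0 < k % p + k / p := by
    by_contra hcon
    obtain ⟨h2, h3⟩ := Nat.add_eq_zero_iff.mp (Nat.eq_zero_of_not_pos hcon)
    rw [h2, h3, mul_zero] at hkd
    rw [← hkd] at hpos
    exact lt_irrefl _ hpos
  have hle : p - 1 ≤ k % p + k / p := Nat.le_of_dvd hpos2 hdvd2
  have hle2 : p - 1 ≤ n % p + n / p := by omega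
  obtain ⟨a, ha⟩ := h.odd
  obtain ⟨b, hb⟩ := hp.odd_of_ne_two hp2
  have hpar : (n % p + n / p) % 2 = 1 := by
    have h2 : n = 2 * (b * (n / p)) + (n % p + n / p) := by
      calc n = p * (n / p) + n % p := hnd.symm
        _ = (2 * b + 1) * (n / p) + n % p := by rw [← hb]
        _ = 2 * (b * (n / p)) + (n % p + n / p) := by ring
    omega
  have hle3 : p ≤ n % p + n / p := by omega
  have h2 : (n / p + 1) * p = p * (n / p) + p := by ring
  rw [h2]
  omega

end Pool.Agent.BLF
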