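import Mathlib
import Pool.Agent.BLF.Stmt

/-!
Module Blk (size 4).  From EXS, MAJ, SEL.  PROOF.  `δ = y/A ≤ 1/4`, `H, a, F` from MAJ (with the given `ε`), `l` from SEL.  For a prime `p ∈ (A,B]` with `n % (p-1) ≤ y`:
`fract (n/(p-1)) = (n % (p-1))/(p-1) ≤ y/A` (as `p - 1 ≥ A`), so `F(n/(p-1)) ≥ 1`; and `∑_{d ∣ p, d ≤ D} l d = l 1 = 1` (`D < p`).  So
`card ≤ ∑_{m ∈ Ioc A B} F(n/(m-1)) (∑_{d ∈ Icc 1 D, d ∣ m} l d)^2 = ∑_{d,e ≤ D} l d l e ∑_h a_h ∑_{m ∈ Ioc A B, lcm d e ∣ m} e(h n/(m-1))`.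
`h = 0`: `‖a_0‖ S0`, `S0 = ∑_m (∑_{d∣m} l d)^2 ≥ 0`, `S0 = ∑∑ l d l e #{m : q ∣ m} ≤ (B-A) ∑∑ l d l e/q + D^2 ≤ (B-A)/log D + D^2` (`q = lcm d e`, `|#{m∈Ioc A B : q∣m} - (B-A)/q| ≤ 1`, cf.
`H6.HR.card_dvd_Ioc`), `‖a_0‖ ≤ (1+ε) δ`.
`h ≠ 0`: `m = q v`, `v ∈ Ioc (A/q) (B/q)`, `A < q (A/q + 1)`, `q (B/q) ≤ B ≤ 2A`, `q ≤ D^2`, `2 q ≤ A`: EXS with `x = |h| n` (for `h < 0` conjugate) gives
`≤ C (√(|h| n/A) + √(A(1+log A)) + A^2/n)`, `|h| ≤ H ≤ C'/δ = C' A/y` so `|h| n/A ≤ C' n/y`.  Number of `h`: `2H+1 ≤ 2C'/δ + 1`, `‖a_h‖ ≤ C' δ`; the product is bounded.  Number of pairs `(d,e)`: `D^2`.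
-/

namespace Pool.Agent.BLF

open Polynomial Finset Pool.Agent.BernIrr Pool.Agent.StSP

private lemma blk_W {C : ℝ} (hE : ∀ (x : ℝ) (r a b A : ℕ), 0 < x → 1 ≤ r → 2 * r ≤ A →
    A < r * (a + 1) → r * b ≤ 2 * A →
    ‖∑ v ∈ Ioc a b, StSP.e (x / ((r : ℝ) * v - 1))‖ ≤
      C * (√(x / A) + √(A * (1 + Real.log A)) + (A : ℝ) ^ 2 / x)) {n A B q : ℕ} (hn : 1 ≤ n)
    (hB : B ≤ 2 * A) (hq : 1 ≤ q) (hqA : 2 * q ≤ A) {h : ℤ} (hh : h ≠ 0) :
    ‖∑ m ∈ (Ioc A B).filter (fun m => q ∣ m), StSP.e (h * ((n : ℝ) / ((m : ℝ) - 1)))‖ ≤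
      C * (√(|(h : ℝ)| * n / A) + √(A * (1 + Real.log A)) + (A : ℝ) ^ 2 / (|(h : ℝ)| * n)) := by
  have himg : (Ioc A B).filter (fun m => q ∣ m) =
      (Ioc (A / q) (B / q)).image (fun v => q * v) := by
    ext m
    simp only [mem_filter, mem_Ioc, mem_image]
    constructor
    · rintro ⟨⟨h1, h2⟩, v, rfl⟩
      refine ⟨v, ⟨(Nat.div_lt_iff_lt_mul (by omega)).2 (by rw [mul_comm]; exact h1),
        (Nat.le_div_iff_mul_le (by omega)).2 (by rw [mul_comm]; exact h2)⟩, rfl⟩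
    · rintro ⟨v, ⟨h1, h2⟩, rfl⟩
      refine ⟨⟨?_, ?_⟩, dvd_mul_right _ _⟩
      · have := (Nat.div_lt_iff_lt_mul (by omega)).1 h1
        rwa [mul_comm] at this
      · have := (Nat.le_div_iff_mul_le (by omega)).1 h2
        rwa [mul_comm] at this
  rw [himg, sum_image (fun a _ b _ hab => Nat.eq_of_mul_eq_mul_left (by omega) hab)]
  have hh' : (h : ℝ) ≠ 0 := by exact_mod_cast hh
  have hn' : (0 : ℝ) < n := by exact_mod_cast hn
  have hx : 0 < |(h : ℝ)| * n := mul_pos (abs_pos.2 hh') hn'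
  have key := hE (|(h : ℝ)| * n) q (A / q) (B / q) A hx hq hqA
    (Nat.lt_mul_div_succ A (by omega)) ((Nat.mul_div_le B q).trans hB)
  refine le_trans (le_of_eq ?_) key
  rcases lt_or_gt_of_ne hh with hneg | hpos
  · have hneg' : (h : ℝ) < 0 := by exact_mod_cast hneg
    have e1 : ∀ v : ℕ, StSP.e (h * ((n : ℝ) / (((q * v : ℕ) : ℝ) - 1))) =
        (starRingEnd ℂ) (StSP.e (|(h : ℝ)| * n / ((q : ℝ) * v - 1))) := by
      intro v
      rw [← StSP.e_neg]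
      congr 1
      rw [abs_of_neg hneg']
      push_cast
      ring
    rw [sum_congr rfl fun v _ => e1 v, ← map_sum, Complex.norm_conj]
  · have hpos' : 0 < (h : ℝ) := by exact_mod_cast hpos
    congr 1
    refine sum_congr rfl fun v _ => ?_
    congr 1
    rw [abs_of_pos hpos']
    push_cast
    ring

theorem blk_holds (h1 : ExsS) (h2 : MajS) (h3 : SelS) : BlkS := by
  classical
  intro ε hε
  obtain ⟨CE, hCE, hE⟩ := h1
  obtain ⟨CM, hCM, hM⟩ := h2 ε hε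
  refine ⟨(1 + ε) + 2 * CM ^ 2 * (CE * (1 + √CM)), by positivity, ?_⟩
  intro n A B y D hn hy hyA hAB hBA hD hDA
  have hA1 : 4 ≤ A := by omega
  have hA0 : (0 : ℝ) < A := by
    have : 0 < A := by omega
    exact_mod_cast this
  have hA4 : (4 : ℝ) ≤ A := by exact_mod_cast hA1
  have hy0 : (0 : ℝ) < y := by exact_mod_cast hy
  have hn0 : (0 : ℝ) < n := by exact_mod_cast hn
  have hyA' : 4 * (y : ℝ) ≤ A := by exact_mod_cast hyA
  set δ : ℝ := (y : ℝ) / A with hδ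
  have hδ0 : 0 < δ := by positivity
  have hδ4 : δ ≤ 1 / 4 := by
    rw [hδ, div_le_iff₀ hA0]
    linarith
  obtain ⟨H, a, F, hH, ha, ha0, hF, hF0, hF1⟩ := hM δ hδ0 hδ4
  obtain ⟨l, hl1, hl, hsel⟩ := h3 D hD
  have hDD : D ≤ D ^ 2 := by nlinarith
  set g : ℕ → ℝ := fun m => (n : ℝ) / ((m : ℝ) - 1) with hg
  set Lm : ℕ → ℝ := fun m => ∑ d ∈ (Icc 1 D).filter (fun d => d ∣ m), l d with hLm
  set S : ℝ := ∑ m ∈ Ioc A B, F (g m) * (Lm m) ^ 2 with hS
  -- the lower bound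
  have hcard : (((Ioc A B).filter (fun p => p.Prime ∧ n % (p - 1) ≤ y)).card : ℝ) ≤ S := by
    have e0 : (((Ioc A B).filter (fun p => p.Prime ∧ n % (p - 1) ≤ y)).card : ℝ) =
        ∑ p ∈ (Ioc A B).filter (fun p => p.Prime ∧ n % (p - 1) ≤ y), (1 : ℝ) := by simp
    rw [e0]
    refine le_trans (sum_le_sum (g := fun m => F (g m) * (Lm m) ^ 2) ?_)
      (sum_le_sum_of_subset_of_nonneg (filter_subset _ _)
        (fun m _ _ => mul_nonneg (hF0 _) (sq_nonneg _)))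
    intro p hp
    rw [mem_filter, mem_Ioc] at hp
    obtain ⟨⟨hpA, hpB⟩, hpp, hpy⟩ := hp
    have hL1 : Lm p = 1 := by
      have : (Icc 1 D).filter (fun d => d ∣ p) = {1} := by
        ext d
        simp only [mem_filter, mem_Icc, mem_singleton]
        constructor
        · rintro ⟨⟨h4, h5⟩, h6⟩
          rcases (Nat.dvd_prime hpp).1 h6 with h7 | h7
          · exact h7
          · omega
        · rintro rfl
          exact ⟨⟨le_refl _, by omega⟩, one_dvd _⟩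
      rw [hLm]
      beta_reduce
      rw [this, sum_singleton, hl1]
    have hFp : 1 ≤ F (g p) := by
      apply hF1
      obtain ⟨k, rfl⟩ : ∃ k, p = k + 1 := ⟨p - 1, by omega⟩
      have hk : A ≤ k := by omega
      have e1 : g (k + 1) = (n : ℝ) / (k : ℝ) := by
        rw [hg]
        push_cast
        congr 1
        ring
      rw [e1, Int.fract_div_natCast_eq_div_natCast_mod]
      rw [Nat.add_sub_cancel] at hpy
      have hk' : (A : ℝ) ≤ k := by exact_mod_cast hk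
      have hpy' : ((n % k : ℕ) : ℝ) ≤ y := by exact_mod_cast hpy
      rw [hδ]
      exact div_le_div₀ hy0.le hpy' hA0 hk'
    rw [hL1]
    linarith
  refine hcard.trans ?_
  -- the sums
  set W : ℤ → ℕ → ℂ := fun h q =>
    ∑ m ∈ (Ioc A B).filter (fun m => q ∣ m), StSP.e (h * g m) with hW
  set Z : ℤ → ℂ := fun h => ∑ m ∈ Ioc A B, StSP.e (h * g m) * ((Lm m : ℂ)) ^ 2 with hZdef
  have hZ : ∀ h : ℤ, Z h =
      ∑ d ∈ Icc 1 D, ∑ e ∈ Icc 1 D, (l d : ℂ) * (l e : ℂ) * W h (Nat.lcm d e) := by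
    intro h
    have e1 : ∀ m, (Lm m : ℂ) ^ 2 = ∑ d ∈ Icc 1 D, ∑ e ∈ Icc 1 D,
        if Nat.lcm d e ∣ m then (l d : ℂ) * (l e : ℂ) else 0 := by
      intro m
      have e2 : (Lm m : ℂ) = ∑ d ∈ Icc 1 D, if d ∣ m then (l d : ℂ) else 0 := by
        rw [hLm]
        push_cast
        rw [sum_filter]
      rw [sq, e2, sum_mul_sum]
      refine sum_congr rfl fun d _ => sum_congr rfl fun e _ => ?_
      by_cases h1 : d ∣ m
      · by_cases h2 : e ∣ m
        · rw [if_pos h1, if_pos h2, if_pos (Nat.lcm_dvd h1 h2)]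
        · rw [if_neg h2, mul_zero, if_neg fun h => h2 ((Nat.dvd_lcm_right d e).trans h)]
      · rw [if_neg h1, zero_mul, if_neg fun h => h1 ((Nat.dvd_lcm_left d e).trans h)]
    rw [hZdef]
    beta_reduce
    simp_rw [e1, mul_sum]
    rw [sum_comm]
    refine sum_congr rfl fun d _ => ?_
    rw [sum_comm]
    refine sum_congr rfl fun e _ => ?_
    rw [hW]
    beta_reduce
    rw [mul_sum, sum_filter]
    refine sum_congr rfl fun m _ => ?_
    split_ifs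
    · ring
    · ring
  have hSZ : (S : ℂ) = ∑ h ∈ Icc (-(H : ℤ)) H, a h * Z h := by
    rw [hS]
    push_cast
    simp_rw [hF, sum_mul]
    rw [sum_comm]
    refine sum_congr rfl fun h _ => ?_
    rw [hZdef]
    beta_reduce
    rw [mul_sum]
    refine sum_congr rfl fun m _ => ?_
    ring
  -- the main term
  set S0 : ℝ := ∑ m ∈ Ioc A B, (Lm m) ^ 2 with hS0
  have hZ0 : Z 0 = (S0 : ℂ) := by
    rw [hZdef, hS0]
    push_cast
    refine sum_congr rfl fun m _ => ?_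
    rw [zero_mul, StSP.e_zero, one_mul]
  have hS00 : 0 ≤ S0 := sum_nonneg fun m _ => sq_nonneg _
  have hlogD : 0 < Real.log D := Real.log_pos (by exact_mod_cast hD)
  have hBA' : (A : ℝ) ≤ B := by exact_mod_cast hAB
  have hS0le : S0 ≤ ((B : ℝ) - A) / Real.log D + (D : ℝ) ^ 2 := by
    have e1 : S0 = ∑ d ∈ Icc 1 D, ∑ e ∈ Icc 1 D, l d * l e *
        (((Ioc A B).filter (fun m => Nat.lcm d e ∣ m)).card : ℝ) := by
      have e2 := hZ 0
      rw [hZ0] at e2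
      have e3 : ∀ q, W 0 q = (((Ioc A B).filter (fun m => q ∣ m)).card : ℂ) := by
        intro q
        rw [hW]
        beta_reduce
        simp [StSP.e_zero]
      simp_rw [e3] at e2
      exact_mod_cast e2
    rw [e1]
    have e4 : ∀ d ∈ Icc 1 D, ∀ e ∈ Icc 1 D, l d * l e *
        (((Ioc A B).filter (fun m => Nat.lcm d e ∣ m)).card : ℝ) ≤
        ((B : ℝ) - A) * (l d * l e / (Nat.lcm d e : ℝ)) + 1 := by
      intro d hd e he
      rw [mem_Icc] at hd he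
      have hq : 0 < Nat.lcm d e := Nat.lcm_pos (by omega) (by omega)
      have h4 := H6.HR.card_dvd_Ioc A (B - A) (Nat.lcm d e) hq
      rw [Nat.add_sub_cancel' hAB, Nat.cast_sub hAB] at h4
      set cq : ℝ := (((Ioc A B).filter (fun m => Nat.lcm d e ∣ m)).card : ℝ) with hcq
      have h5 : |l d * l e * (cq - ((B : ℝ) - A) / (Nat.lcm d e : ℝ))| ≤ 1 := by
        rw [abs_mul, abs_mul]
        have h6 : |l d| * |l e| ≤ 1 := mul_le_one₀ (hl d) (abs_nonneg _) (hl e)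
        exact mul_le_one₀ h6 (abs_nonneg _) h4
      have h7 := (abs_le.1 h5).2
      have h8 : l d * l e * (cq - ((B : ℝ) - A) / (Nat.lcm d e : ℝ)) =
          l d * l e * cq - ((B : ℝ) - A) * (l d * l e / (Nat.lcm d e : ℝ)) := by ring
      rw [h8] at h7
      linarith
    calc ∑ d ∈ Icc 1 D, ∑ e ∈ Icc 1 D, l d * l e *
          (((Ioc A B).filter (fun m => Nat.lcm d e ∣ m)).card : ℝ)
        ≤ ∑ d ∈ Icc 1 D, ∑ e ∈ Icc 1 D,
          (((B : ℝ) - A) * (l d * l e / (Nat.lcm d e : ℝ)) + 1) :=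
          sum_le_sum fun d hd => sum_le_sum fun e he => e4 d hd e he
      _ = ((B : ℝ) - A) * (∑ d ∈ Icc 1 D, ∑ e ∈ Icc 1 D, l d * l e / (Nat.lcm d e : ℝ)) +
          (D : ℝ) ^ 2 := by
          simp only [sum_add_distrib, mul_sum, sum_const, Nat.card_Icc, Nat.add_sub_cancel,
            nsmul_eq_mul, mul_one]
          ring
      _ ≤ ((B : ℝ) - A) * (1 / Real.log D) + (D : ℝ) ^ 2 := by
          have := mul_le_mul_of_nonneg_left hsel (sub_nonneg.2 hBA')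
          linarith
      _ = _ := by ring
  -- the other terms
  set E : ℝ := √((n : ℝ) / y) + √(A * (1 + Real.log A)) + (A : ℝ) ^ 2 / n with hEdef
  have hlogA : 0 ≤ Real.log A := Real.log_nonneg (by linarith)
  have hE1 : 1 ≤ E := by
    have h4 : (1 : ℝ) ≤ √(A * (1 + Real.log A)) := by
      apply Real.le_sqrt_of_sq_le
      nlinarith
    have h5 : 0 ≤ √((n : ℝ) / y) := Real.sqrt_nonneg _
    have h6 : 0 ≤ (A : ℝ) ^ 2 / n := by positivity
    rw [hEdef]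
    linarith
  have hHle : (H : ℝ) * δ ≤ CM := by
    rwa [le_div_iff₀ hδ0] at hH
  set K : ℝ := CE * (1 + √CM) * E with hK
  have hK0 : 0 ≤ K := by
    have := Real.sqrt_nonneg CM
    positivity
  have hWle : ∀ h ∈ (Icc (-(H : ℤ)) H).erase 0, ∀ d ∈ Icc 1 D, ∀ e ∈ Icc 1 D,
      ‖W h (Nat.lcm d e)‖ ≤ K := by
    intro h hh d hd e he
    rw [mem_erase, mem_Icc] at hh
    obtain ⟨hh0, hhl, hhu⟩ := hh
    rw [mem_Icc] at hd he
    have hq : 1 ≤ Nat.lcm d e := Nat.lcm_pos (by omega) (by omega)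
    have hqD : Nat.lcm d e ≤ D ^ 2 := by
      calc Nat.lcm d e ≤ d * e := Nat.le_of_dvd (Nat.mul_pos (by omega) (by omega))
            (Nat.lcm_dvd_mul d e)
        _ ≤ D * D := Nat.mul_le_mul hd.2 he.2
        _ = D ^ 2 := by ring
    have h4 := blk_W hE (n := n) hn hBA hq (by omega) hh0
    refine h4.trans ?_
    have habs : |(h : ℝ)| ≤ H := by
      rw [abs_le]
      constructor
      · exact_mod_cast hhl
      · exact_mod_cast hhu
    have habs1 : 1 ≤ |(h : ℝ)| := by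
      have : 1 ≤ |h| := Int.one_le_abs hh0
      exact_mod_cast this
    have h5 : √(|(h : ℝ)| * n / A) ≤ √CM * √((n : ℝ) / y) := by
      rw [← Real.sqrt_mul hCM.le]
      apply Real.sqrt_le_sqrt
      rw [div_le_iff₀ hA0]
      have h6 : |(h : ℝ)| * δ ≤ CM := by
        refine le_trans ?_ hHle
        exact mul_le_mul_of_nonneg_right habs hδ0.le
      have h7 : |(h : ℝ)| ≤ CM * (A / y) := by
        rw [hδ] at h6
        have h8 : |(h : ℝ)| = |(h : ℝ)| * (y / A) * (A / y) := by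
          field_simp
        rw [h8]
        exact mul_le_mul_of_nonneg_right h6 (by positivity)
      calc |(h : ℝ)| * n ≤ CM * (A / y) * n := mul_le_mul_of_nonneg_right h7 hn0.le
        _ = CM * (n / y) * A := by ring
    have h9 : (A : ℝ) ^ 2 / (|(h : ℝ)| * n) ≤ (A : ℝ) ^ 2 / n := by
      apply div_le_div_of_nonneg_left (by positivity) hn0
      nlinarith
    have h10 : 0 ≤ √((n : ℝ) / y) := Real.sqrt_nonneg _
    have h11 : 0 ≤ √CM := Real.sqrt_nonneg _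
    have h12 : 0 ≤ √(A * (1 + Real.log A)) := Real.sqrt_nonneg _
    have h13 : 0 ≤ (A : ℝ) ^ 2 / n := by positivity
    rw [hK, mul_assoc]
    apply mul_le_mul_of_nonneg_left _ hCE.le
    rw [hEdef]
    have h14 : 0 ≤ √CM * √(A * (1 + Real.log A)) := mul_nonneg h11 h12
    have h15 : 0 ≤ √CM * ((A : ℝ) ^ 2 / n) := mul_nonneg h11 h13
    calc √(|(h : ℝ)| * n / A) + √(A * (1 + Real.log A)) + (A : ℝ) ^ 2 / (|(h : ℝ)| * n)
        ≤ √CM * √((n : ℝ) / y) + √(A * (1 + Real.log A)) + (A : ℝ) ^ 2 / n := by linarith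
      _ ≤ (1 + √CM) * (√((n : ℝ) / y) + √(A * (1 + Real.log A)) + (A : ℝ) ^ 2 / n) := by
          have e5 : (1 + √CM) * (√((n : ℝ) / y) + √(A * (1 + Real.log A)) + (A : ℝ) ^ 2 / n) =
            √CM * √((n : ℝ) / y) + √(A * (1 + Real.log A)) + (A : ℝ) ^ 2 / n +
            (√((n : ℝ) / y) + √CM * √(A * (1 + Real.log A)) + √CM * ((A : ℝ) ^ 2 / n)) := by ring
          rw [e5]
          linarith
  have hZle : ∀ h ∈ (Icc (-(H : ℤ)) H).erase 0, ‖Z h‖ ≤ (D : ℝ) ^ 2 * K := by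
    intro h hh
    rw [hZ]
    calc ‖∑ d ∈ Icc 1 D, ∑ e ∈ Icc 1 D, (l d : ℂ) * (l e : ℂ) * W h (Nat.lcm d e)‖
        ≤ ∑ d ∈ Icc 1 D, ∑ e ∈ Icc 1 D, K := by
          refine (norm_sum_le _ _).trans (sum_le_sum fun d hd => ?_)
          refine (norm_sum_le _ _).trans (sum_le_sum fun e he => ?_)
          rw [norm_mul, norm_mul, Complex.norm_real, Complex.norm_real, Real.norm_eq_abs,
            Real.norm_eq_abs]
          have h6 : |l d| * |l e| ≤ 1 := mul_le_one₀ (hl d) (abs_nonneg _) (hl e)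
          calc |l d| * |l e| * ‖W h (Nat.lcm d e)‖ ≤ 1 * K :=
                mul_le_mul h6 (hWle h hh d hd e he) (norm_nonneg _) zero_le_one
            _ = K := one_mul _
      _ = (D : ℝ) ^ 2 * K := by
          simp only [sum_const, Nat.card_Icc, Nat.add_sub_cancel, nsmul_eq_mul]
          ring
  have hSle : S ≤ ‖a 0‖ * S0 + ∑ h ∈ (Icc (-(H : ℤ)) H).erase 0, ‖a h‖ * ‖Z h‖ := by
    have h4 : S ≤ ‖(S : ℂ)‖ := by
      rw [Complex.norm_real, Real.norm_eq_abs]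
      exact le_abs_self _
    refine h4.trans ?_
    rw [hSZ]
    have h0 : (0 : ℤ) ∈ Icc (-(H : ℤ)) H := by
      rw [mem_Icc]
      omega
    rw [← add_sum_erase _ _ h0]
    refine (norm_add_le _ _).trans (add_le_add ?_ ?_)
    · rw [norm_mul, hZ0, Complex.norm_real, Real.norm_of_nonneg hS00]
    · refine (norm_sum_le _ _).trans (le_of_eq (sum_congr rfl fun h _ => norm_mul _ _))
  have hrest : ∑ h ∈ (Icc (-(H : ℤ)) H).erase 0, ‖a h‖ * ‖Z h‖ ≤
      2 * CM ^ 2 * ((D : ℝ) ^ 2 * K) := by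
    calc ∑ h ∈ (Icc (-(H : ℤ)) H).erase 0, ‖a h‖ * ‖Z h‖
        ≤ ∑ h ∈ (Icc (-(H : ℤ)) H).erase 0, (CM * δ) * ((D : ℝ) ^ 2 * K) :=
          sum_le_sum fun h hh => mul_le_mul (ha h) (hZle h hh) (norm_nonneg _) (by positivity)
      _ = (2 * H) * ((CM * δ) * ((D : ℝ) ^ 2 * K)) := by
          have h0 : (0 : ℤ) ∈ Icc (-(H : ℤ)) H := by
            rw [mem_Icc]
            omega
          rw [sum_const, card_erase_of_mem h0, Int.card_Icc, nsmul_eq_mul]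
          congr 1
          have : ((H : ℤ) + 1 - -(H : ℤ)).toNat - 1 = 2 * H := by omega
          rw [this]
          push_cast
          ring
      _ = (2 * CM * ((D : ℝ) ^ 2 * K)) * (H * δ) := by ring
      _ ≤ (2 * CM * ((D : ℝ) ^ 2 * K)) * CM :=
          mul_le_mul_of_nonneg_left hHle (by positivity)
      _ = _ := by ring
  have hmain : ‖a 0‖ * S0 ≤ (1 + ε) * y * ((B : ℝ) - A) / (A * Real.log D) +
      (1 + ε) * ((D : ℝ) ^ 2 * E) := by
    calc ‖a 0‖ * S0 ≤ ((1 + ε) * δ) * (((B : ℝ) - A) / Real.log D + (D : ℝ) ^ 2) :=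
          mul_le_mul ha0 hS0le hS00 (by positivity)
      _ = (1 + ε) * y * ((B : ℝ) - A) / (A * Real.log D) + (1 + ε) * ((D : ℝ) ^ 2 * δ) := by
          rw [hδ]
          field_simp
      _ ≤ _ := by
          have h4 : (D : ℝ) ^ 2 * δ ≤ (D : ℝ) ^ 2 * E :=
            mul_le_mul_of_nonneg_left (by linarith) (by positivity)
          have h5 := mul_le_mul_of_nonneg_left h4 (by linarith : (0 : ℝ) ≤ 1 + ε)
          linarith
  calc S ≤ ‖a 0‖ * S0 + ∑ h ∈ (Icc (-(H : ℤ)) H).erase 0, ‖a h‖ * ‖Z h‖ := hSle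
    _ ≤ ((1 + ε) * y * ((B : ℝ) - A) / (A * Real.log D) + (1 + ε) * ((D : ℝ) ^ 2 * E)) +
        2 * CM ^ 2 * ((D : ℝ) ^ 2 * K) := add_le_add hmain hrest
    _ = _ := by
        rw [hK]
        ring

end Pool.Agent.BLF
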