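import Mathlib
import Pool.Agent.BLF.Stmt

/-!
Module Cnt (size 2).  PROOF.  The set is contained in the union over `e ∈ [1, E]` of the prime factors of `2^e - 1`; the number of prime factors of `2^e - 1` is at most `e` (their product is `≥ 2^ω` and divides `2^e - 1 < 2^e`).  `∑_{e ≤ E} e ≤ E^2`.
-/

namespace Pool.Agent.BLF

open Polynomial Finset Pool.Agent.BernIrr Pool.Agent.StSP

private theorem Cnt_card (e : ℕ) (he : 1 ≤ e) : (2 ^ e - 1).primeFactors.card ≤ e := by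
  have h2 : 2 ≤ 2 ^ e := by
    calc 2 = 2 ^ 1 := by norm_num
      _ ≤ 2 ^ e := Nat.pow_le_pow_right (by norm_num) he
  have h1 : 2 ^ (2 ^ e - 1).primeFactors.card ≤ ∏ p ∈ (2 ^ e - 1).primeFactors, p := by
    rw [← Finset.prod_const]
    exact Finset.prod_le_prod (fun _ _ => by norm_num)
      fun p hp => (Nat.prime_of_mem_primeFactors hp).two_le
  have h3 : ∏ p ∈ (2 ^ e - 1).primeFactors, p ≤ 2 ^ e - 1 :=
    Nat.le_of_dvd (by omega) (Nat.prod_primeFactors_dvd _)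
  have h4 : 2 ^ (2 ^ e - 1).primeFactors.card < 2 ^ e := by omega
  exact ((Nat.pow_lt_pow_iff_right (by norm_num)).1 h4).le

theorem cnt_holds : CntS := by
  classical
  intro X E
  have h1 : (Icc 1 X).filter (fun l => l.Prime ∧ ∃ e ∈ Icc 1 E, l ∣ 2 ^ e - 1) ⊆
      (Icc 1 E).biUnion fun e => (2 ^ e - 1).primeFactors := by
    intro l hl
    obtain ⟨-, hp, e, he, hd⟩ := Finset.mem_filter.1 hl
    refine Finset.mem_biUnion.2 ⟨e, he, ?_⟩
    have he1 := (Finset.mem_Icc.1 he).1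
    have h2 : 2 ≤ 2 ^ e := by
      calc 2 = 2 ^ 1 := by norm_num
        _ ≤ 2 ^ e := Nat.pow_le_pow_right (by norm_num) he1
    exact Nat.mem_primeFactors.2 ⟨hp, hd, by omega⟩
  have h3 : ((Icc 1 X).filter (fun l => l.Prime ∧ ∃ e ∈ Icc 1 E, l ∣ 2 ^ e - 1)).card ≤ E ^ 2 := by
    have h4 : ∑ e ∈ Icc 1 E, (2 ^ e - 1).primeFactors.card ≤ ∑ e ∈ Icc 1 E, E :=
      Finset.sum_le_sum fun e he =>
        (Cnt_card e (Finset.mem_Icc.1 he).1).trans (Finset.mem_Icc.1 he).2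
    have h5 : ∑ e ∈ Icc 1 E, E = E ^ 2 := by simp [sq]
    exact (Finset.card_le_card h1).trans (Finset.card_biUnion_le.trans (h4.trans_eq h5))
  exact_mod_cast h3

end Pool.Agent.BLF
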