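import Mathlib
import Pool.Agent.BLF.Stmt

/-!
Module Exs (size 4).  PROOF.  Tools: `StSP.kusmin` (Pool/Agent/StSP/Kusmin.lean: `θ ≤ g n - g (n+1) ≤ Δ ≤ 1/2` and the
differences decrease on `a < n ≤ b` give `‖∑_{Ioc a b} e (g n)‖ ≤ 1/(2θ) + πΔ/(8θ^2)`), `StSP.vdC` (Pool/Agent/StSP/VdC.lean,
van der Corput's inequality), `StSP.e_mul_conj`, `StSP.norm_e`.
Put `g v = x/(r v - 1)`, `λ = x r^2/A^3`.  For `a < v ≤ b`: `A ≤ r v - 1 ≤ 2 A`, `r (v+1) - 1 ≤ 5A/2`.
(c) Case `x r/A^2 ≤ 1/2`.  `g v - g (v+1) = x r/((r v - 1)(r v + r - 1))` lies in `[x r/(5A^2), x r/A^2]` and decreases in `v`; kusmin gives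
 `≤ (5/2 + 25π/8) A^2/(x r) ≤ 13 A^2/x`.
(b) Case `x r/A^2 > 1/2`, so `λ > r/(2A)`.  Number of terms: `b - a ≤ N' := 2A/r` (floor), since `r (b-a) ≤ 2A - (A+1-r) ≤ A + r`, `2 r ≤ A`.
 If `11 λ > 1`: trivial bound `N' ≤ 2A/r ≤ 2 (A/r) √(11λ) = 2 √(11 x/A)`.
 If `11 λ ≤ 1`: `K := ⌊1/(11λ)⌋ ≥ 1`, `K ≤ 1/(11λ) < 2A/(11 r) ≤ N'`.  vdC with `u v = e (g v)`, `N = N'`, `H = K`:
  `|S|^2 ≤ (2N'/K)(N' + 2 ∑_{1≤k<K} |S_k|)`, `S_k = ∑_{Ioc a (b-k)} e(g(v+k) - g v)`, the conjugate of `∑ e(G_k v)`, `G_k v = g v - g (v+k) = x r k/((r v-1)(r v + r k - 1))`.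
  With `P = r v - 1`, `Q = r v + r k - 1` (`A ≤ P ≤ 2A`, `A ≤ Q ≤ 3A` as `r k ≤ A`): `G_k v - G_k (v+1) = x r^2 k (P + Q + r)/(P Q (P+r)(Q+r))`.
  `2A ≤ P+Q+r ≤ 2A+3A+A/2 = 5.5 A` and `A^4 ≤ PQ(P+r)(Q+r) ≤ 52.5 A^4`, so it lies in `[λk/27, 5.5 λ k]`, and `5.5 λ k ≤ 1/2` because `k < K ≤ 1/(11λ)`.  The differences decrease in `v`
  (each factor `1/(r v + s)` is positive, decreasing and convex; or: `P+Q+r` over `P Q (P+r)(Q+r)` equals `(1/r)(1/(PQ) - 1/((P+r)(Q+r)))`, and
  `1/(PQ) - 2/((P+r)(Q+r)) + 1/((P+2r)(Q+2r)) ≥ 0` by AM-GM: `1/(PQ) + 1/((P+2r)(Q+2r)) ≥ 2/√(...)`, `P(P+2r) ≤ (P+r)^2`, `Q(Q+2r) ≤ (Q+r)^2`).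
  kusmin: `|S_k| ≤ C/(λ k)`; `∑_{k<K} 1/k ≤ 1 + log K ≤ 1 + log A`.
  So `|S|^2 ≤ 2N'^2/K + (4N'/K) (C/λ)(1 + log A) ≤ 44 λ N'^2 + C' N' (1 + log A) ≤ C''(x/A + A (1 + log A))` (`1/K ≤ 22 λ`), take square roots.
(Any other constants and any other proof are fine.)
-/

namespace Pool.Agent.BLF

open Polynomial Finset Pool.Agent.BernIrr Pool.Agent.StSP


private lemma conv_aux {P Q r : ℝ} (hP : 0 < P) (hQ : 0 < Q) (hr : 0 < r) :
    1 / ((P + r) * (Q + r)) - 1 / ((P + r + r) * (Q + r + r)) ≤ 1 / (P * Q) - 1 / ((P + r) * (Q + r)) := by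
  have inv1 : ∀ {X : ℝ}, 0 < X → 1 / (X + r) ≤ 1 / X := fun {X} hX =>
    one_div_le_one_div_of_le hX (by linarith)
  have inv2 : ∀ {X : ℝ}, 0 < X → 1 / (X + r) - 1 / (X + r + r) ≤ 1 / X - 1 / (X + r) := by
    intro X hX
    have h1 : 1 / X - 1 / (X + r) = r / (X * (X + r)) := by field_simp; ring
    have h2 : 1 / (X + r) - 1 / (X + r + r) = r / ((X + r) * (X + r + r)) := by field_simp; ring
    rw [h1, h2]
    apply div_le_div_of_nonneg_left hr.le (by positivity)
    nlinarith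
  have p1 := inv1 hP
  have p2 := inv1 (X := P + r) (by linarith)
  have q1 := inv1 hQ
  have q2 := inv1 (X := Q + r) (by linarith)
  have pp := inv2 hP
  have qq := inv2 hQ
  have p0' : 0 < 1 / (P + r) := by positivity
  have q0' : 0 < 1 / (Q + r + r) := by positivity
  have e0 : 1 / (P * Q) = (1 / P) * (1 / Q) := by field_simp
  have e1 : 1 / ((P + r) * (Q + r)) = (1 / (P + r)) * (1 / (Q + r)) := by field_simp
  have e2 : 1 / ((P + r + r) * (Q + r + r)) = (1 / (P + r + r)) * (1 / (Q + r + r)) := by field_simp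
  rw [e0, e1, e2]
  set a0 := 1 / P
  set a1 := 1 / (P + r)
  set a2 := 1 / (P + r + r)
  set b0 := 1 / Q
  set b1 := 1 / (Q + r)
  set b2 := 1 / (Q + r + r)
  have s1 : a1 * (b1 - b2) ≤ a0 * (b0 - b1) := mul_le_mul p1 qq (by linarith) (by linarith)
  have s2 : b2 * (a1 - a2) ≤ b1 * (a0 - a1) := mul_le_mul q2 pp (by linarith) (by linarith)
  nlinarith

private lemma caseC (x : ℝ) (r a b A : ℕ) (hx : 0 < x) (hr : 1 ≤ r) (hA : 2 * r ≤ A)
    (h1 : A < r * (a + 1)) (h2 : r * b ≤ 2 * A) (hc : x * r / (A : ℝ) ^ 2 ≤ 1 / 2) :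
    ‖∑ v ∈ Ioc a b, StSP.e (x / ((r : ℝ) * v - 1))‖ ≤ 13 * ((A : ℝ) ^ 2 / x) := by
  have hA0 : (0 : ℝ) < A := by have : 0 < A := by omega
                               exact_mod_cast this
  have hr0 : (1 : ℝ) ≤ r := by exact_mod_cast hr
  have hAr : 2 * (r : ℝ) ≤ A := by exact_mod_cast hA
  have hlo : ∀ n : ℕ, a < n → (A : ℝ) ≤ (r : ℝ) * n - 1 := by
    intro n hn
    have : A + 1 ≤ r * n := by
      have := Nat.mul_le_mul_left r (show a + 1 ≤ n from hn)
      omega
    have : (A : ℝ) + 1 ≤ r * n := by exact_mod_cast this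
    linarith
  have hhi : ∀ n : ℕ, n ≤ b → (r : ℝ) * n - 1 ≤ 2 * A := by
    intro n hn
    have : r * n ≤ 2 * A := (Nat.mul_le_mul_left r hn).trans h2
    have : (r : ℝ) * n ≤ 2 * A := by exact_mod_cast this
    linarith
  have hd : ∀ n : ℕ, a < n → x / ((r : ℝ) * n - 1) - x / ((r : ℝ) * (n + 1 : ℕ) - 1)
      = x * r / (((r : ℝ) * n - 1) * ((r : ℝ) * n - 1 + r)) := by
    intro n hn
    have := hlo n hn
    have e1 : (r : ℝ) * (n + 1 : ℕ) - 1 = (r : ℝ) * n - 1 + r := by push_cast; ring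
    rw [e1]
    have p1 : (r : ℝ) * n - 1 ≠ 0 := by linarith
    have p2 : (r : ℝ) * n - 1 + r ≠ 0 := by linarith
    field_simp
    ring
  have hk := StSP.kusmin (fun v : ℕ => x / ((r : ℝ) * v - 1)) (x * r / (5 * (A : ℝ) ^ 2))
    (x * r / (A : ℝ) ^ 2) (by positivity) (by positivity) hc a b
    (by
      intro n hn hnb
      show _ ≤ x / ((r : ℝ) * n - 1) - x / ((r : ℝ) * (n + 1 : ℕ) - 1)
      rw [hd n hn]
      have := hlo n hn
      have := hhi n hnb
      apply div_le_div_of_nonneg_left (by positivity) (by apply mul_pos <;> linarith)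
      have : ((r : ℝ) * n - 1) * ((r : ℝ) * n - 1 + r) ≤ (2 * A) * (5 / 2 * A) := by
        apply mul_le_mul <;> linarith
      linarith)
    (by
      intro n hn hnb
      show x / ((r : ℝ) * n - 1) - x / ((r : ℝ) * (n + 1 : ℕ) - 1) ≤ _
      rw [hd n hn]
      have := hlo n hn
      apply div_le_div_of_nonneg_left (by positivity) (by positivity)
      rw [sq]
      apply mul_le_mul <;> linarith)
    (by
      intro n hn hnb
      show x / ((r : ℝ) * (n + 1 : ℕ) - 1) - x / ((r : ℝ) * (n + 2 : ℕ) - 1) ≤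
        x / ((r : ℝ) * n - 1) - x / ((r : ℝ) * (n + 1 : ℕ) - 1)
      rw [hd n hn, hd (n + 1) (by omega)]
      have := hlo n hn
      have e1 : (r : ℝ) * (n + 1 : ℕ) - 1 = (r : ℝ) * n - 1 + r := by push_cast; ring
      rw [e1]
      apply div_le_div_of_nonneg_left (by positivity) (by apply mul_pos <;> linarith)
      apply mul_le_mul <;> linarith)
  refine hk.trans ?_
  have hpi := Real.pi_lt_d2
  have hxr : 0 < x * r := by positivity
  have e1 : 1 / (2 * (x * r / (5 * (A : ℝ) ^ 2))) + Real.pi * (x * r / (A : ℝ) ^ 2) /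
      (8 * (x * r / (5 * (A : ℝ) ^ 2)) ^ 2) = (5 / 2 + 25 / 8 * Real.pi) * ((A : ℝ) ^ 2 / (x * r)) := by
    field_simp
    ring
  rw [e1]
  have e2 : (A : ℝ) ^ 2 / (x * r) ≤ (A : ℝ) ^ 2 / x := by
    apply div_le_div_of_nonneg_left (by positivity) hx
    nlinarith
  have e3 : (5 / 2 + 25 / 8 * Real.pi) ≤ 13 := by linarith
  calc (5 / 2 + 25 / 8 * Real.pi) * ((A : ℝ) ^ 2 / (x * r)) ≤ 13 * ((A : ℝ) ^ 2 / (x * r)) := by
        apply mul_le_mul_of_nonneg_right e3 (by positivity)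
    _ ≤ _ := by linarith

/-- the differenced sums -/
private lemma corr_bound (x : ℝ) (r a b A h : ℕ) (hx : 0 < x) (hr : 1 ≤ r) (hA : 2 * r ≤ A)
    (h1 : A < r * (a + 1)) (h2 : r * b ≤ 2 * A) (hh : 1 ≤ h)
    (hc : 11 * (x * r ^ 2 / (A : ℝ) ^ 3) * h ≤ 1) :
    ‖∑ n ∈ Ioc a (b - h), StSP.e (x / ((r : ℝ) * (n + h : ℕ) - 1)) *
      (starRingEnd ℂ) (StSP.e (x / ((r : ℝ) * n - 1)))‖ ≤ 283 / ((x * r ^ 2 / (A : ℝ) ^ 3) * h) := by
  have hA0 : (0 : ℝ) < A := by have : 0 < A := by omega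
                               exact_mod_cast this
  have hr0 : (1 : ℝ) ≤ r := by exact_mod_cast hr
  have hh0 : (1 : ℝ) ≤ h := by exact_mod_cast hh
  have hAr : 2 * (r : ℝ) ≤ A := by exact_mod_cast hA
  set lam : ℝ := x * r ^ 2 / (A : ℝ) ^ 3 with hlam
  have hlam0 : 0 < lam := by positivity
  have hlo : ∀ n : ℕ, a < n → (A : ℝ) ≤ (r : ℝ) * n - 1 := by
    intro n hn
    have : A + 1 ≤ r * n := by
      have := Nat.mul_le_mul_left r (show a + 1 ≤ n from hn)
      omega
    have : (A : ℝ) + 1 ≤ r * n := by exact_mod_cast this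
    linarith
  have hhi : ∀ n : ℕ, n ≤ b → (r : ℝ) * n - 1 ≤ 2 * A := by
    intro n hn
    have : r * n ≤ 2 * A := (Nat.mul_le_mul_left r hn).trans h2
    have : (r : ℝ) * n ≤ 2 * A := by exact_mod_cast this
    linarith
  set G : ℕ → ℝ := fun n => x / ((r : ℝ) * n - 1) - x / ((r : ℝ) * (n + h : ℕ) - 1) with hG
  have hS : ‖∑ n ∈ Ioc a (b - h), StSP.e (x / ((r : ℝ) * (n + h : ℕ) - 1)) *
      (starRingEnd ℂ) (StSP.e (x / ((r : ℝ) * n - 1)))‖ = ‖∑ n ∈ Ioc a (b - h), StSP.e (G n)‖ := by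
    rw [← Complex.norm_conj (∑ n ∈ Ioc a (b - h), StSP.e (G n)), map_sum]
    congr 1
    refine sum_congr rfl fun n _ => ?_
    rw [StSP.e_mul_conj, ← StSP.e_neg]
    congr 1
    simp only [hG]
    ring
  rw [hS]
  have hGv : ∀ n : ℕ, a < n → G n = x * r * h * (1 / (((r : ℝ) * n - 1) * ((r : ℝ) * n - 1 + r * h))) := by
    intro n hn
    have := hlo n hn
    have e1 : (r : ℝ) * (n + h : ℕ) - 1 = (r : ℝ) * n - 1 + r * h := by push_cast; ring
    simp only [hG]
    rw [e1]
    have hrh : 0 < (r : ℝ) * h := by positivity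
    have p1 : (r : ℝ) * n - 1 ≠ 0 := by linarith
    have p2 : (r : ℝ) * n - 1 + r * h ≠ 0 := by linarith
    field_simp
    ring
  have hGd : ∀ n : ℕ, a < n → G n - G (n + 1) = x * r ^ 2 * h *
      ((((r : ℝ) * n - 1) + ((r : ℝ) * n - 1 + r * h) + r) /
      (((r : ℝ) * n - 1) * ((r : ℝ) * n - 1 + r * h) * ((((r : ℝ) * n - 1) + r) * ((r : ℝ) * n - 1 + r * h + r)))) := by
    intro n hn
    have := hlo n hn
    rw [hGv n hn, hGv (n + 1) (by omega)]
    have e1 : (r : ℝ) * (n + 1 : ℕ) - 1 = (r : ℝ) * n - 1 + r := by push_cast; ring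
    rw [e1]
    have hrh : 0 < (r : ℝ) * h := by positivity
    have p1 : (r : ℝ) * n - 1 ≠ 0 := by linarith
    have p2 : (r : ℝ) * n - 1 + r * h ≠ 0 := by linarith
    have p3 : (r : ℝ) * n - 1 + r ≠ 0 := by linarith
    have p4 : (r : ℝ) * n - 1 + r + r * h ≠ 0 := by linarith
    have p5 : (r : ℝ) * n - 1 + r * h + r ≠ 0 := by linarith
    generalize (r : ℝ) * n - 1 = P at *
    field_simp
    ring
  have hk := StSP.kusmin G (2 / 25 * (lam * h)) (9 / 2 * (lam * h)) (by positivity) (by positivity)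
    (by nlinarith) a (b - h)
    (by
      intro n hn hnb
      rw [hGd n hn]
      have t1 := hlo n hn
      have t2 := hhi n (by omega)
      have t3 := hhi (n + h) (by omega)
      have e3 : (r : ℝ) * (n + h : ℕ) - 1 = (r : ℝ) * n - 1 + r * h := by push_cast; ring
      rw [e3] at t3
      have hrh : 0 < (r : ℝ) * h := by positivity
      generalize (r : ℝ) * n - 1 = P at *
      have u1 : P * (P + r * h) * ((P + r) * (P + r * h + r)) ≤ (2 * A) * (2 * A) * ((5 / 2 * A) * (5 / 2 * A)) := by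
        have v1 : P * (P + r * h) ≤ (2 * A) * (2 * A) := by apply mul_le_mul <;> linarith
        have v2 : (P + r) * (P + r * h + r) ≤ (5 / 2 * A) * (5 / 2 * A) := by apply mul_le_mul <;> linarith
        have v3 : 0 ≤ (P + r) * (P + r * h + r) := by apply mul_nonneg <;> linarith
        exact mul_le_mul v1 v2 v3 (by positivity)
      have u0 : 0 < P * (P + r * h) * ((P + r) * (P + r * h + r)) := by
        apply mul_pos <;> apply mul_pos <;> linarith
      have u2 : (2 * A : ℝ) / ((2 * A) * (2 * A) * ((5 / 2 * A) * (5 / 2 * A))) ≤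
          (P + (P + r * h) + r) / (P * (P + r * h) * ((P + r) * (P + r * h + r))) := by
        apply div_le_div₀ (by linarith) (by linarith) u0 u1
      calc 2 / 25 * (lam * h) = x * r ^ 2 * h * ((2 * A : ℝ) / ((2 * A) * (2 * A) * ((5 / 2 * A) * (5 / 2 * A)))) := by
            rw [hlam]; field_simp; ring
        _ ≤ _ := by apply mul_le_mul_of_nonneg_left u2 (by positivity))
    (by
      intro n hn hnb
      rw [hGd n hn]
      have t1 := hlo n hn
      have t2 := hhi n (by omega)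
      have t3 := hhi (n + h) (by omega)
      have e3 : (r : ℝ) * (n + h : ℕ) - 1 = (r : ℝ) * n - 1 + r * h := by push_cast; ring
      rw [e3] at t3
      have hrh : 0 < (r : ℝ) * h := by positivity
      generalize (r : ℝ) * n - 1 = P at *
      have u1 : (A : ℝ) * A * (A * A) ≤ P * (P + r * h) * ((P + r) * (P + r * h + r)) := by
        have v1 : (A : ℝ) * A ≤ P * (P + r * h) := by apply mul_le_mul <;> linarith
        have v2 : (A : ℝ) * A ≤ (P + r) * (P + r * h + r) := by apply mul_le_mul <;> linarith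
        exact mul_le_mul v1 v2 (by positivity) (by apply mul_nonneg <;> linarith)
      have u2 : (P + (P + r * h) + r) / (P * (P + r * h) * ((P + r) * (P + r * h + r))) ≤
          (9 / 2 * A : ℝ) / ((A : ℝ) * A * (A * A)) := by
        apply div_le_div₀ (by linarith) (by linarith) (by positivity) u1
      calc _ ≤ x * r ^ 2 * h * ((9 / 2 * A : ℝ) / ((A : ℝ) * A * (A * A))) := by
            apply mul_le_mul_of_nonneg_left u2 (by positivity)
        _ = _ := by rw [hlam]; field_simp)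
    (by
      intro n hn hnb
      have t1 := hlo n hn
      rw [hGv n hn, hGv (n + 1) (by omega), hGv (n + 2) (by omega)]
      have e1 : (r : ℝ) * (n + 1 : ℕ) - 1 = (r : ℝ) * n - 1 + r := by push_cast; ring
      have e2 : (r : ℝ) * (n + 2 : ℕ) - 1 = (r : ℝ) * n - 1 + r + r := by push_cast; ring
      rw [e1, e2]
      have hrh : 0 < (r : ℝ) * h := by positivity
      generalize (r : ℝ) * n - 1 = P at *
      have u := conv_aux (P := P) (Q := P + r * h) (r := r) (by linarith) (by linarith) (by linarith)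
      have e3 : P + r + r * h = P + r * h + r := by ring
      have e4 : P + r + r + r * h = P + r * h + r + r := by ring
      rw [e3, e4, ← mul_sub, ← mul_sub]
      exact mul_le_mul_of_nonneg_left u (by positivity))
  refine hk.trans ?_
  have hpi := Real.pi_lt_d4
  have hlh : 0 < lam * h := by positivity
  have e1 : 1 / (2 * (2 / 25 * (lam * h))) + Real.pi * (9 / 2 * (lam * h)) /
      (8 * (2 / 25 * (lam * h)) ^ 2) = (25 / 4 + 5625 / 64 * Real.pi) / (lam * h) := by
    field_simp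
    ring
  rw [e1]
  apply div_le_div_of_nonneg_right _ hlh.le
  linarith

private lemma harm (K : ℕ) : ∑ h ∈ Ico 1 K, (1 : ℝ) / h ≤ 1 + Real.log K := by
  have h1 := harmonic_le_one_add_log K
  refine le_trans ?_ h1
  have e1 : ((harmonic K : ℚ) : ℝ) = ∑ h ∈ Ico 1 (K + 1), (1 : ℝ) / h := by
    rw [harmonic_eq_sum_Icc]
    push_cast
    apply sum_congr
    · ext; simp
    · intro i _; simp
  rw [e1]
  apply sum_le_sum_of_subset_of_nonneg
  · intro i hi; simp only [mem_Ico] at hi ⊢; omega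
  · intro i _ _; positivity

theorem exs_holds : ExsS := by
  refine ⟨224, by norm_num, ?_⟩
  intro x r a b A hx hr hA h1 h2
  have hAn : 0 < A := by omega
  have hA0 : (0 : ℝ) < A := by exact_mod_cast hAn
  have hA1 : (1 : ℝ) ≤ A := by exact_mod_cast hAn
  have hr0 : (1 : ℝ) ≤ r := by exact_mod_cast hr
  have hAr : 2 * (r : ℝ) ≤ A := by exact_mod_cast hA
  have hlog : 0 ≤ Real.log A := Real.log_nonneg hA1
  have s1 : 0 ≤ √(x / A) := Real.sqrt_nonneg _
  have s2 : 0 ≤ √(A * (1 + Real.log A)) := Real.sqrt_nonneg _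
  have s3 : 0 ≤ (A : ℝ) ^ 2 / x := by positivity
  rcases le_or_gt (x * r / (A : ℝ) ^ 2) (1 / 2) with hc | hc
  · have := caseC x r a b A hx hr hA h1 h2 hc
    nlinarith
  set lam : ℝ := x * r ^ 2 / (A : ℝ) ^ 3 with hlam
  have hlam0 : 0 < lam := by positivity
  have hlamlb : r / (2 * A : ℝ) < lam := by
    have : lam = (x * r / (A : ℝ) ^ 2) * (r / A) := by rw [hlam]; field_simp
    rw [this]
    calc r / (2 * A : ℝ) = 1 / 2 * (r / A) := by field_simp
      _ < _ := by apply mul_lt_mul_of_pos_right hc (by positivity)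
  set N' : ℕ := 2 * A / r with hN'
  have hNr : (N' : ℝ) ≤ 2 * A / r := by
    have := @Nat.cast_div_le ℝ _ _ _ (2 * A) r
    push_cast at this
    exact this
  have hNN : b - a ≤ N' := by
    rw [hN', Nat.le_div_iff_mul_le (by omega)]
    have e1 : (b - a) * r = r * b - r * a := by rw [Nat.sub_mul]; congr 1 <;> ring
    rw [e1]
    have : r * (a + 1) = r * a + r := by ring
    omega
  have hxA : x / A = lam * (A / r) ^ 2 := by rw [hlam]; field_simp
  rcases lt_or_ge 1 (11 * lam) with hl | hl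
  · -- trivial bound
    have t1 : ‖∑ v ∈ Ioc a b, StSP.e (x / ((r : ℝ) * v - 1))‖ ≤ 2 * A / r := by
      calc _ ≤ ∑ v ∈ Ioc a b, ‖StSP.e (x / ((r : ℝ) * v - 1))‖ := norm_sum_le _ _
        _ = ((b - a : ℕ) : ℝ) := by simp [StSP.norm_e]
        _ ≤ N' := by exact_mod_cast hNN
        _ ≤ _ := hNr
    have t2 : A / r ≤ 4 * √(x / A) := by
      rw [hxA]
      have : (A / r : ℝ) / 4 ≤ √(lam * (A / r) ^ 2) := by
        apply Real.le_sqrt_of_sq_le
        have : 0 ≤ (A / r : ℝ) ^ 2 := by positivity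
        nlinarith
      linarith
    have e1 : (2 * A / r : ℝ) = 2 * (A / r) := by ring
    rw [e1] at t1
    nlinarith
  -- main case
  set K : ℕ := ⌊1 / (11 * lam)⌋₊ with hK
  have hy1 : 1 ≤ 1 / (11 * lam) := by rw [le_div_iff₀ (by positivity)]; linarith
  have hK1 : 1 ≤ K := by
    rw [hK]; exact Nat.le_floor (by exact_mod_cast hy1)
  have hKle : (K : ℝ) ≤ 1 / (11 * lam) := Nat.floor_le (by positivity)
  have hKge : 1 / (11 * lam) ≤ 2 * K := by
    have u1 := Nat.lt_floor_add_one (1 / (11 * lam))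
    have u2 : (1 : ℝ) ≤ K := by exact_mod_cast hK1
    rw [← hK] at u1
    linarith
  have hK1r : (1 : ℝ) ≤ K := by exact_mod_cast hK1
  have hKA : (K : ℝ) ≤ 2 * A / r := by
    refine hKle.trans ?_
    rw [div_le_div_iff₀ (by positivity) (by positivity)]
    have : (r : ℝ) < lam * (2 * A) := by
      rwa [div_lt_iff₀ (by positivity)] at hlamlb
    nlinarith
  have hKN : K ≤ N' := by
    rw [hN', Nat.le_div_iff_mul_le (by omega)]
    rw [le_div_iff₀ (by positivity)] at hKA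
    exact_mod_cast hKA
  have hKA' : (K : ℝ) ≤ A := by
    refine hKle.trans ?_
    rw [div_le_iff₀ (by positivity)]
    have : (r : ℝ) < lam * (2 * A) := by
      rwa [div_lt_iff₀ (by positivity)] at hlamlb
    nlinarith
  have hv := StSP.vdC (fun v : ℕ => StSP.e (x / ((r : ℝ) * v - 1))) (fun n => (StSP.norm_e _).le)
    a b N' K hNN hK1 hKN
  have hsum : ∑ h ∈ Ico 1 K, ‖∑ n ∈ Ioc a (b - h), StSP.e (x / ((r : ℝ) * (n + h : ℕ) - 1)) *
      (starRingEnd ℂ) (StSP.e (x / ((r : ℝ) * n - 1)))‖ ≤ 283 / lam * (1 + Real.log A) := by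
    calc _ ≤ ∑ h ∈ Ico 1 K, 283 / lam * ((1 : ℝ) / h) := by
          apply sum_le_sum
          intro h hh
          rw [mem_Ico] at hh
          have hhr : (h : ℝ) ≤ K := by exact_mod_cast hh.2.le
          have hh0 : (1 : ℝ) ≤ h := by exact_mod_cast hh.1
          have := corr_bound x r a b A h hx hr hA h1 h2 hh.1 (by
            rw [← hlam]
            have : (h : ℝ) ≤ 1 / (11 * lam) := hhr.trans hKle
            rw [le_div_iff₀ (by positivity)] at this
            linarith)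
          refine this.trans (le_of_eq ?_)
          rw [← hlam]
          field_simp
      _ = 283 / lam * ∑ h ∈ Ico 1 K, (1 : ℝ) / h := by rw [mul_sum]
      _ ≤ 283 / lam * (1 + Real.log K) := by
          apply mul_le_mul_of_nonneg_left (harm K) (by positivity)
      _ ≤ 283 / lam * (1 + Real.log A) := by
          apply mul_le_mul_of_nonneg_left _ (by positivity)
          have := Real.log_le_log (by linarith) hKA'
          linarith
  have hN0 : (0 : ℝ) ≤ N' := Nat.cast_nonneg _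
  have hKinv : 1 / (K : ℝ) ≤ 22 * lam := by
    rw [div_le_iff₀ (by linarith)]
    rw [div_le_iff₀ (by positivity)] at hKge
    linarith
  have hfin : ‖∑ v ∈ Ioc a b, StSP.e (x / ((r : ℝ) * v - 1))‖ ^ 2 ≤
      50000 * (x / A + A * (1 + Real.log A)) := by
    refine hv.trans ?_
    have hL : 0 ≤ 1 + Real.log A := by linarith
    have hN2 : (N' : ℝ) ≤ 2 * A := by
      refine hNr.trans ?_
      rw [div_le_iff₀ (by positivity)]
      nlinarith
    calc (2 * N' / K : ℝ) * (N' + 2 * ∑ h ∈ Ico 1 K, ‖∑ n ∈ Ioc a (b - h),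
          StSP.e (x / ((r : ℝ) * (n + h : ℕ) - 1)) * (starRingEnd ℂ) (StSP.e (x / ((r : ℝ) * n - 1)))‖)
        ≤ (2 * N' / K : ℝ) * (N' + 2 * (283 / lam * (1 + Real.log A))) := by
          apply mul_le_mul_of_nonneg_left _ (by positivity)
          linarith
      _ = (1 / K) * (2 * N' * N' + 2 * N' * (2 * (283 / lam * (1 + Real.log A)))) := by ring
      _ ≤ (22 * lam) * (2 * N' * N' + 2 * N' * (2 * (283 / lam * (1 + Real.log A)))) := by
          apply mul_le_mul_of_nonneg_right hKinv (by positivity)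
      _ = 44 * (lam * N' * N') + 24904 * N' * (1 + Real.log A) := by
          field_simp
          ring
      _ ≤ 44 * (4 * (x / A)) + 24904 * (2 * A) * (1 + Real.log A) := by
          have w1 : lam * N' * N' ≤ 4 * (x / A) := by
            rw [hxA]
            have : (N' : ℝ) * N' ≤ (2 * A / r) * (2 * A / r) := mul_le_mul hNr hNr hN0 (by positivity)
            calc lam * N' * N' = lam * (N' * N') := by ring
              _ ≤ lam * ((2 * A / r) * (2 * A / r)) := mul_le_mul_of_nonneg_left this hlam0.le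
              _ = _ := by field_simp; ring
          have w2 : 24904 * (N' : ℝ) * (1 + Real.log A) ≤ 24904 * (2 * A) * (1 + Real.log A) := by
            apply mul_le_mul_of_nonneg_right _ hL
            linarith
          linarith
      _ ≤ _ := by
          have w3 : 0 ≤ x / A := by positivity
          have w4 : 0 ≤ A * (1 + Real.log A) := by positivity
          nlinarith
  have hx0 : 0 ≤ x / A := by positivity
  have hy0 : 0 ≤ A * (1 + Real.log A) := by
    have : 0 ≤ 1 + Real.log A := by linarith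
    positivity
  have hle : ‖∑ v ∈ Ioc a b, StSP.e (x / ((r : ℝ) * v - 1))‖ ≤
      224 * (√(x / A) + √(A * (1 + Real.log A))) := by
    apply abs_le_of_sq_le_sq' _ (by positivity) |>.2
    refine hfin.trans ?_
    have q1 := Real.sq_sqrt hx0
    have q2 := Real.sq_sqrt hy0
    have q3 : 0 ≤ √(x / A) * √(A * (1 + Real.log A)) := by positivity
    nlinarith
  linarith [mul_nonneg (show (0:ℝ) ≤ 224 by norm_num) s3]

end Pool.Agent.BLF
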