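import Mathlib
import Pool.Agent.BLF.Stmt

/-!
Module Fact (size 4).  From SPLIT, PROD, LOGD.  PROOF.  `T = G H` from SPLIT, `d = deg G`.  `3 G(2) H(2) = D n` (`Data.val2`), `H(2)` a nonzero integer, so `|G(2)| ≤ D n`.  `|G(2)| = |lc G| ∏ ‖2 - a‖ ≥ ∏` (`BernIrr.norm_eval_eq`, roots of `G.map ℂ` as a submultiset of
`(BC n).roots`, card `d`), PROD: `(d/2) log d - C d ≤ log D + log n ≤ 6√(n log n) + log n ≤ 7 √(n log n)` (LOGD).  Hence `d ≤ C' √(n/log n)`: otherwise, for large `n`, `log d ≥ (1/3) log n`, `(d/2) log d - C d ≥ (1/7) d log n > (C'/7) √(n log n)`, contradiction for `C' ≥ 49`.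
Symmetry: `sg T = T` (`Data.symm`), so `sg H` is irreducible (`sg_irr`) and divides `G H`.  If it is not associated to `H`, it is coprime (both prime in the UFD `ℤ[X]`) so divides `G`, and `deg H ≤ deg G`, `n - 3 = deg G + deg H ≤ 2 d` (`Data.deg_add`, `sg_deg`), impossible for large `n`.  So `sg H = ± H`
(`unit_pm`), and `sg G · sg H = G H` gives `sg G = ± G`.
-/

namespace Pool.Agent.BLF

open Polynomial Finset Pool.Agent.BernIrr Pool.Agent.StSP

private lemma fact_arith (C : ℝ) : ∃ n₃ : ℕ, ∀ n : ℕ, n₃ ≤ n → 1 ≤ Real.log n ∧ ∀ d : ℝ,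
    49 * √(n / Real.log n) < d → d / 2 * Real.log d - C * d ≤ 7 * √(n * Real.log n) → False := by
  have h1 : ∀ᶠ x : ℝ in Filter.atTop, ‖Real.log x‖ ≤ 1 * ‖x ^ (1 / 3 : ℝ)‖ :=
    (isLittleO_log_rpow_atTop (by norm_num : (0 : ℝ) < 1 / 3)).bound one_pos
  have h2 : ∀ᶠ x : ℝ in Filter.atTop, 42 * |C| + 1 ≤ Real.log x :=
    Real.tendsto_log_atTop.eventually_ge_atTop _
  have h3 : ∀ᶠ n : ℕ in Filter.atTop, ‖Real.log (n : ℝ)‖ ≤ 1 * ‖(n : ℝ) ^ (1 / 3 : ℝ)‖ ∧
      42 * |C| + 1 ≤ Real.log (n : ℝ) ∧ 1 ≤ n :=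
    (tendsto_natCast_atTop_atTop.eventually h1).and
      ((tendsto_natCast_atTop_atTop.eventually h2).and (Filter.eventually_ge_atTop 1))
  obtain ⟨n₃, hn₃⟩ := Filter.eventually_atTop.1 h3
  refine ⟨n₃, fun n hn => ?_⟩
  obtain ⟨h4, h5, h6⟩ := hn₃ n hn
  have hn0 : (0 : ℝ) < n := by exact_mod_cast h6
  have hL1 : 1 ≤ Real.log n := by
    have := abs_nonneg C
    linarith
  refine ⟨hL1, fun d hd hle => ?_⟩
  set L := Real.log (n : ℝ) with hL
  have hL0 : 0 < L := by linarith
  set t := (n : ℝ) ^ (1 / 3 : ℝ) with ht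
  have ht0 : 0 < t := Real.rpow_pos_of_pos hn0 _
  rw [Real.norm_of_nonneg hL0.le, Real.norm_of_nonneg ht0.le, one_mul] at h4
  have ht3 : t ^ 3 = n := by
    rw [ht, ← Real.rpow_natCast, ← Real.rpow_mul hn0.le]
    norm_num
  have h7 : t ≤ √(n / L) := by
    apply Real.le_sqrt_of_sq_le
    rw [le_div_iff₀ hL0, ← ht3]
    nlinarith [sq_nonneg t]
  have hd1 : t ≤ d := by
    have : 0 ≤ √(n / L) := Real.sqrt_nonneg _
    linarith
  have hd0 : 0 < d := lt_of_lt_of_le ht0 hd1
  have h8 : L / 3 ≤ Real.log d := by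
    have h9 : Real.log t ≤ Real.log d := Real.log_le_log ht0 hd1
    rw [ht, Real.log_rpow hn0] at h9
    linarith
  have h10 : √(n * L) = √(n / L) * L := by
    have : (n : ℝ) * L = (n / L) * (L * L) := by
      field_simp
    rw [this, Real.sqrt_mul (by positivity), Real.sqrt_mul_self hL0.le]
  have h11 : d * L / 7 ≤ d / 2 * Real.log d - C * d := by
    have h12 : C ≤ L / 42 := by
      have := le_abs_self C
      linarith
    nlinarith
  rw [h10] at hle
  nlinarith [mul_lt_mul_of_pos_right hd hL0]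

private lemma fact_roots {n D κ : ℕ} {T U G H : ℤ[X]} (h : Data n D κ T U) (hT : T = G * H) :
    (G.map (Int.castRingHom ℂ)).roots ≤ (BC n).roots := by
  have h1 := congrArg (Polynomial.map (algebraMap ℚ ℂ)) h.eq_rat
  rw [Polynomial.map_mul, Polynomial.map_mul, map_C, Polynomial.map_map, Polynomial.map_map] at h1
  have h2 : (algebraMap ℚ ℂ).comp (Int.castRingHom ℚ) = Int.castRingHom ℂ := RingHom.ext_int _ _
  rw [h2, hT, Polynomial.map_mul (Int.castRingHom ℂ)] at h1
  have hD0 : (algebraMap ℚ ℂ) (2 * (D : ℚ)) ≠ 0 := by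
    have := h.Dpos
    have h3 : (2 * (D : ℚ)) ≠ 0 := by positivity
    exact (_root_.map_ne_zero _).2 h3
  have hinj : Function.Injective (Int.castRingHom ℂ) := RingHom.injective_int _
  have hB0 : C ((algebraMap ℚ ℂ) (2 * (D : ℚ))) * BC n ≠ 0 := by
    rw [h1]
    refine mul_ne_zero ?_ (mul_ne_zero ?_ ?_)
    · exact (Polynomial.map_ne_zero_iff hinj).2 q3_primitive.ne_zero
    · exact (Polynomial.map_ne_zero_iff hinj).2 (h.G_ne hT)
    · exact (Polynomial.map_ne_zero_iff hinj).2 (h.H_ne hT)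
  have h4 : G.map (Int.castRingHom ℂ) ∣ C ((algebraMap ℚ ℂ) (2 * (D : ℚ))) * BC n := by
    rw [h1]
    exact ⟨q3.map (Int.castRingHom ℂ) * H.map (Int.castRingHom ℂ), by ring⟩
  have h5 := Polynomial.roots.le_of_dvd hB0 h4
  rwa [Polynomial.roots_C_mul _ hD0] at h5

theorem fact_holds (h1 : SplitS) (h2 : ProdS) (h3 : LogDS) : FactS := by
  obtain ⟨n₁, hsplit⟩ := h1
  obtain ⟨C, n₂, hC, hprod⟩ := h2
  obtain ⟨n₃, har⟩ := fact_arith C
  refine ⟨49, n₁ + n₂ + n₃ + 10000, by norm_num, ?_⟩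
  intro n D κ T U h hn
  obtain ⟨G, H, hT, hH, hroots⟩ := hsplit n D κ T U h (by omega)
  obtain ⟨hL1, harn⟩ := har n (by omega)
  have hn4 : (10000 : ℝ) ≤ n := by
    have : 10000 ≤ n := by omega
    exact_mod_cast this
  have hn0 : (0 : ℝ) < n := by linarith
  have hG0 := h.G_ne hT
  have hH0 := h.H_ne hT
  set Gc := G.map (Int.castRingHom ℂ) with hGc
  have hinj : Function.Injective (Int.castRingHom ℂ) := RingHom.injective_int _
  have hGc0 : Gc ≠ 0 := (Polynomial.map_ne_zero_iff hinj).2 hG0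
  have hGcd : Gc.natDegree = G.natDegree := natDegree_map_eq_of_injective hinj G
  have hcard : Multiset.card Gc.roots = G.natDegree := by
    rw [← hGcd]
    exact (splits_iff_card_roots.1 (IsAlgClosed.splits Gc))
  have hfar : ∀ a ∈ Gc.roots, (1 : ℝ) / 4 ≤ ‖2 - a‖ := by
    intro a ha
    exact hroots a ((mem_roots hGc0).1 ha)
  have hpr := hprod n (by omega) h.odd Gc.roots (fact_roots h hT) hfar
  rw [hcard] at hpr
  -- the value at 2
  have hGclc : ‖Gc.leadingCoeff‖ = |(G.leadingCoeff : ℝ)| := by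
    rw [hGc, leadingCoeff_map_of_injective hinj]
    simp
  have hlc : 1 ≤ |(G.leadingCoeff : ℝ)| := by
    have h5 : 1 ≤ |G.leadingCoeff| := Int.one_le_abs (leadingCoeff_ne_zero.2 hG0)
    exact_mod_cast h5
  have hPpos : 0 < (Gc.roots.map (fun a => ‖2 - a‖)).prod :=
    lt_of_lt_of_le (by positivity) (prod_ge (by norm_num : (0 : ℝ) ≤ 1 / 4) hfar)
  have hval : (Gc.roots.map (fun a => ‖2 - a‖)).prod ≤ D * n := by
    have h6 := norm_eval_eq (g := Gc) 2
    have h7 : Gc.eval 2 = ((G.eval 2 : ℤ) : ℂ) := by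
      have := Polynomial.eval_intCast_map (Int.castRingHom ℂ) G 2
      simpa using this
    rw [h7, hGclc, Complex.norm_intCast] at h6
    have h8 := h.val2
    rw [hT, eval_mul] at h8
    have hDn : (0 : ℤ) < D * n := by
      have := h.Dpos
      have h9 : 0 < n := by omega
      positivity
    have hH2 : H.eval 2 ≠ 0 := by
      intro h0
      rw [h0, mul_zero, mul_zero] at h8
      omega
    have h10 : |G.eval 2| ≤ D * n := by
      have h11 : |3 * (G.eval 2 * H.eval 2)| = D * n := by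
        rw [h8, abs_of_pos hDn]
      rw [abs_mul, abs_mul] at h11
      have h12 : 1 ≤ |H.eval 2| := Int.one_le_abs hH2
      have h13 : (0 : ℤ) ≤ |G.eval 2| := abs_nonneg _
      rw [← h11]
      have h14 : |(3 : ℤ)| = 3 := by norm_num
      rw [h14]
      nlinarith
    have h15 : |((G.eval 2 : ℤ) : ℝ)| ≤ D * n := by exact_mod_cast h10
    calc (Gc.roots.map (fun a => ‖2 - a‖)).prod
        ≤ |(G.leadingCoeff : ℝ)| * (Gc.roots.map (fun a => ‖2 - a‖)).prod := by
          nlinarith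
      _ = |((G.eval 2 : ℤ) : ℝ)| := h6.symm
      _ ≤ D * n := h15
  have hD0 : (0 : ℝ) < D := by exact_mod_cast h.Dpos
  have hlog : Real.log (Gc.roots.map (fun a => ‖2 - a‖)).prod ≤ Real.log D + Real.log n := by
    rw [← Real.log_mul hD0.ne' hn0.ne']
    exact Real.log_le_log hPpos hval
  have hlogD := (h3 n D κ T U h).2
  have hlogn : Real.log n ≤ √(n * Real.log n) := by
    apply Real.le_sqrt_of_sq_le
    have := Real.log_le_self hn0.le
    nlinarith
  have hdeg : (G.natDegree : ℝ) ≤ 49 * √(n / Real.log n) := by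
    by_contra hcon
    rw [not_le] at hcon
    exact harn _ hcon (by linarith)
  refine ⟨G, H, hT, hH, ?_, hdeg⟩
  -- symmetry
  have hsT : sg G * sg H = G * H := by
    rw [← map_mul, ← hT, sg_apply, h.symm]
  by_cases hass : Associated H (sg H)
  · obtain ⟨u, hu⟩ := hass
    rcases unit_pm u.isUnit with hu1 | hu1
    · left
      rw [hu1, mul_one] at hu
      rw [← hu] at hsT
      exact mul_right_cancel₀ hH0 hsT
    · right
      rw [hu1, mul_neg, mul_one] at hu
      rw [← hu, mul_neg] at hsT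
      apply mul_right_cancel₀ hH0
      rw [neg_mul, ← hsT, neg_neg]
  · exfalso
    have hsH := sg_irr hH
    have hdv : sg H ∣ G * H := ⟨sg G, by rw [← hsT]; ring⟩
    rcases hsH.prime.dvd_or_dvd hdv with h5 | h5
    · have h6 := Polynomial.natDegree_le_of_dvd h5 hG0
      rw [sg_deg] at h6
      have h7 := h.deg_add hT
      have h8 : (n : ℝ) - 3 ≤ 2 * (G.natDegree : ℝ) := by
        have h9 : n ≤ 2 * G.natDegree + 3 := by omega
        have h10 : (n : ℝ) ≤ 2 * G.natDegree + 3 := by exact_mod_cast h9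
        linarith
      have h11 : √(n / Real.log n) ≤ √n := by
        apply Real.sqrt_le_sqrt
        exact div_le_self hn0.le hL1
      have h12 : (100 : ℝ) ≤ √n := by
        apply Real.le_sqrt_of_sq_le
        rw [show (100 : ℝ) ^ 2 = 10000 by norm_num]
        exact hn4
      have h13 : √(n : ℝ) * √n = n := Real.mul_self_sqrt hn0.le
      nlinarith
    · exact hass ((hsH.associated_of_dvd hH h5).symm)

end Pool.Agent.BLF
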