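import Mathlib
import Pool.Agent.BLF.Stmt

/-!
Module Lam (size 3).  PROOF (classical).  `lam s D d = μ(d)/(ν(d) SS) ∑_{d ∣ l ∣ P, l ≤ D} g(l)`, `g = selbergTerms`, multiplicative, `g(p) = ν(p)/(1-ν(p))`
(Pool/Agent/H6/Selberg.lean, Mathlib SelbergSieve; `selbergTerms_apply`).  If `d` does not divide `P` the value is 0.  For `d ∣ P`: splitting the `l ≤ D` by `k = gcd(l, d)`:
`SS = ∑_{k ∣ d} ∑_{l ≤ D, gcd(l,d)=k} g(l) = ∑_{k∣d} g(k) ∑_{m ≤ D/k, (m,d)=1} g(m) ≥ (∑_{k∣d} g(k)) ∑_{m ≤ D/d, (m,d)=1} g(m)`, and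
`∑_{k∣d} g(k) = ∏_{p∣d}(1+g(p)) = ∏ 1/(1-ν(p)) = g(d)/ν(d)`, `∑_{d∣l≤D} g(l) = g(d) ∑_{m≤D/d,(m,d)=1} g(m)`.  So `ν(d) SS ≥ ∑_{d ∣ l ≤ D} g(l)`.
-/

namespace Pool.Agent.BLF

open Polynomial Finset Pool.Agent.BernIrr Pool.Agent.StSP

private theorem lam_key (s : BoundingSieve) (D d : ℕ) (hd : d ∣ s.prodPrimes) :
    (∑ l ∈ s.prodPrimes.divisors, if d ∣ l ∧ l ≤ D then s.selbergTerms l else 0) ≤
      s.nu d * H6.SS s D := by
  have hP0 : s.prodPrimes ≠ 0 := BoundingSieve.prodPrimes_ne_zero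
  have hPsq : Squarefree s.prodPrimes := s.prodPrimes_squarefree
  have hd0 : 0 < d := Nat.pos_of_dvd_of_pos hd (Nat.pos_of_ne_zero hP0)
  have hgd : 0 < s.selbergTerms d := BoundingSieve.selbergTerms_pos hd
  have hnu : 0 < s.nu d := BoundingSieve.nu_pos_of_dvd_prodPrimes hd
  set L := s.prodPrimes.divisors.filter (fun l => d ∣ l ∧ l ≤ D) with hL
  have hmul := s.selbergTerms_isMultiplicative
  have hT : (∑ l ∈ s.prodPrimes.divisors, if d ∣ l ∧ l ≤ D then s.selbergTerms l else 0) =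
      ∑ l ∈ L, s.selbergTerms l := by rw [hL, Finset.sum_filter]
  have hLmem : ∀ l ∈ L, ∃ m, l = d * m ∧ l ∣ s.prodPrimes ∧ l ≤ D ∧ Nat.Coprime d m ∧ 0 < m := by
    intro l hl
    rw [hL, Finset.mem_filter, Nat.mem_divisors] at hl
    obtain ⟨⟨h1, _⟩, ⟨m, rfl⟩, h3⟩ := hl
    refine ⟨m, rfl, h1, h3, Nat.coprime_of_squarefree_mul (hPsq.squarefree_of_dvd h1), ?_⟩
    exact Nat.pos_of_ne_zero (right_ne_zero_of_mul (ne_zero_of_dvd_ne_zero hP0 h1))
  have hinj : Set.InjOn (fun x : ℕ × ℕ => x.1 * (x.2 / d)) (d.divisors ×ˢ L : Finset (ℕ × ℕ)) := by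
    rintro ⟨k, l⟩ hx ⟨k', l'⟩ hy hxy
    simp only [Finset.coe_product, Set.mem_prod, Finset.mem_coe] at hx hy
    obtain ⟨m, rfl, h1, h2, h3, h4⟩ := hLmem l hx.2
    obtain ⟨m', rfl, h1', h2', h3', h4'⟩ := hLmem l' hy.2
    have hk := (Nat.mem_divisors.mp hx.1).1
    have hk' := (Nat.mem_divisors.mp hy.1).1
    simp only [Nat.mul_div_cancel_left _ hd0] at hxy
    have e1 : Nat.gcd d (k * m) = k := by
      rw [Nat.Coprime.gcd_mul_right_cancel_right k h3.symm]
      exact Nat.gcd_eq_right hk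
    have e2 : Nat.gcd d (k' * m') = k' := by
      rw [Nat.Coprime.gcd_mul_right_cancel_right k' h3'.symm]
      exact Nat.gcd_eq_right hk'
    have e3 : k = k' := by rw [← e1, ← e2, hxy]
    subst e3
    have hk0 : 0 < k := Nat.pos_of_dvd_of_pos hk hd0
    have e4 : m = m' := Nat.eq_of_mul_eq_mul_left hk0 hxy
    subst e4
    rfl
  have hsum : ∑ x ∈ d.divisors ×ˢ L, s.selbergTerms (x.1 * (x.2 / d)) ≤ H6.SS s D := by
    rw [← Finset.sum_image (f := fun n => s.selbergTerms n) hinj]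
    have hSS : H6.SS s D = ∑ l ∈ s.prodPrimes.divisors.filter (fun l => l ≤ D), s.selbergTerms l := by
      unfold H6.SS
      rw [Finset.sum_filter]
    rw [hSS]
    apply Finset.sum_le_sum_of_subset_of_nonneg
    · intro n hn
      rw [Finset.mem_image] at hn
      obtain ⟨⟨k, l⟩, hx, rfl⟩ := hn
      rw [Finset.mem_product] at hx
      obtain ⟨m, hlm, h1, h2, h3, h4⟩ := hLmem l hx.2
      have hk := (Nat.mem_divisors.mp hx.1).1
      dsimp only
      rw [hlm, Nat.mul_div_cancel_left _ hd0, Finset.mem_filter, Nat.mem_divisors]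
      rw [hlm] at h1 h2
      refine ⟨⟨(Nat.mul_dvd_mul_right hk m).trans h1, hP0⟩, ?_⟩
      exact (Nat.mul_le_mul_right m (Nat.le_of_dvd hd0 hk)).trans h2
    · intro i hi _
      rw [Finset.mem_filter] at hi
      exact (BoundingSieve.selbergTerms_pos (Nat.dvd_of_mem_divisors hi.1)).le
  have hval : ∑ x ∈ d.divisors ×ˢ L, s.selbergTerms (x.1 * (x.2 / d)) =
      (s.nu d)⁻¹ * ∑ l ∈ L, s.selbergTerms l := by
    rw [Finset.sum_product]
    have e1 : ∀ k ∈ d.divisors, (∑ l ∈ L, s.selbergTerms (k * (l / d))) =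
        s.selbergTerms k * ((s.selbergTerms d)⁻¹ * ∑ l ∈ L, s.selbergTerms l) := by
      intro k hk
      rw [Finset.mul_sum, Finset.mul_sum]
      apply Finset.sum_congr rfl
      intro l hl
      obtain ⟨m, hlm, h1, h2, h3, h4⟩ := hLmem l hl
      have hkd := (Nat.mem_divisors.mp hk).1
      rw [hlm, Nat.mul_div_cancel_left _ hd0, hmul.map_mul_of_coprime h3,
        hmul.map_mul_of_coprime (Nat.Coprime.coprime_dvd_left hkd h3)]
      field_simp
    have e2 : ∑ k ∈ d.divisors, s.selbergTerms k = s.selbergTerms d * (s.nu d)⁻¹ := by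
      rw [← BoundingSieve.sum_divisors_selbergTerms_eq_selbergTerms_mul_nu_inv hd,
        ← Finset.sum_filter]
      apply Finset.sum_congr _ (fun _ _ => rfl)
      ext k
      rw [Finset.mem_filter, Nat.mem_divisors, Nat.mem_divisors]
      constructor
      · rintro ⟨h1, _⟩
        exact ⟨⟨h1.trans hd, hP0⟩, h1⟩
      · rintro ⟨_, h1⟩
        exact ⟨h1, hd0.ne'⟩
    rw [Finset.sum_congr rfl e1, ← Finset.sum_mul, e2]
    field_simp
  rw [hT]
  rw [hval] at hsum
  rw [inv_mul_le_iff₀ hnu] at hsum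
  exact hsum

theorem lam_holds : LamS := by
  intro s D hD d
  by_cases hd : d ∣ s.prodPrimes
  · have hS : 0 < H6.SS s D := lt_of_lt_of_le one_pos (H6.one_le_SS s D hD)
    have hnu : 0 < s.nu d := BoundingSieve.nu_pos_of_dvd_prodPrimes hd
    have hkey := lam_key s D d hd
    have hnn : 0 ≤ (∑ l ∈ s.prodPrimes.divisors, if d ∣ l ∧ l ≤ D then s.selbergTerms l else 0) := by
      apply Finset.sum_nonneg
      intro l hl
      have hpos := (BoundingSieve.selbergTerms_pos (Nat.dvd_of_mem_divisors hl)).le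
      split_ifs
      · exact hpos
      · exact le_rfl
    unfold H6.lam
    rw [if_pos hd, abs_mul, abs_div, abs_of_nonneg hnn, abs_of_pos (mul_pos hnu hS)]
    have hmu : |(ArithmeticFunction.moebius d : ℝ)| ≤ 1 := by
      have := ArithmeticFunction.abs_moebius_le_one (n := d)
      exact_mod_cast this
    calc |(ArithmeticFunction.moebius d : ℝ)| / (s.nu d * H6.SS s D) *
          (∑ l ∈ s.prodPrimes.divisors, if d ∣ l ∧ l ≤ D then s.selbergTerms l else 0)
        ≤ 1 / (s.nu d * H6.SS s D) * (s.nu d * H6.SS s D) := by gcongr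
      _ = 1 := by
        have : s.nu d * H6.SS s D ≠ 0 := by positivity
        field_simp
  · unfold H6.lam
    rw [if_neg hd, abs_zero]
    exact zero_le_one

end Pool.Agent.BLF
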