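import Mathlib
import Pool.Agent.BLF.Stmt

/-!
Module LogD (size 3).  From BIG.  PROOF.  (1) For `p ∣ D`, `p > P` we have `p^2 > n`, `q := n/p + 1`, `q p ≤ n + n/p = n + q - 1` and `q p > n` (Nat.lt_mul_div_succ).  So `q` determines `p` (an interval of `q - 1` consecutive integers
contains at most one multiple of `q`), i.e. `p ↦ n/p` is injective on these primes, with values in `[1, n/P]` (`n/p ≥ 1` because `p ≤ n`: otherwise `n/p = 0` and `p ≤ n`).  So their number is `≤ n/P`, each `log p ≤ log (n+1)`.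
(2) `P := ⌈√(n log n)⌉₊` (`≥ √n` since `log n ≥ 1` for `n ≥ 5`): `log D = ∑_{p∣D} log p` (`D` squarefree, `Data.sqf`) `≤ θ(P) + (n/P + 1) log(n+1)`, `θ(P) ≤ log 4 · P` (`Chebyshev.theta_le_log4_mul_x`), and
`≤ 6 √(n log n)` for `n ≥ 5` (`log(n+1) ≤ log n + 1/n`, `log n ≤ √(n log n)`, `1 ≤ √(n log n)/2`).
-/

namespace Pool.Agent.BLF

open Polynomial Finset Pool.Agent.BernIrr Pool.Agent.StSP

private theorem LogD_one (h : BigS) {n D κ : ℕ} {T U : ℤ[X]} (hd : Data n D κ T U) (P : ℕ)
    (hP : 1 ≤ P) (hn : n ≤ P ^ 2) : ∑ p ∈ D.primeFactors.filter (fun p => P < p), Real.log p ≤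
    ((n : ℝ) / P + 1) * Real.log (n + 1) := by
  have key : ∀ p ∈ D.primeFactors.filter (fun p => P < p), 1 ≤ n / p ∧ n / p ≤ n / P ∧
      (n / p + 1) * p ≤ n + n / p ∧ n < (n / p + 1) * p ∧ 0 < p ∧ p ≤ n := by
    intro p hp
    rw [Finset.mem_filter, Nat.mem_primeFactors] at hp
    obtain ⟨⟨hpp, hpD, -⟩, hPp⟩ := hp
    have hp0 : 0 < p := hpp.pos
    have h1 : n < p ^ 2 := lt_of_le_of_lt hn (Nat.pow_lt_pow_left hPp (by norm_num))
    have h2 := h n D κ T U hd p hpp hpD h1
    have h3 : 1 ≤ n / p := by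
      by_contra h4
      have h5 : n / p = 0 := Nat.lt_one_iff.1 (not_le.1 h4)
      rw [h5] at h2
      simp only [zero_add, one_mul, add_zero] at h2
      have := (Nat.div_eq_zero_iff_lt hp0).1 h5
      omega
    have h6 : n / p ≤ n / P := Nat.div_le_div_left hPp.le hP
    have h7 : n < (n / p + 1) * p := by
      have := Nat.lt_mul_div_succ n hp0
      rw [mul_comm]; exact this
    have h8 : p ≤ n := by
      by_contra h9
      have : n / p = 0 := Nat.div_eq_of_lt (by omega)
      omega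
    exact ⟨h3, h6, h2, h7, hp0, h8⟩
  have hinj : Set.InjOn (fun p => n / p) (D.primeFactors.filter (fun p => P < p)) := by
    intro p hp p' hp' hpp
    obtain ⟨h1, -, h3, h4, -⟩ := key p hp
    obtain ⟨h1', -, h3', h4', -⟩ := key p' hp'
    simp only at hpp
    rw [← hpp] at h3' h4'
    by_contra hne
    rcases lt_or_gt_of_ne hne with hlt | hlt
    · have : (n / p + 1) * (p + 1) ≤ (n / p + 1) * p' := Nat.mul_le_mul_left _ hlt
      rw [mul_add, mul_one] at this
      omega
    · have : (n / p + 1) * (p' + 1) ≤ (n / p + 1) * p := Nat.mul_le_mul_left _ hlt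
      rw [mul_add, mul_one] at this
      omega
  have hcard : (D.primeFactors.filter (fun p => P < p)).card ≤ n / P := by
    have h1 : (D.primeFactors.filter (fun p => P < p)).card ≤ (Finset.Icc 1 (n / P)).card := by
      refine Finset.card_le_card_of_injOn (fun p => n / p) (fun p hp => ?_) hinj
      obtain ⟨h1, h2, -⟩ := key p hp
      simp only [Finset.coe_Icc, Set.mem_Icc]
      exact ⟨h1, h2⟩
    simpa using h1
  have hlog : ∀ p ∈ D.primeFactors.filter (fun p => P < p), Real.log p ≤ Real.log (n + 1) := by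
    intro p hp
    obtain ⟨-, -, -, -, h5, h6⟩ := key p hp
    apply Real.log_le_log (by exact_mod_cast h5)
    exact_mod_cast (by omega : p ≤ n + 1)
  have hln : 0 ≤ Real.log ((n : ℝ) + 1) := Real.log_nonneg (by
    have : (0 : ℝ) ≤ n := Nat.cast_nonneg n
    linarith)
  calc ∑ p ∈ D.primeFactors.filter (fun p => P < p), Real.log p
      ≤ ∑ _p ∈ D.primeFactors.filter (fun p => P < p), Real.log ((n : ℝ) + 1) :=
        Finset.sum_le_sum hlog
    _ = ((D.primeFactors.filter (fun p => P < p)).card : ℝ) * Real.log ((n : ℝ) + 1) := by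
        rw [Finset.sum_const, nsmul_eq_mul]
    _ ≤ ((n : ℝ) / P + 1) * Real.log (n + 1) := by
        apply mul_le_mul_of_nonneg_right _ hln
        have h1 : ((D.primeFactors.filter (fun p => P < p)).card : ℝ) ≤ ((n / P : ℕ) : ℝ) := by
          exact_mod_cast hcard
        have h2 : ((n / P : ℕ) : ℝ) ≤ (n : ℝ) / P := Nat.cast_div_le
        linarith

theorem logD_holds (h : BigS) : LogDS := by
  intro n D κ T U hd
  refine ⟨fun P hP hn => LogD_one h hd P hP hn, ?_⟩
  have hn5 : 5 ≤ n := hd.ge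
  have hnR : (5 : ℝ) ≤ n := by exact_mod_cast hn5
  have hn0 : (0 : ℝ) < n := by linarith
  have hlog1 : 1 ≤ Real.log n := by
    rw [Real.le_log_iff_exp_le hn0]
    have := Real.exp_one_lt_d9
    linarith
  set t : ℝ := √(n * Real.log n) with ht
  have htt : t ^ 2 = n * Real.log n := Real.sq_sqrt (by positivity)
  have ht0 : 0 ≤ t := Real.sqrt_nonneg _
  have htn : (n : ℝ) ≤ t ^ 2 := by rw [htt]; nlinarith
  have ht2 : 2 ≤ t := by
    by_contra hcon
    push Not at hcon
    nlinarith
  have hlogt : Real.log n ≤ t := by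
    have h1 : Real.log n ≤ n := (Real.log_le_sub_one_of_pos hn0).trans (by linarith)
    apply Real.le_sqrt_of_sq_le
    nlinarith
  set P : ℕ := ⌈t⌉₊ with hP
  have hPt : t ≤ P := Nat.le_ceil t
  have hPt' : (P : ℝ) < t + 1 := Nat.ceil_lt_add_one ht0
  have hP1 : 1 ≤ P := by
    have : (1 : ℝ) ≤ P := by linarith
    exact_mod_cast this
  have hnP : n ≤ P ^ 2 := by
    have : (n : ℝ) ≤ (P : ℝ) ^ 2 := htn.trans (by nlinarith)
    exact_mod_cast this
  have hone := LogD_one h hd P hP1 hnP
  have hD0 : D ≠ 0 := hd.sqf.ne_zero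
  have hlogD : Real.log D = ∑ p ∈ D.primeFactors, Real.log p := by
    conv_lhs => rw [← Nat.prod_primeFactors_of_squarefree hd.sqf]
    rw [Nat.cast_prod, Real.log_prod]
    intro p hp
    exact_mod_cast (Nat.prime_of_mem_primeFactors hp).ne_zero
  have hsmall : ∑ p ∈ D.primeFactors.filter (fun p => ¬ P < p), Real.log p ≤
      Real.log 4 * P := by
    refine le_trans ?_ (Chebyshev.theta_le_log4_mul_x (Nat.cast_nonneg P))
    unfold Chebyshev.theta
    rw [Nat.floor_natCast]
    apply Finset.sum_le_sum_of_subset_of_nonneg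
    · intro p hp
      rw [Finset.mem_filter, Nat.mem_primeFactors] at hp
      rw [Finset.mem_filter, Finset.mem_Ioc]
      exact ⟨⟨hp.1.1.pos, by omega⟩, hp.1.1⟩
    · intro p hp _
      rw [Finset.mem_filter, Finset.mem_Ioc] at hp
      exact Real.log_nonneg (by exact_mod_cast hp.1.1)
  have hsplit : Real.log D = ∑ p ∈ D.primeFactors.filter (fun p => P < p), Real.log p +
      ∑ p ∈ D.primeFactors.filter (fun p => ¬ P < p), Real.log p := by
    rw [hlogD, Finset.sum_filter_add_sum_filter_not]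
  have hlog4 : Real.log 4 ≤ 1.4 := by
    have h1 : Real.log 4 = 2 * Real.log 2 := by
      rw [show (4 : ℝ) = 2 ^ 2 by norm_num, Real.log_pow]
      norm_num
    have := Real.log_two_lt_d9
    rw [h1]; linarith
  have hlogn1 : Real.log ((n : ℝ) + 1) ≤ Real.log n + 1 / n := by
    have h1 : Real.log ((n : ℝ) + 1) = Real.log n + Real.log (1 + 1 / n) := by
      rw [← Real.log_mul (by positivity) (by positivity)]
      congr 1
      field_simp
    have h2 : Real.log (1 + 1 / (n : ℝ)) ≤ 1 / n := by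
      have := Real.log_le_sub_one_of_pos (show (0 : ℝ) < 1 + 1 / n by positivity)
      linarith
    linarith
  have hinv : 1 / (n : ℝ) ≤ 1 / 5 := one_div_le_one_div_of_le (by norm_num) hnR
  have hP0 : (0 : ℝ) < P := by linarith
  have ht00 : (0 : ℝ) < t := by linarith
  have h1 : (n : ℝ) / P ≤ n / t := div_le_div_of_nonneg_left hn0.le ht00 hPt
  have h2 : (n : ℝ) / t * Real.log n = t := by
    rw [div_mul_eq_mul_div, ← htt]
    field_simp
  have h3 : (n : ℝ) / t * (1 / n) ≤ 1 / 2 := by
    rw [show (n : ℝ) / t * (1 / n) = 1 / t by field_simp]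
    exact one_div_le_one_div_of_le (by norm_num) ht2
  have hbig : ((n : ℝ) / P + 1) * Real.log (n + 1) ≤ 2 * t + 7 / 10 := by
    have h4 : ((n : ℝ) / P + 1) * Real.log (n + 1) ≤ ((n : ℝ) / t + 1) * (Real.log n + 1 / n) := by
      apply mul_le_mul (by linarith) hlogn1 _ (by positivity)
      exact Real.log_nonneg (by linarith)
    have h5 : ((n : ℝ) / t + 1) * (Real.log n + 1 / n) = (n : ℝ) / t * Real.log n +
        (n : ℝ) / t * (1 / n) + Real.log n + 1 / n := by ring
    rw [h5, h2] at h4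
    linarith
  have hsm : Real.log 4 * P ≤ 1.4 * (t + 1) := by
    have h4 : (0 : ℝ) ≤ Real.log 4 := Real.log_nonneg (by norm_num)
    nlinarith
  rw [hsplit]
  linarith

end Pool.Agent.BLF
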