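import Mathlib
import Pool.Agent.BLF.Stmt

/-!
Module Maj (size 3).  PROOF.  For `H ≥ 1` let `K(t) = ∑_{|h|<H} (1 - |h|/H) e(h t) = (1/H) |∑_{k<H} e(k t)|^2 ≥ 0` (Fejer), `η = ε/(8+8ε)`-like small,
`s = ε δ/8`, `H = ⌈C₁/δ⌉` with `s H ≥ 2/η + 2`.  `J = {j ∈ ℤ : - s H ≤ j ≤ (δ + s) H}`, `F(x) = (1/(1-η)) (1/H) ∑_{j ∈ J} K(x - j/H)`.
Then `a_h = (1/(1-η)) (1 - |h|/H) (1/H) ∑_{j∈J} e(-h j/H)`, `|a_h| ≤ |J|/(H(1-η)) ≤ (δ + 2s + 1/H)/(1-η) ≤ (1+ε) δ`, `F ≥ 0`.
For `fract x ≤ δ` (replace `x` by `fract x`, period 1): `(1/H) ∑_{j mod H} K(x - j/H) = 1` (only `h = 0` survives since `|h| < H`), and for the `j` mod `H` not in `J` the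
distance of `x - j/H` to the nearest integer is `≥ s`; `K(t) ≤ (1/H)/(4‖t‖^2)` (`|∑_{k<H} e(kt)| ≤ 1/|sin π t| ≤ 1/(2‖t‖)`), the points `x - j/H` are `1/H`-separated, so the
rest is `≤ (1/H)(1/H) 2 ∑_{i ≥ 0} 1/(4 (s + i/H)^2) = (1/2) ∑_i 1/(sH + i)^2 ≤ 1/(sH - 1) ≤ η`.  (`StSP.e` is `exp(2πi x)`.)
Any other construction of a finite majorant with these bounds is fine.
-/

namespace Pool.Agent.BLF

open Polynomial Finset Pool.Agent.BernIrr Pool.Agent.StSP

private theorem Maj_int (n : ℤ) : StSP.e (n : ℝ) = 1 := by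
  rw [StSP.e, Complex.exp_eq_one_iff]
  refine ⟨n, ?_⟩
  push_cast
  ring

private theorem Maj_nat (n : ℕ) : StSP.e (n : ℝ) = 1 := by
  have := Maj_int (n : ℤ)
  simpa using this

private theorem Maj_pow (x : ℝ) (j : ℕ) : StSP.e x ^ j = StSP.e (j * x) := by
  induction j with
  | zero => simp [StSP.e_zero]
  | succ j ih =>
    rw [pow_succ, ih, ← StSP.e_add]
    congr 1
    push_cast
    ring

private theorem Maj_one {x : ℝ} (h : StSP.e x = 1) : ∃ n : ℤ, x = n := by
  rw [StSP.e, Complex.exp_eq_one_iff] at h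
  obtain ⟨n, hn⟩ := h
  refine ⟨n, ?_⟩
  have h1 : Complex.I * (((2 * Real.pi * x : ℝ) : ℂ) - ((2 * Real.pi * n : ℝ) : ℂ)) = 0 := by
    push_cast at hn ⊢
    linear_combination hn
  have h2 := (mul_eq_zero.1 h1).resolve_left Complex.I_ne_zero
  rw [← Complex.ofReal_sub, Complex.ofReal_eq_zero] at h2
  have h3 : 2 * Real.pi * (x - n) = 0 := by linear_combination h2
  have h4 : (2 * Real.pi) ≠ 0 := by positivity
  have h5 := (mul_eq_zero.1 h3).resolve_left h4
  linarith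

private theorem Maj_orth (M : ℕ) (hM : 0 < M) (h : ℤ) (hh : |h| < M) (hne : h ≠ 0) (x : ℝ) :
    ∑ j ∈ range M, StSP.e (h * (x - j / M)) = 0 := by
  have hM' : (M : ℝ) ≠ 0 := by positivity
  have h1 : ∀ j ∈ range M, StSP.e (h * (x - j / M)) =
      StSP.e (h * x) * StSP.e (-(h / M)) ^ j := by
    intro j _
    rw [Maj_pow, ← StSP.e_add]
    congr 1
    ring
  rw [Finset.sum_congr rfl h1, ← Finset.mul_sum]
  have h2 : StSP.e (-((h : ℝ) / M)) ≠ 1 := by
    intro h3
    obtain ⟨n, hn⟩ := Maj_one h3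
    have h4 : -(h : ℝ) = n * M := by
      field_simp at hn
      linarith
    have h5 : -h = n * M := by exact_mod_cast h4
    have h6 : (M : ℤ) ∣ h := ⟨-n, by linarith⟩
    have h7 := Int.le_of_dvd (abs_pos.2 hne) ((dvd_abs _ _).2 h6)
    omega
  have h3 : StSP.e (-((h : ℝ) / M)) ^ M = 1 := by
    rw [Maj_pow]
    have : (M : ℝ) * (-((h : ℝ) / M)) = ((-h : ℤ) : ℝ) := by
      push_cast
      field_simp
    rw [this, Maj_int]
  rw [geom_sum_eq h2, h3, sub_self, zero_div, mul_zero]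

private theorem Maj_sq (z : ℂ) : ((‖z‖ ^ 2 : ℝ) : ℂ) = z * (starRingEnd ℂ) z := by
  rw [Complex.mul_conj, Complex.normSq_eq_norm_sq]

private theorem Maj_exp (n : ℕ) (c : ℕ → ℝ) (t : ℝ) :
    ((‖∑ k ∈ range n, (c k : ℂ) * StSP.e (k * t)‖ ^ 2 : ℝ) : ℂ) =
      ∑ p ∈ range n ×ˢ range n, ((c p.1 * c p.2 : ℝ) : ℂ) *
        StSP.e ((((p.1 : ℤ) - (p.2 : ℤ) : ℤ) : ℝ) * t) := by
  rw [Maj_sq, map_sum, Finset.sum_mul_sum, Finset.sum_product]
  refine Finset.sum_congr rfl fun k _ => Finset.sum_congr rfl fun l _ => ?_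
  rw [map_mul, Complex.conj_ofReal]
  have h1 := StSP.e_mul_conj (k * t) (l * t)
  have h2 : (((k : ℤ) - (l : ℤ) : ℤ) : ℝ) * t = k * t - l * t := by
    push_cast
    ring
  rw [h2, ← h1]
  push_cast
  ring

private theorem Maj_pars (M n : ℕ) (hn : n ≤ M) (hM : 0 < M) (c : ℕ → ℝ) (x : ℝ) :
    ∑ j ∈ range M, ‖∑ k ∈ range n, (c k : ℂ) * StSP.e (k * (x - j / M))‖ ^ 2 =
      M * ∑ k ∈ range n, c k ^ 2 := by
  have h1 : ((∑ j ∈ range M, ‖∑ k ∈ range n, (c k : ℂ) * StSP.e (k * (x - j / M))‖ ^ 2 : ℝ) : ℂ) =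
      ((M * ∑ k ∈ range n, c k ^ 2 : ℝ) : ℂ) := by
    push_cast
    have h2 : ∀ j ∈ range M,
        ((‖∑ k ∈ range n, (c k : ℂ) * StSP.e (k * (x - j / M))‖ : ℝ) : ℂ) ^ 2 =
        ∑ p ∈ range n ×ˢ range n, ((c p.1 * c p.2 : ℝ) : ℂ) *
        StSP.e ((((p.1 : ℤ) - (p.2 : ℤ) : ℤ) : ℝ) * (x - j / M)) := by
      intro j _
      rw [← Maj_exp]
      push_cast
      rfl
    rw [Finset.sum_congr rfl h2, Finset.sum_comm, Finset.sum_product, Finset.mul_sum]
    refine Finset.sum_congr rfl fun k hk => ?_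
    rw [Finset.sum_eq_single k]
    · rw [← Finset.mul_sum]
      have h3 : ∀ j ∈ range M, StSP.e ((((k : ℤ) - (k : ℤ) : ℤ) : ℝ) * (x - j / M)) = 1 := by
        intro j _
        rw [sub_self, Int.cast_zero, zero_mul, StSP.e_zero]
      rw [Finset.sum_congr rfl h3, Finset.sum_const, card_range, nsmul_eq_mul, mul_one]
      push_cast
      ring
    · intro l hl hlk
      rw [← Finset.mul_sum]
      rw [mem_range] at hk hl
      have h3 := Maj_orth M hM ((k : ℤ) - l) (by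
        rw [abs_lt]
        constructor <;> omega) (by omega) x
      rw [h3, mul_zero]
    · intro h
      exact absurd hk h
  exact_mod_cast h1

private theorem Maj_shift (n : ℕ) (c : ℕ → ℝ) (t : ℝ) (m : ℤ) :
    ∑ k ∈ range n, (c k : ℂ) * StSP.e (k * (t + m)) = ∑ k ∈ range n, (c k : ℂ) * StSP.e (k * t) := by
  refine Finset.sum_congr rfl fun k _ => ?_
  have h1 : (k : ℝ) * (t + m) = k * t + (((k : ℤ) * m : ℤ) : ℝ) := by
    push_cast
    ring
  rw [h1, StSP.e_add, Maj_int, mul_one]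

/-- the weights -/
private noncomputable def Maj_v (L k : ℕ) : ℝ := min (k : ℝ) (2 * L - k)

private theorem Maj_v1 (L k : ℕ) (h : k ≤ L) : Maj_v L k = k := by
  rw [Maj_v, min_eq_left]
  have : (k : ℝ) ≤ L := by exact_mod_cast h
  linarith

private theorem Maj_v2 (L k : ℕ) (h : L ≤ k) : Maj_v L k = 2 * L - k := by
  rw [Maj_v, min_eq_right]
  have : (L : ℝ) ≤ k := by exact_mod_cast h
  linarith

private theorem Maj_d (L k : ℕ) : (Maj_v L (k + 1) - Maj_v L k) ^ 2 = 1 := by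
  rcases Nat.lt_or_ge k L with h | h
  · rw [Maj_v1 L _ h, Maj_v1 L _ h.le]
    push_cast
    ring
  · rw [Maj_v2 L _ (by omega), Maj_v2 L _ h]
    push_cast
    ring

private theorem Maj_id (L : ℕ) (t : ℝ) :
    (∑ k ∈ range (2 * L), (Maj_v L k : ℂ) * StSP.e (k * t)) * (1 - StSP.e t) =
      StSP.e t * ∑ k ∈ range (2 * L), ((Maj_v L (k + 1) - Maj_v L k : ℝ) : ℂ) * StSP.e (k * t) := by
  have hk : ∀ k : ℕ, StSP.e ((k + 1 : ℕ) * t) = StSP.e (k * t) * StSP.e t := by
    intro k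
    rw [← StSP.e_add]
    congr 1
    push_cast
    ring
  have h1 : ∑ k ∈ range (2 * L), (Maj_v L (k + 1) : ℂ) * StSP.e ((k + 1 : ℕ) * t) =
      ∑ k ∈ range (2 * L), (Maj_v L k : ℂ) * StSP.e (k * t) := by
    have e1 := Finset.sum_range_succ (fun k => (Maj_v L k : ℂ) * StSP.e (k * t)) (2 * L)
    have e2 := Finset.sum_range_succ' (fun k => (Maj_v L k : ℂ) * StSP.e (k * t)) (2 * L)
    have e3 : Maj_v L (2 * L) = 0 := by
      rw [Maj_v2 L _ (by omega)]
      push_cast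
      ring
    have e4 : Maj_v L 0 = 0 := by
      rw [Maj_v1 L _ (Nat.zero_le _)]
      simp
    rw [e1] at e2
    rw [e3, e4] at e2
    simp only [Complex.ofReal_zero, zero_mul, add_zero] at e2
    exact e2.symm
  rw [mul_sub, mul_one]
  nth_rewrite 1 [← h1]
  rw [Finset.sum_mul, Finset.mul_sum, ← Finset.sum_sub_distrib]
  refine Finset.sum_congr rfl fun k _ => ?_
  rw [hk]
  push_cast
  ring

private theorem Maj_W (L : ℕ) (hL : 1 ≤ L) :
    (L : ℝ) ^ 3 / 3 ≤ ∑ k ∈ range (2 * L), Maj_v L k ^ 2 := by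
  have h1 : ∀ L : ℕ, (L : ℝ) ^ 3 / 3 ≤ ∑ k ∈ range (L + 1), (k : ℝ) ^ 2 := by
    intro L
    induction L with
    | zero => simp
    | succ L ih =>
      rw [Finset.sum_range_succ]
      push_cast
      nlinarith [ih, (Nat.cast_nonneg L : (0 : ℝ) ≤ L)]
  refine (h1 L).trans ?_
  have h2 : ∑ k ∈ range (L + 1), (k : ℝ) ^ 2 = ∑ k ∈ range (L + 1), Maj_v L k ^ 2 := by
    refine Finset.sum_congr rfl fun k hk => ?_
    rw [Maj_v1 L k (by rw [mem_range] at hk; omega)]
  rw [h2]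
  exact Finset.sum_le_sum_of_subset_of_nonneg (range_subset_range.2 (by omega))
    fun _ _ _ => sq_nonneg _

private theorem Maj_far {s t : ℝ} (hs0 : 0 < s) (hs : s ≤ 1 / 4) (h1 : s ≤ |t|)
    (h2 : -(1 / 2) ≤ t) (h3 : t ≤ 3 / 4) : 4 * s ≤ ‖1 - StSP.e t‖ := by
  rcases le_or_gt 0 t with h | h
  · rw [abs_of_nonneg h] at h1
    rcases le_or_gt t (1 / 2) with h4 | h4
    · have h5 := StSP.norm_one_sub_e_ge h h4
      have h6 : ‖1 - StSP.e t‖ = ‖1 - StSP.e (-t)‖ := by
        rw [StSP.e_neg, ← Complex.norm_conj (1 - StSP.e t), map_sub, map_one]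
      rw [h6]
      linarith
    · have h5 := StSP.norm_one_sub_e_ge (x := 1 - t) (by linarith) (by linarith)
      have h6 : StSP.e (-(1 - t)) = StSP.e t := by
        have : t = -(1 - t) + ((1 : ℤ) : ℝ) := by
          push_cast
          ring
        nth_rewrite 2 [this]
        rw [StSP.e_add, Maj_int, mul_one]
      rw [h6] at h5
      linarith
  · rw [abs_of_neg h] at h1
    have h5 := StSP.norm_one_sub_e_ge (x := -t) (by linarith) (by linarith)
    rw [neg_neg] at h5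
    linarith

private theorem Maj_coef (n : ℕ) (c : ℕ → ℝ) (h : ℤ) :
    |∑ p ∈ (range n ×ˢ range n).filter (fun p => ((p.1 : ℤ) - (p.2 : ℤ)) = h), c p.1 * c p.2| ≤
      ∑ k ∈ range n, c k ^ 2 := by
  refine (Finset.abs_sum_le_sum_abs _ _).trans ?_
  have h1 : ∑ p ∈ (range n ×ˢ range n).filter (fun p => ((p.1 : ℤ) - (p.2 : ℤ)) = h),
      c p.1 ^ 2 ≤ ∑ k ∈ range n, c k ^ 2 := by
    rw [← Finset.sum_image (f := fun k => c k ^ 2) (g := fun p : ℕ × ℕ => p.1)]
    · apply Finset.sum_le_sum_of_subset_of_nonneg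
      · intro k hk
        rw [mem_image] at hk
        obtain ⟨p, hp, rfl⟩ := hk
        rw [mem_filter, mem_product] at hp
        exact hp.1.1
      · intro _ _ _
        exact sq_nonneg _
    · intro p hp q hq hpq
      rw [mem_coe, mem_filter] at hp hq
      have h1 := hp.2
      have h2 := hq.2
      have h3 : p.1 = q.1 := hpq
      refine Prod.ext h3 ?_
      omega
  have h2 : ∑ p ∈ (range n ×ˢ range n).filter (fun p => ((p.1 : ℤ) - (p.2 : ℤ)) = h),
      c p.2 ^ 2 ≤ ∑ k ∈ range n, c k ^ 2 := by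
    rw [← Finset.sum_image (f := fun k => c k ^ 2) (g := fun p : ℕ × ℕ => p.2)]
    · apply Finset.sum_le_sum_of_subset_of_nonneg
      · intro k hk
        rw [mem_image] at hk
        obtain ⟨p, hp, rfl⟩ := hk
        rw [mem_filter, mem_product] at hp
        exact hp.1.2
      · intro _ _ _
        exact sq_nonneg _
    · intro p hp q hq hpq
      rw [mem_coe, mem_filter] at hp hq
      have h1 := hp.2
      have h2 := hq.2
      have h3 : p.2 = q.2 := hpq
      refine Prod.ext ?_ h3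
      omega
  have h3 : ∑ p ∈ (range n ×ˢ range n).filter (fun p => ((p.1 : ℤ) - (p.2 : ℤ)) = h),
      |c p.1 * c p.2| ≤ ∑ p ∈ (range n ×ˢ range n).filter
        (fun p => ((p.1 : ℤ) - (p.2 : ℤ)) = h), (c p.1 ^ 2 + c p.2 ^ 2) / 2 := by
    refine Finset.sum_le_sum fun p _ => ?_
    rw [abs_le]
    constructor <;> nlinarith [sq_nonneg (c p.1 + c p.2), sq_nonneg (c p.1 - c p.2)]
  refine h3.trans ?_
  rw [← Finset.sum_div, Finset.sum_add_distrib]
  linarith

theorem maj_holds : MajS := by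
  intro ε hε
  set κ : ℝ := ε / (8 * (1 + ε)) with hκ
  have hκ0 : 0 < κ := by positivity
  have hκ1 : κ * (8 * (1 + ε)) = ε := by
    rw [hκ]
    field_simp
  have hκ2 : κ ≤ 1 / 8 := by
    by_contra hc
    push Not at hc
    nlinarith
  refine ⟨1 / κ ^ 2 + 3 + ε, by positivity, ?_⟩
  intro δ hδ hδ4
  set s : ℝ := κ * δ with hs
  have hs0 : 0 < s := by positivity
  have hs1 : s ≤ 1 / 4 := by nlinarith
  set L : ℕ := ⌈1 / (2 * κ ^ 2 * δ)⌉₊ with hLdef
  have hL1 : 1 / (2 * κ ^ 2 * δ) ≤ L := Nat.le_ceil _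
  have hL2 : (L : ℝ) < 1 / (2 * κ ^ 2 * δ) + 1 := Nat.ceil_lt_add_one (by positivity)
  have hL0 : (0 : ℝ) < L := lt_of_lt_of_le (by positivity) hL1
  have hL0' : 0 < L := by exact_mod_cast hL0
  have hL3 : 1 ≤ L * (2 * κ ^ 2 * δ) := by
    rw [div_le_iff₀ (by positivity)] at hL1
    exact hL1
  set M : ℕ := 2 * L with hM
  have hM0 : 0 < M := by omega
  have hMr : (M : ℝ) = 2 * L := by
    rw [hM]
    push_cast
    ring
  have hM1 : (0 : ℝ) < M := by positivity
  set W : ℝ := ∑ k ∈ range M, Maj_v L k ^ 2 with hWdef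
  have hW : (L : ℝ) ^ 3 / 3 ≤ W := Maj_W L hL0'
  have hW0 : 0 < W := lt_of_lt_of_le (by positivity) hW
  set P : ℝ → ℂ := fun t => ∑ k ∈ range M, (Maj_v L k : ℂ) * StSP.e (k * t) with hP
  set u : ℕ → ℝ := fun j => ((j : ℝ) - L) / M with hu
  set J : Finset ℕ := (range M).filter (fun j => -s ≤ u j ∧ u j ≤ δ + s) with hJ
  -- the number of shifts
  have hJc : (J.card : ℝ) ≤ (δ + 2 * s) * M + 1 := by
    have h1 : J.card ≤ (Icc ⌈-s * M + L⌉ ⌊(δ + s) * M + L⌋).card := by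
      apply Finset.card_le_card_of_injOn (fun j : ℕ => (j : ℤ))
      · intro j hj
        rw [mem_coe, hJ, mem_filter] at hj
        obtain ⟨-, h1, h2⟩ := hj
        rw [hu] at h1 h2
        simp only at h1 h2
        rw [le_div_iff₀ hM1] at h1
        rw [div_le_iff₀ hM1] at h2
        rw [mem_coe, mem_Icc, Int.ceil_le, Int.le_floor]
        push_cast
        constructor <;> linarith
      · intro a _ b _ hab
        have hab' : (a : ℤ) = (b : ℤ) := hab
        exact_mod_cast hab'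
    rw [Int.card_Icc] at h1
    have h2 : (J.card : ℝ) ≤ ((⌊(δ + s) * M + L⌋ + 1 - ⌈-s * M + L⌉).toNat : ℝ) := by
      exact_mod_cast h1
    refine h2.trans ?_
    have h3 : (⌊(δ + s) * M + L⌋ : ℝ) ≤ (δ + s) * M + L := Int.floor_le _
    have h4 : -s * M + L ≤ (⌈-s * M + L⌉ : ℝ) := Int.le_ceil _
    rcases le_or_gt 0 (⌊(δ + s) * M + L⌋ + 1 - ⌈-s * M + L⌉) with h5 | h5
    · have h6 : ((⌊(δ + s) * M + L⌋ + 1 - ⌈-s * M + L⌉).toNat : ℝ) =
          ((⌊(δ + s) * M + L⌋ + 1 - ⌈-s * M + L⌉ : ℤ) : ℝ) := by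
        exact_mod_cast congrArg (Int.cast : ℤ → ℝ) (Int.toNat_of_nonneg h5)
      rw [h6]
      push_cast
      linarith
    · rw [Int.toNat_of_nonpos h5.le]
      push_cast
      positivity
  set B : ℝ := 1 / ((1 - 2 * κ) * M * W) with hB
  have h1κ : 0 < 1 - 2 * κ := by linarith
  have hB0 : 0 < B := by positivity
  have hnorm : B * (W * J.card) ≤ (1 + ε) * δ := by
    have h1 : B * (W * J.card) = J.card / ((1 - 2 * κ) * M) := by
      rw [hB]
      field_simp
    rw [h1, div_le_iff₀ (by positivity)]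
    refine hJc.trans ?_
    have h2 : 1 ≤ κ * δ * M := by
      rw [hMr]
      nlinarith [mul_pos hκ0 hδ, mul_pos (mul_pos hκ0 hδ) hL0]
    have h3 : (δ + 2 * s) * M + 1 ≤ (δ + 3 * s) * M := by
      rw [hs]
      nlinarith
    refine h3.trans ?_
    have h4 : δ + 3 * s ≤ (1 + ε) * δ * (1 - 2 * κ) := by
      rw [hs]
      have : (1 + 3 * κ) ≤ (1 + ε) * (1 - 2 * κ) := by nlinarith
      nlinarith
    calc (δ + 3 * s) * M ≤ ((1 + ε) * δ * (1 - 2 * κ)) * M :=
          mul_le_mul_of_nonneg_right h4 hM1.le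
      _ = (1 + ε) * δ * ((1 - 2 * κ) * M) := by ring
  set Q : ℤ → ℝ := fun h => ∑ p ∈ (range M ×ˢ range M).filter
    (fun p => ((p.1 : ℤ) - (p.2 : ℤ)) = h), Maj_v L p.1 * Maj_v L p.2 with hQ
  set a : ℤ → ℂ := fun h => (B : ℂ) * ((Q h : ℂ) * ∑ j ∈ J, StSP.e (-(h * u j))) with ha
  have hanorm : ∀ h, ‖a h‖ ≤ B * (W * J.card) := by
    intro h
    rw [ha]
    simp only
    rw [norm_mul, norm_mul, Complex.norm_real, Complex.norm_real, Real.norm_eq_abs,
      Real.norm_eq_abs, abs_of_pos hB0]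
    refine mul_le_mul_of_nonneg_left ?_ hB0.le
    refine mul_le_mul (Maj_coef M (Maj_v L) h) ?_ (norm_nonneg _) hW0.le
    refine (norm_sum_le _ _).trans ?_
    simp [StSP.norm_e]
  refine ⟨M, a, fun x => B * ∑ j ∈ J, ‖P (x - u j)‖ ^ 2, ?_, ?_, ?_, ?_, ?_, ?_⟩
  · rw [hMr, le_div_iff₀ hδ]
    have h1 : (L : ℝ) * δ ≤ 1 / (2 * κ ^ 2) + δ := by
      have h2 : 1 / (2 * κ ^ 2 * δ) * δ = 1 / (2 * κ ^ 2) := by
        field_simp
      nlinarith
    have h3 : 2 * (1 / (2 * κ ^ 2)) = 1 / κ ^ 2 := by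
      field_simp
    nlinarith
  · intro h
    refine ((hanorm h).trans hnorm).trans ?_
    have h1 : 0 < 1 / κ ^ 2 := by positivity
    nlinarith
  · exact (hanorm 0).trans hnorm
  · intro x
    push_cast
    have h1 : ∀ j ∈ J, ((‖P (x - u j)‖ : ℝ) : ℂ) ^ 2 =
        ∑ h ∈ Icc (-(M : ℤ)) M, (Q h : ℂ) * StSP.e (h * (x - u j)) := by
      intro j _
      have h2 := Maj_exp M (Maj_v L) (x - u j)
      push_cast at h2
      rw [hP]
      simp only
      rw [h2, ← Finset.sum_fiberwise_of_maps_to (t := Icc (-(M : ℤ)) M)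
        (g := fun p : ℕ × ℕ => ((p.1 : ℤ) - (p.2 : ℤ)))]
      · refine Finset.sum_congr rfl fun h _ => ?_
        rw [hQ]
        push_cast
        rw [Finset.sum_mul]
        refine Finset.sum_congr rfl fun p hp => ?_
        rw [mem_filter] at hp
        have h3 : (h : ℝ) = (p.1 : ℝ) - (p.2 : ℝ) := by
          rw [← hp.2]
          push_cast
          rfl
        rw [h3]
      · intro p hp
        rw [mem_product, mem_range, mem_range] at hp
        rw [mem_Icc]
        constructor <;> omega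
    rw [Finset.sum_congr rfl h1, Finset.sum_comm, Finset.mul_sum]
    refine Finset.sum_congr rfl fun h _ => ?_
    rw [ha]
    simp only
    rw [← Finset.mul_sum]
    have h2 : ∀ j ∈ J, StSP.e (h * (x - u j)) = StSP.e (-(h * u j)) * StSP.e (h * x) := by
      intro j _
      rw [← StSP.e_add]
      congr 1
      ring
    rw [Finset.sum_congr rfl h2, ← Finset.sum_mul]
    ring
  · intro x
    exact mul_nonneg hB0.le (Finset.sum_nonneg fun _ _ => sq_nonneg _)
  · intro x hx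
    set y : ℝ := Int.fract x with hy
    have hy0 : 0 ≤ y := Int.fract_nonneg x
    have hPx : ∀ j, P (x - u j) = P (y - u j) := by
      intro j
      have h1 : x - u j = (y - u j) + (⌊x⌋ : ℤ) := by
        have := Int.floor_add_fract x
        rw [hy]
        linarith
      rw [h1]
      exact Maj_shift M (Maj_v L) (y - u j) ⌊x⌋
    have hall : ∑ j ∈ range M, ‖P (y - u j)‖ ^ 2 = M * W := by
      have h1 := Maj_pars M M le_rfl hM0 (Maj_v L) (y + L / M)
      rw [hWdef, ← h1]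
      refine Finset.sum_congr rfl fun j _ => ?_
      have h2 : y - u j = y + L / M - j / M := by
        rw [hu]
        simp only
        field_simp
        ring
      rw [h2]
    have hder : ∑ j ∈ range M, ‖∑ k ∈ range M,
        ((Maj_v L (k + 1) - Maj_v L k : ℝ) : ℂ) * StSP.e (k * (y - u j))‖ ^ 2 = M * M := by
      have h1 := Maj_pars M M le_rfl hM0 (fun k => Maj_v L (k + 1) - Maj_v L k) (y + L / M)
      have h3 : ∑ k ∈ range M, (Maj_v L (k + 1) - Maj_v L k) ^ 2 = M := by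
        rw [Finset.sum_congr rfl fun k _ => Maj_d L k]
        simp
      rw [h3] at h1
      rw [← h1]
      refine Finset.sum_congr rfl fun j _ => ?_
      have h2 : y - u j = y + L / M - j / M := by
        rw [hu]
        simp only
        field_simp
        ring
      rw [h2]
    have hfar : ∀ j ∈ (range M).filter (fun j => ¬ (-s ≤ u j ∧ u j ≤ δ + s)),
        (16 * s ^ 2) * ‖P (y - u j)‖ ^ 2 ≤ ‖∑ k ∈ range M,
          ((Maj_v L (k + 1) - Maj_v L k : ℝ) : ℂ) * StSP.e (k * (y - u j))‖ ^ 2 := by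
      intro j hj
      rw [mem_filter, mem_range] at hj
      obtain ⟨hjM, hjn⟩ := hj
      have hu1 : -(1 / 2) ≤ u j := by
        rw [hu]
        simp only
        rw [le_div_iff₀ hM1, hMr]
        linarith [(Nat.cast_nonneg j : (0 : ℝ) ≤ j)]
      have hu2 : u j ≤ 1 / 2 := by
        rw [hu]
        simp only
        rw [div_le_iff₀ hM1]
        have : (j : ℝ) ≤ M := by exact_mod_cast hjM.le
        rw [hMr] at *
        linarith
      have ht : 4 * s ≤ ‖1 - StSP.e (y - u j)‖ := by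
        apply Maj_far hs0 hs1
        · by_contra hc
          push Not at hc
          rw [abs_lt] at hc
          exact hjn ⟨by linarith, by linarith⟩
        · linarith
        · linarith
      have h1 := congrArg norm (Maj_id L (y - u j))
      rw [norm_mul, norm_mul, StSP.norm_e, one_mul] at h1
      rw [hP]
      simp only
      rw [hM, ← h1]
      have h2 : (0 : ℝ) ≤ ‖∑ k ∈ range (2 * L), (Maj_v L k : ℂ) * StSP.e (k * (y - u j))‖ :=
        norm_nonneg _
      have h3 : (4 * s) ^ 2 ≤ ‖1 - StSP.e (y - u j)‖ ^ 2 :=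
        pow_le_pow_left₀ (by positivity) ht 2
      rw [mul_pow]
      nlinarith [sq_nonneg ‖∑ k ∈ range (2 * L), (Maj_v L k : ℂ) * StSP.e (k * (y - u j))‖]
    have hsplit := Finset.sum_filter_add_sum_filter_not (range M)
      (fun j => -s ≤ u j ∧ u j ≤ δ + s) (fun j => ‖P (y - u j)‖ ^ 2)
    have htail : (16 * s ^ 2) * ∑ j ∈ (range M).filter (fun j => ¬ (-s ≤ u j ∧ u j ≤ δ + s)),
        ‖P (y - u j)‖ ^ 2 ≤ M * M := by
      rw [Finset.mul_sum, ← hder]
      refine (Finset.sum_le_sum hfar).trans ?_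
      exact Finset.sum_le_sum_of_subset_of_nonneg (filter_subset _ _) fun _ _ _ => sq_nonneg _
    rw [hall] at hsplit
    set A1 : ℝ := ∑ j ∈ (range M).filter (fun j => -s ≤ u j ∧ u j ≤ δ + s), ‖P (y - u j)‖ ^ 2
      with hA1
    set A2 : ℝ := ∑ j ∈ (range M).filter (fun j => ¬ (-s ≤ u j ∧ u j ≤ δ + s)),
      ‖P (y - u j)‖ ^ 2 with hA2
    have hA2' : A2 ≤ 2 * κ * (M * W) := by
      -- `16 s² A2 ≤ M²`, `2κ M W ≥ 2κ M L³/3`
      have h1 : (M : ℝ) * M ≤ (16 * s ^ 2) * (2 * κ * (M * W)) := by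
        have h2 : (16 * s ^ 2) * (2 * κ * (M * (L ^ 3 / 3))) ≤ (16 * s ^ 2) * (2 * κ * (M * W)) := by
          have : (0 : ℝ) < 16 * s ^ 2 := by positivity
          apply mul_le_mul_of_nonneg_left _ this.le
          apply mul_le_mul_of_nonneg_left _ (by positivity)
          exact mul_le_mul_of_nonneg_left hW hM1.le
        refine le_trans ?_ h2
        have h3 : (16 * s ^ 2) * (2 * κ * (M * (L ^ 3 / 3))) =
            M * (2 * L) * ((8 / 3) * (L * (2 * κ ^ 2 * δ)) ^ 2 / (2 * κ)) := by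
          rw [hs]
          field_simp
          ring
        rw [h3]
        nth_rewrite 2 [hMr]
        have h4 : 1 ≤ (8 / 3) * (L * (2 * κ ^ 2 * δ)) ^ 2 / (2 * κ) := by
          rw [le_div_iff₀ (by positivity)]
          have : 1 ≤ (L * (2 * κ ^ 2 * δ)) ^ 2 := by
            nlinarith
          nlinarith
        have h5 : (0 : ℝ) < M * (2 * L) := by positivity
        nlinarith
      have h6 : (0 : ℝ) < 16 * s ^ 2 := by positivity
      exact le_of_mul_le_mul_left (htail.trans h1) h6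
    have hJsum : ∑ j ∈ J, ‖P (x - u j)‖ ^ 2 = A1 := by
      rw [hA1, hJ]
      refine Finset.sum_congr rfl fun j _ => ?_
      rw [hPx]
    show 1 ≤ B * ∑ j ∈ J, ‖P (x - u j)‖ ^ 2
    rw [hJsum]
    have h7 : (1 - 2 * κ) * (M * W) ≤ A1 := by linarith
    have h8 : B * ((1 - 2 * κ) * (M * W)) = 1 := by
      rw [hB]
      field_simp
    rw [← h8]
    exact mul_le_mul_of_nonneg_left h7 hB0.le

end Pool.Agent.BLF
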