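import Mathlib
import Pool.Agent.BLF.Stmt

/-!
Module Mass (size 3).  PROOF.  Copy `BernIrr.Data.value_bound` (Pool/Agent/BernIrr/Core5.lean) with the sums over `PS n (deg/2)`, `PS n (deg/4)` replaced by the sums over `D.primeFactors.filter (n % (p-1) ≤ deg/2)` etc. (there: `S2, S3 ⊆ b.primeFactors`, `b = |lc H|`, `b ∣ D`; for `p ≥ 7` in
`S2 ∪ S3` `two_c_le`, for `p` in both `four_c_le`; `p = 3, 5` contribute at most `2 log 3 + 2 log 5 = log 225`), and then `basic_ineq` (Pool/Agent/BernIrr/Det.lean), with `ArchStmt c₀ n₀` from `BernIrr.arch` (Pool/Agent/BernIrr/Arch.lean).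
-/

namespace Pool.Agent.BLF

open Polynomial Finset Pool.Agent.BernIrr Pool.Agent.StSP

/-- the value bound -/
private theorem mass_value {n D κ : ℕ} {T U G H : ℤ[X]} (h : Data n D κ T U) (hT : T = G * H)
    (hs : G.comp (1 - X) = G ∨ G.comp (1 - X) = -G) :
    Real.log |((G.eval 2 : ℤ) : ℝ)| + Real.log |(ev32 G : ℝ)| ≤
      2 * Real.log |(G.leadingCoeff : ℝ)| + 2 * Real.log n + Real.log 225 +
        ∑ p ∈ D.primeFactors.filter (fun p => n % (p - 1) ≤ G.natDegree / 2), Real.log p +
        ∑ p ∈ D.primeFactors.filter (fun p => n % (p - 1) ≤ G.natDegree / 4), Real.log p := by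
  have hge := h.ge
  set a := G.leadingCoeff.natAbs with ha
  have ha0 : 0 < a := h.lc_pos hT
  set b := H.leadingCoeff.natAbs with hb
  set S2 := b.primeFactors.filter (fun p => ¬ p ∣ (H.eval 2).natAbs) with hS2
  set S3 := b.primeFactors.filter (fun p => ¬ p ∣ (ev32 H).natAbs) with hS3
  have hbD : b ∣ D := ⟨a, by rw [← h.lc_mul hT]; ring⟩
  have hDpos := h.Dpos
  have hpD : ∀ p ∈ b.primeFactors, p.Prime ∧ p ∣ D := by
    intro p hp
    rw [Nat.mem_primeFactors] at hp
    exact ⟨hp.1, hp.2.1.trans hbD⟩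
  have hnn : ∀ p : ℕ, 0 ≤ Real.log p := fun p => Real.log_natCast_nonneg p
  have hlogprod : ∀ S : Finset ℕ, S ⊆ b.primeFactors →
      Real.log ((∏ p ∈ S, p : ℕ) : ℝ) = ∑ p ∈ S, Real.log p := by
    intro S hS
    push_cast
    rw [Real.log_prod]
    intro p hp
    exact_mod_cast (hpD p (hS hp)).1.ne_zero
  have hprodpos : ∀ S : Finset ℕ, S ⊆ b.primeFactors → 0 < ∏ p ∈ S, p := by
    intro S hS
    exact Finset.prod_pos fun p hp => (hpD p (hS hp)).1.pos
  have hbound : ∀ (g : ℤ) (S : Finset ℕ), S ⊆ b.primeFactors → g ≠ 0 →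
      g.natAbs ≤ a * n * ∏ p ∈ S, p →
      Real.log |(g : ℝ)| ≤ Real.log a + Real.log n + ∑ p ∈ S, Real.log p := by
    intro g S hS hg0 hg
    rw [← hlogprod S hS]
    have h1 : |(g : ℝ)| = (g.natAbs : ℝ) := by rw [Nat.cast_natAbs]; push_cast; rfl
    have e1 : (a : ℝ) ≠ 0 := by exact_mod_cast ha0.ne'
    have e2 : (n : ℝ) ≠ 0 := by
      have : n ≠ 0 := by omega
      exact_mod_cast this
    have e3 : ((∏ p ∈ S, p : ℕ) : ℝ) ≠ 0 := by exact_mod_cast (hprodpos S hS).ne'
    rw [← Real.log_mul e1 e2, ← Real.log_mul (mul_ne_zero e1 e2) e3, h1]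
    apply Real.log_le_log
    · have : 0 < g.natAbs := Int.natAbs_pos.2 hg0
      exact_mod_cast this
    · exact_mod_cast hg
  have hD0 : (D : ℤ) * n ≠ 0 := by
    have := h.Dpos
    positivity
  have hg2 : G.eval 2 ≠ 0 := by
    intro h0
    have h1 := h.val2
    rw [hT, eval_mul, h0] at h1
    apply hD0
    rw [← h1]; ring
  have hg3 : ev32 G ≠ 0 := by
    intro h0
    have h1 := h.ev32_T
    rw [hT, ev32_mul, h0] at h1
    apply hD0
    rw [← h1]; ring
  have hsub2 : S2 ⊆ b.primeFactors := filter_subset _ _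
  have hsub3 : S3 ⊆ b.primeFactors := filter_subset _ _
  have hA := hbound (G.eval 2) S2 hsub2 hg2 (h.G2_le hT)
  have hB := hbound (ev32 G) S3 hsub3 hg3 (h.G32_le hT)
  have hlca : |(G.leadingCoeff : ℝ)| = (a : ℝ) := by rw [ha, Nat.cast_natAbs]; push_cast; rfl
  rw [hlca]
  -- the sum over primes
  have hsum : ∑ p ∈ S2, Real.log p + ∑ p ∈ S3, Real.log p ≤
      Real.log 225 + ∑ p ∈ D.primeFactors.filter (fun p => n % (p - 1) ≤ G.natDegree / 2), Real.log p +
        ∑ p ∈ D.primeFactors.filter (fun p => n % (p - 1) ≤ G.natDegree / 4), Real.log p := by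
    rw [← sum_union_inter]
    have hsmall : ∀ p ∈ b.primeFactors, ¬ 7 ≤ p → p = 3 ∨ p = 5 := by
      intro p hp h7
      have hpp := (hpD p hp).1
      have h2 := (h.p_facts hpp (hpD p hp).2).1
      have := hpp.two_le
      interval_cases p
      · exact absurd rfl h2
      · left; rfl
      · norm_num at hpp
      · right; rfl
      · norm_num at hpp
    have hstep : ∀ (S : Finset ℕ) (E : ℕ), S ⊆ b.primeFactors →
        (∀ p ∈ S, 7 ≤ p → n % (p - 1) ≤ E) →
        ∑ p ∈ S, Real.log p ≤ Real.log 15 +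
          ∑ p ∈ D.primeFactors.filter (fun p => n % (p - 1) ≤ E), Real.log p := by
      intro S E hS hE
      rw [← sum_filter_add_sum_filter_not S (fun p => ¬ 7 ≤ p)]
      apply add_le_add
      · have : (S.filter (fun p => ¬ 7 ≤ p)) ⊆ {3, 5} := by
          intro p hp
          rw [mem_filter] at hp
          have := hsmall p (hS hp.1) hp.2
          simp only [mem_insert, mem_singleton]
          exact this
        refine (Finset.sum_le_sum_of_subset_of_nonneg this (fun p _ _ => hnn p)).trans ?_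
        rw [sum_pair (by norm_num)]
        push_cast
        rw [← Real.log_mul (by norm_num) (by norm_num)]
        norm_num
      · refine Finset.sum_le_sum_of_subset_of_nonneg ?_ (fun p _ _ => hnn p)
        intro p hp
        rw [mem_filter, not_not] at hp
        have hpb := hS hp.1
        rw [mem_filter, Nat.mem_primeFactors]
        exact ⟨⟨(hpD p hpb).1, (hpD p hpb).2, hDpos.ne'⟩, hE p hp.1 hp.2⟩
    have h1 := hstep (S2 ∪ S3) (G.natDegree / 2) (union_subset hsub2 hsub3) (by
      intro p hp h7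
      have hpb := (union_subset hsub2 hsub3) hp
      have := h.two_c_le hT hs (hpD p hpb).1 h7 (hpD p hpb).2 (by
        rw [mem_union, hS2, hS3, mem_filter, mem_filter] at hp
        rcases hp with hp | hp
        · exact Or.inl hp.2
        · exact Or.inr hp.2)
      omega)
    have h2 := hstep (S2 ∩ S3) (G.natDegree / 4) (inter_subset_left.trans hsub2) (by
      intro p hp h7
      have hpb := (inter_subset_left.trans hsub2) hp
      rw [mem_inter, hS2, hS3, mem_filter, mem_filter] at hp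
      have := h.four_c_le hT hs (hpD p hpb).1 h7 (hpD p hpb).2 hp.1.2 hp.2.2
      omega)
    have h3 : Real.log 225 = Real.log 15 + Real.log 15 := by
      rw [← Real.log_mul (by norm_num) (by norm_num)]; norm_num
    rw [h3]
    linarith
  linarith

theorem mass_holds : MassS := by
  obtain ⟨c₀, hc₀, n₀, hA⟩ := BernIrr.arch
  refine ⟨c₀, hc₀, n₀, ?_⟩
  intro n D κ T U G H h hn hT hs hd hdeg
  have hge := h.ge
  have hn0 : (0 : ℝ) < n := by
    have : 0 < n := by omega
    exact_mod_cast this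
  have hs' : G.comp (1 - X) = G ∨ G.comp (1 - X) = -G := by
    rwa [sg_apply] at hs
  have hq : q3.map (Int.castRingHom ℚ) = X * (X - 1) * (2 * X - 1) := by
    unfold q3; simp
  have heq := h.eq_rat
  rw [hq] at heq
  obtain ⟨h1, h2⟩ := hA n hn h.odd D T G H h.Dodd heq hT hd (h.lc_le hT) hdeg
  have h3 := mass_value h hT hs'
  have hcast : (ev32 G : ℝ) = (2 : ℝ) ^ G.natDegree *
      (G.map (Int.castRingHom ℝ)).eval (3 / 2 : ℝ) := ev32_cast (by norm_num) G
  rw [← hcast] at h2
  have ha : 0 < |(G.leadingCoeff : ℝ)| := by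
    rw [abs_pos]
    exact_mod_cast leadingCoeff_ne_zero.2 (h.G_ne hT)
  have hb : (0 : ℝ) < n / 200 := by positivity
  have hlog : Real.log (((n : ℝ) / 200) ^ G.natDegree * |(G.leadingCoeff : ℝ)|) =
      G.natDegree * (Real.log n - Real.log 200) + Real.log |(G.leadingCoeff : ℝ)| := by
    rw [Real.log_mul (by positivity) ha.ne', Real.log_pow, Real.log_div hn0.ne' (by norm_num)]
  have h4 := Real.log_le_log (by positivity) h1
  have h5 := Real.log_le_log (by positivity) h2
  rw [hlog] at h4 h5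
  linarith

end Pool.Agent.BLF
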