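import Mathlib
import Pool.Agent.BLF.Stmt

/-!
Module Mid (size 4).  From BLK.  PROOF.  `L = log n`, `P1 = ⌊d L/1000⌋`, `P2 = ⌊1000 n/d⌋`.  Cover `(P1, P2]` by blocks `(A_i, A_{i+1}]`, `A_0 = P1`, `A_{i+1} = A_i + ⌊A_i/1000⌋` (`≤ 2 A_i`), until `A_i ≥ P2`:
`A_i ≥ P1 (1.00099)^i` for large `n` (`⌊A/1000⌋ ≥ A/1000 - 1`), so the number of blocks is `I ≤ log(P2/P1)/log(1.00099) + 1`, and `P2/P1 ≤ n^(1/5)` for large `n` (`P2/P1 ≤ 2·10^6 n/(d^2 L)`, `d^2 ≥ n^(4/5)`, `L → ∞`),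
so `I ≤ 0.2 L/0.00098 = 204.1 L` (use `log(1.00099) ≥ 0.00098`).
BLK with `ε = 1/1000`, `D = ⌊n^(99/2000)⌋` (`log D ≥ 0.0494 L` for large `n`; `2 D^2 ≤ 2 n^(0.099) ≤ A`, `4 y ≤ 2 d ≤ A` since `A ≥ d L/1000 - 1`): each block has at most
`1.001 y (1/1000)/(0.0494 L) + C n^(0.099)(√(n/y) + √(A(1+log A)) + A^2/n)` primes, `y ≥ d/5 ≥ n^(2/5)/5`, `A ≤ P2 ≤ 1000 n^(3/5)`: the error is `≤ C' n^(0.099+0.3) (1+L)`, which is `≤ 10^(-6) y/L` for large `n`.
So `#primes ≤ 204.2 L · (0.0202632 + 10^(-6)) y/L ≤ 4.15 y`, `log p ≤ log P2 ≤ 0.6 L + log 1000 ≤ 0.6001 L`: total `≤ 2.4904 y L ≤ (13/5) y L`.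
(4% of room.  Other parameters are fine.)  Note `(n:ℝ)^(2/5) ≤ d` gives `n/d ≤ n^(3/5)`; `d ^ 2 ≤ n` is not needed except for `P1 ≤ P2`.
-/

namespace Pool.Agent.BLF

open Polynomial Finset Pool.Agent.BernIrr Pool.Agent.StSP

private theorem mid_ev (C : ℝ) (hC : 0 < C) : ∃ n₀ : ℕ, ∀ n : ℕ, n₀ ≤ n →
    2000000 ≤ Real.log n ∧ C * 10 ^ 13 * Real.log n ^ 2 ≤ (n : ℝ) ^ (1 / 1000 : ℝ) := by
  have h1 : ∀ᶠ x : ℝ in Filter.atTop, 2000000 ≤ Real.log x :=
    Real.tendsto_log_atTop.eventually_ge_atTop _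
  have h2 := (isLittleO_log_rpow_rpow_atTop (2 : ℝ) (show (0 : ℝ) < 1 / 1000 by norm_num)).bound
    (show 0 < 1 / (C * 10 ^ 13) by positivity)
  have h3 := h1.and h2
  have h4 := (tendsto_natCast_atTop_atTop (R := ℝ)).eventually h3
  rw [Filter.eventually_atTop] at h4
  obtain ⟨n₀, h5⟩ := h4
  refine ⟨n₀, fun n hn => ?_⟩
  obtain ⟨h6, h7⟩ := h5 n hn
  refine ⟨h6, ?_⟩
  rw [Real.norm_of_nonneg (by positivity), Real.norm_of_nonneg (by positivity),
    Real.rpow_two] at h7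
  have hC' : (0 : ℝ) < C * 10 ^ 13 := by positivity
  rw [one_div, ← div_eq_inv_mul, le_div_iff₀ hC'] at h7
  linarith

private theorem mid_ind (Q : ℕ → Prop) [DecidablePred Q] (P1 P2 : ℕ) (β lam : ℝ) (hβ : 0 ≤ β)
    (hlam : 0 < lam) (hP : 1 ≤ P1)
    (hstep : ∀ A, P1 ≤ A → A < P2 → ∃ B, A < B ∧ lam ≤ Real.log ((B : ℝ) / A) ∧
      (((Ioc A B).filter Q).card : ℝ) ≤ β) :
    ∀ k A : ℕ, P2 - A ≤ k → P1 ≤ A → A ≤ P2 →
      (((Ioc A P2).filter Q).card : ℝ) ≤ β * (Real.log ((P2 : ℝ) / A) / lam + 1) := by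
  intro k
  induction k with
  | zero =>
    intro A h1 h2 h3
    have h4 : A = P2 := by omega
    subst h4
    have hA : (A : ℝ) ≠ 0 := by
      have : A ≠ 0 := by omega
      exact_mod_cast this
    rw [Ioc_self, filter_empty, card_empty, div_self hA, Real.log_one]
    simpa using hβ
  | succ k ih =>
    intro A h1 h2 h3
    have hA : (0 : ℝ) < A := by
      have : 0 < A := by omega
      exact_mod_cast this
    have hlog : 0 ≤ Real.log ((P2 : ℝ) / A) := by
      apply Real.log_nonneg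
      rw [le_div_iff₀ hA, one_mul]
      exact_mod_cast h3
    rcases Nat.eq_or_lt_of_le h3 with h4 | h4
    · subst h4
      rw [Ioc_self, filter_empty, card_empty, Nat.cast_zero]
      exact mul_nonneg hβ (add_nonneg (div_nonneg hlog hlam.le) zero_le_one)
    · obtain ⟨B, hAB, hl, hc⟩ := hstep A h2 h4
      rcases Nat.lt_or_ge B P2 with h5 | h5
      · have hB : (0 : ℝ) < B := by
          have : 0 < B := by omega
          exact_mod_cast this
        have h6 := ih B (by omega) (by omega) h5.le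
        have h7 : (((Ioc A P2).filter Q).card : ℝ) ≤
            ((Ioc A B).filter Q).card + ((Ioc B P2).filter Q).card := by
          have h8 : (Ioc A P2).filter Q ⊆ (Ioc A B).filter Q ∪ (Ioc B P2).filter Q := by
            intro p hp
            rw [mem_filter, mem_Ioc] at hp
            rw [mem_union, mem_filter, mem_filter, mem_Ioc, mem_Ioc]
            rcases Nat.lt_or_ge B p with h9 | h9
            · exact Or.inr ⟨⟨h9, hp.1.2⟩, hp.2⟩
            · exact Or.inl ⟨⟨hp.1.1, h9⟩, hp.2⟩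
          exact_mod_cast (card_le_card h8).trans (card_union_le _ _)
        have h8 : Real.log ((P2 : ℝ) / B) = Real.log ((P2 : ℝ) / A) - Real.log ((B : ℝ) / A) := by
          have hP2 : (0 : ℝ) < P2 := by
            have : 0 < P2 := by omega
            exact_mod_cast this
          rw [Real.log_div hP2.ne' hB.ne', Real.log_div hP2.ne' hA.ne', Real.log_div hB.ne' hA.ne']
          ring
        have h9 : Real.log ((P2 : ℝ) / B) / lam + 1 ≤ Real.log ((P2 : ℝ) / A) / lam := by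
          rw [h8, sub_div]
          have : 1 ≤ Real.log ((B : ℝ) / A) / lam := by
            rw [le_div_iff₀ hlam, one_mul]
            exact hl
          linarith
        have h10 : β * (Real.log ((P2 : ℝ) / B) / lam + 1) ≤ β * (Real.log ((P2 : ℝ) / A) / lam) :=
          mul_le_mul_of_nonneg_left h9 hβ
        linarith
      · have h8 : (Ioc A P2).filter Q ⊆ (Ioc A B).filter Q := by
          intro p hp
          rw [mem_filter, mem_Ioc] at hp ⊢
          exact ⟨⟨hp.1.1, hp.1.2.trans h5⟩, hp.2⟩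
        have h9 : (((Ioc A P2).filter Q).card : ℝ) ≤ ((Ioc A B).filter Q).card := by
          exact_mod_cast card_le_card h8
        have h10 : 0 ≤ β * (Real.log ((P2 : ℝ) / A) / lam) :=
          mul_nonneg hβ (div_nonneg hlog hlam.le)
        linarith

theorem mid_holds (h : BlkS) : MidS := by
  obtain ⟨C, hC, hblk⟩ := h (1 / 1000) (by norm_num)
  obtain ⟨n₀, hn₀⟩ := mid_ev C hC
  refine ⟨n₀ + 3, fun n hn d y hd1 hd2 hy1 hy2 => ?_⟩
  obtain ⟨hL, hE⟩ := hn₀ n (by omega)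
  set x : ℝ := (n : ℝ) with hx
  set L : ℝ := Real.log x with hLdef
  have hx1 : (3 : ℝ) ≤ x := by rw [hx]; exact_mod_cast (by omega : 3 ≤ n)
  have hx0 : 0 < x := by linarith
  have hL0 : 0 < L := by linarith
  -- powers of x
  have hxpow : ∀ s : ℝ, x ^ s = Real.exp (L * s) := fun s => Real.rpow_def_of_pos hx0 s
  have hbig : (1000 : ℝ) ≤ x ^ (2 / 5 : ℝ) := by
    rw [hxpow]
    have := Real.add_one_le_exp (L * (2 / 5))
    linarith
  have hd0 : (1000 : ℝ) ≤ d := hbig.trans hd1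
  have hdpos : (0 : ℝ) < d := by linarith
  have hy0 : (200 : ℝ) ≤ y := by
    have : (d : ℝ) ≤ 5 * y := by exact_mod_cast hy1
    linarith
  have hypos : (0 : ℝ) < y := by linarith
  have hy1' : 1 ≤ y := by
    have : (1 : ℝ) ≤ y := by linarith
    exact_mod_cast this
  set P1 : ℕ := ⌊(d : ℝ) * L / 1000⌋₊ with hP1
  set P2 : ℕ := ⌊1000 * x / d⌋₊ with hP2
  -- lower bound for P1
  have hP1l : (d : ℝ) * L / 2000 ≤ P1 := by
    have h1 := Nat.lt_floor_add_one ((d : ℝ) * L / 1000)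
    rw [← hP1] at h1
    have h2 : (2000 : ℝ) ≤ d * L := by nlinarith
    linarith
  have hP1d : 1000 * (d : ℝ) ≤ P1 := by nlinarith
  have hP1pos : (0 : ℝ) < P1 := by linarith
  have hP11 : 1 ≤ P1 := by
    have : (0 : ℝ) < P1 := hP1pos
    exact_mod_cast this
  -- upper bound for P2
  have hd35 : x / d ≤ x ^ (3 / 5 : ℝ) := by
    rw [div_le_iff₀ hdpos]
    have h1 : x ^ (3 / 5 : ℝ) * x ^ (2 / 5 : ℝ) = x := by
      rw [← Real.rpow_add hx0]
      norm_num
    have h2 : (0 : ℝ) < x ^ (3 / 5 : ℝ) := Real.rpow_pos_of_pos hx0 _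
    nlinarith
  have hP2u : (P2 : ℝ) ≤ 1000 * x ^ (3 / 5 : ℝ) := by
    have h1 : (P2 : ℝ) ≤ 1000 * x / d := Nat.floor_le (by positivity)
    rw [mul_div_assoc] at h1
    linarith
  rcases Nat.lt_or_ge P2 P1 with hlt | hle
  · rw [Ioc_eq_empty_of_le hlt.le, filter_empty, sum_empty]
    positivity
  have hP2pos : (0 : ℝ) < P2 := by
    have : (P1 : ℝ) ≤ P2 := by exact_mod_cast hle
    linarith
  -- logarithm of P2
  have hlog1000 : Real.log 1000 ≤ 7 := by
    rw [Real.log_le_iff_le_exp (by norm_num)]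
    have h1 : (2.7182818283 : ℝ) < Real.exp 1 := Real.exp_one_gt_d9
    have h2 : Real.exp 7 = (Real.exp 1) ^ 7 := by
      rw [← Real.exp_nat_mul]; norm_num
    rw [h2]
    calc (1000 : ℝ) ≤ (2.7182818283 : ℝ) ^ 7 := by norm_num
      _ ≤ _ := pow_le_pow_left₀ (by norm_num) h1.le 7
  have hlogP2 : Real.log P2 ≤ 6001 / 10000 * L := by
    have h1 : Real.log P2 ≤ Real.log (1000 * x ^ (3 / 5 : ℝ)) := Real.log_le_log hP2pos hP2u
    rw [Real.log_mul (by norm_num) (Real.rpow_pos_of_pos hx0 _).ne', Real.log_rpow hx0,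
      ← hLdef] at h1
    linarith
  -- ratio
  have hratio : Real.log ((P2 : ℝ) / P1) ≤ 1 / 5 * L := by
    have h1 : (P2 : ℝ) / P1 ≤ x ^ (1 / 5 : ℝ) := by
      rw [div_le_iff₀ hP1pos]
      have h2 : (P2 : ℝ) ≤ 1000 * x / d := Nat.floor_le (by positivity)
      have h3 : x ^ (1 / 5 : ℝ) * ((d : ℝ) * L / 2000) ≤ x ^ (1 / 5 : ℝ) * P1 :=
        mul_le_mul_of_nonneg_left hP1l (Real.rpow_nonneg hx0.le _)
      have h4 : 1000 * x / d ≤ x ^ (1 / 5 : ℝ) * ((d : ℝ) * L / 2000) := by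
        rw [div_le_iff₀ hdpos]
        have h5 : x ^ (1 / 5 : ℝ) * x ^ (2 / 5 : ℝ) * x ^ (2 / 5 : ℝ) = x := by
          rw [← Real.rpow_add hx0, ← Real.rpow_add hx0]
          norm_num
        have h6 : (0 : ℝ) < x ^ (1 / 5 : ℝ) := Real.rpow_pos_of_pos hx0 _
        have h7 : (0 : ℝ) < x ^ (2 / 5 : ℝ) := Real.rpow_pos_of_pos hx0 _
        have h8 : x ^ (2 / 5 : ℝ) * x ^ (2 / 5 : ℝ) ≤ (d : ℝ) * d :=
          mul_le_mul hd1 hd1 h7.le hdpos.le
        have h9 : x ≤ x ^ (1 / 5 : ℝ) * ((d : ℝ) * d) := by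
          calc x = x ^ (1 / 5 : ℝ) * (x ^ (2 / 5 : ℝ) * x ^ (2 / 5 : ℝ)) := by
                rw [← mul_assoc]; exact h5.symm
            _ ≤ _ := mul_le_mul_of_nonneg_left h8 h6.le
        have h10 : 1000 * (x ^ (1 / 5 : ℝ) * ((d : ℝ) * d)) ≤
            (L / 2000) * (x ^ (1 / 5 : ℝ) * ((d : ℝ) * d)) := by
          apply mul_le_mul_of_nonneg_right _ (by positivity)
          linarith
        have h11 : x ^ (1 / 5 : ℝ) * ((d : ℝ) * L / 2000) * d =
            (L / 2000) * (x ^ (1 / 5 : ℝ) * ((d : ℝ) * d)) := by ring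
        rw [h11]
        linarith
      linarith
    have h2 := Real.log_le_log (div_pos hP2pos hP1pos) h1
    rw [Real.log_rpow hx0, ← hLdef] at h2
    exact h2
  -- the sieve level
  set D : ℕ := ⌊x ^ (99 / 2000 : ℝ)⌋₊ with hD
  have hDu : (D : ℝ) ≤ x ^ (99 / 2000 : ℝ) := Nat.floor_le (Real.rpow_nonneg hx0.le _)
  have hDl : x ^ (494 / 10000 : ℝ) ≤ D := by
    have h1 := Nat.lt_floor_add_one (x ^ (99 / 2000 : ℝ))
    rw [← hD] at h1
    have h2 : x ^ (99 / 2000 : ℝ) = x ^ (494 / 10000 : ℝ) * x ^ (1 / 10000 : ℝ) := by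
      rw [← Real.rpow_add hx0]
      norm_num
    have h3 : (2 : ℝ) ≤ x ^ (1 / 10000 : ℝ) := by
      rw [hxpow]
      have := Real.add_one_le_exp (L * (1 / 10000))
      linarith
    have h4 : (1 : ℝ) ≤ x ^ (494 / 10000 : ℝ) := Real.one_le_rpow (by linarith) (by norm_num)
    nlinarith
  have hDbig : (2 : ℝ) ≤ D := by
    refine le_trans ?_ hDl
    rw [hxpow]
    have := Real.add_one_le_exp (L * (494 / 10000))
    linarith
  have hD2 : 2 ≤ D := by exact_mod_cast hDbig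
  have hlogD : 494 / 10000 * L ≤ Real.log D := by
    have h1 := Real.log_le_log (Real.rpow_pos_of_pos hx0 _) hDl
    rw [Real.log_rpow hx0, ← hLdef] at h1
    exact h1
  have hDsq : (D : ℝ) ^ 2 ≤ x ^ (99 / 1000 : ℝ) := by
    have h1 : (D : ℝ) ^ 2 ≤ (x ^ (99 / 2000 : ℝ)) ^ 2 :=
      pow_le_pow_left₀ (by linarith) hDu 2
    have h2 : (x ^ (99 / 2000 : ℝ)) ^ 2 = x ^ (99 / 1000 : ℝ) := by
      rw [← Real.rpow_natCast, ← Real.rpow_mul hx0.le]
      norm_num
    rwa [h2] at h1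
  have hDA : (D : ℝ) ^ 2 ≤ x ^ (2 / 5 : ℝ) :=
    hDsq.trans (Real.rpow_le_rpow_of_exponent_le (by linarith) (by norm_num))
  -- error term
  have hylow : x ^ (2 / 5 : ℝ) / 5 ≤ y := by
    have : (d : ℝ) ≤ 5 * y := by exact_mod_cast hy1
    linarith
  have herr : ∀ A : ℕ, P1 ≤ A → A < P2 →
      C * (D : ℝ) ^ 2 * (√(x / y) + √(A * (1 + Real.log A)) + (A : ℝ) ^ 2 / x) ≤
        y / (1000000 * L) := by
    intro A hA1 hA2
    have hA1' : (P1 : ℝ) ≤ A := by exact_mod_cast hA1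
    have hA0 : (0 : ℝ) < A := by linarith
    have hA2' : (A : ℝ) ≤ P2 := by exact_mod_cast hA2.le
    have hAu : (A : ℝ) ≤ 1000 * x ^ (3 / 5 : ℝ) := hA2'.trans hP2u
    have hx3 : (0 : ℝ) < x ^ (3 / 10 : ℝ) := Real.rpow_pos_of_pos hx0 _
    have hx33 : x ^ (3 / 10 : ℝ) * x ^ (3 / 10 : ℝ) = x ^ (3 / 5 : ℝ) := by
      rw [← Real.rpow_add hx0]; norm_num
    have e1 : √(x / y) ≤ 3 * x ^ (3 / 10 : ℝ) := by
      apply Real.sqrt_le_iff.mpr
      refine ⟨by positivity, ?_⟩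
      rw [div_le_iff₀ hypos]
      have h1 : x ^ (3 / 5 : ℝ) * x ^ (2 / 5 : ℝ) = x := by
        rw [← Real.rpow_add hx0]
        norm_num
      have h2 : (3 * x ^ (3 / 10 : ℝ)) ^ 2 = 9 * x ^ (3 / 5 : ℝ) := by
        rw [← hx33]; ring
      rw [h2]
      have h3 : (0 : ℝ) < x ^ (3 / 5 : ℝ) := Real.rpow_pos_of_pos hx0 _
      nlinarith
    have hlogA : 1 + Real.log A ≤ L := by
      have := Real.log_le_log hA0 hA2'
      linarith
    have hlogA0 : 0 ≤ 1 + Real.log A := by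
      have : 0 ≤ Real.log (A : ℝ) := Real.log_natCast_nonneg A
      linarith
    have e2 : √(A * (1 + Real.log A)) ≤ 32 * L * x ^ (3 / 10 : ℝ) := by
      apply Real.sqrt_le_iff.mpr
      refine ⟨by positivity, ?_⟩
      have h1 : (A : ℝ) * (1 + Real.log A) ≤ (1000 * x ^ (3 / 5 : ℝ)) * L :=
        mul_le_mul hAu hlogA hlogA0 (by positivity)
      have h2 : (32 * L * x ^ (3 / 10 : ℝ)) ^ 2 = 1024 * L ^ 2 * x ^ (3 / 5 : ℝ) := by
        rw [← hx33]; ring
      rw [h2]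
      have h3 : (0 : ℝ) < x ^ (3 / 5 : ℝ) := Real.rpow_pos_of_pos hx0 _
      have h4 : 1000 * L ≤ 1024 * L ^ 2 := by nlinarith
      have h5 := mul_le_mul_of_nonneg_right h4 h3.le
      linarith
    have e3 : (A : ℝ) ^ 2 / x ≤ 1000000 * x ^ (3 / 10 : ℝ) := by
      rw [div_le_iff₀ hx0]
      have h1 : (A : ℝ) ^ 2 ≤ (1000 * x ^ (3 / 5 : ℝ)) ^ 2 := pow_le_pow_left₀ hA0.le hAu 2
      have h2 : (1000 * x ^ (3 / 5 : ℝ)) ^ 2 = 1000000 * (x ^ (3 / 5 : ℝ) * x ^ (3 / 5 : ℝ)) := by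
        ring
      have h3 : x ^ (3 / 5 : ℝ) * x ^ (3 / 5 : ℝ) ≤ x ^ (3 / 10 : ℝ) * x := by
        rw [← Real.rpow_add hx0, ← Real.rpow_add_one hx0.ne']
        exact Real.rpow_le_rpow_of_exponent_le (by linarith) (by norm_num)
      rw [h2] at h1
      nlinarith
    have e4 : √(x / y) + √(A * (1 + Real.log A)) + (A : ℝ) ^ 2 / x ≤
        33 * L * x ^ (3 / 10 : ℝ) := by
      have : (3 + 1000000) * x ^ (3 / 10 : ℝ) ≤ L * x ^ (3 / 10 : ℝ) :=
        mul_le_mul_of_nonneg_right (by linarith) hx3.le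
      linarith
    have e5 : C * (D : ℝ) ^ 2 * (√(x / y) + √(A * (1 + Real.log A)) + (A : ℝ) ^ 2 / x) ≤
        C * x ^ (99 / 1000 : ℝ) * (33 * L * x ^ (3 / 10 : ℝ)) := by
      apply mul_le_mul _ e4 (by positivity) (by positivity)
      exact mul_le_mul_of_nonneg_left hDsq hC.le
    refine e5.trans ?_
    rw [le_div_iff₀ (by positivity)]
    have h6 : x ^ (99 / 1000 : ℝ) * x ^ (3 / 10 : ℝ) * x ^ (1 / 1000 : ℝ) = x ^ (2 / 5 : ℝ) := by
      rw [← Real.rpow_add hx0, ← Real.rpow_add hx0]; norm_num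
    set a := x ^ (99 / 1000 : ℝ) * x ^ (3 / 10 : ℝ) with ha
    have ha0 : 0 < a := by positivity
    have h7 : a * (C * 10 ^ 13 * L ^ 2) ≤ x ^ (2 / 5 : ℝ) := by
      rw [← h6]
      exact mul_le_mul_of_nonneg_left hE ha0.le
    have h8 : C * x ^ (99 / 1000 : ℝ) * (33 * L * x ^ (3 / 10 : ℝ)) * (1000000 * L) =
        33000000 * (a * (C * L ^ 2)) := by rw [ha]; ring
    rw [h8]
    have h9 : 0 ≤ a * (C * L ^ 2) := by positivity
    have h10 : a * (C * 10 ^ 13 * L ^ 2) = 10 ^ 13 * (a * (C * L ^ 2)) := by ring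
    rw [h10] at h7
    linarith
  -- the blocks
  set β : ℝ := 203 / 10000 * y / L with hβdef
  have hβ : 0 ≤ β := by positivity
  have hstep : ∀ A, P1 ≤ A → A < P2 → ∃ B, A < B ∧ (98 / 100000 : ℝ) ≤ Real.log ((B : ℝ) / A) ∧
      (((Ioc A B).filter (fun p => p.Prime ∧ n % (p - 1) ≤ y)).card : ℝ) ≤ β := by
    intro A hA1 hA2
    have hA1' : (P1 : ℝ) ≤ A := by exact_mod_cast hA1
    have hAbig : (1000000 : ℝ) ≤ A := by linarith
    have hA0 : (0 : ℝ) < A := by linarith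
    have hAbigN : 1000000 ≤ A := by exact_mod_cast hAbig
    refine ⟨A + A / 1000, by omega, ?_, ?_⟩
    · have h1 : (1 : ℝ) + 99 / 100000 ≤ ((A + A / 1000 : ℕ) : ℝ) / A := by
        rw [le_div_iff₀ hA0]
        have h2 : A < 1000 * (A / 1000) + 1000 := by omega
        have h3 : (A : ℝ) < 1000 * ((A / 1000 : ℕ) : ℝ) + 1000 := by exact_mod_cast h2
        push_cast [Nat.cast_add]
        linarith
      have h2 : (0 : ℝ) < ((A + A / 1000 : ℕ) : ℝ) / A := by linarith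
      have h3 := Real.log_le_log (by norm_num) h1
      have h4 := Real.one_sub_inv_le_log_of_pos (show (0 : ℝ) < 1 + 99 / 100000 by norm_num)
      have h5 : (98 / 100000 : ℝ) ≤ 1 - (1 + 99 / 100000)⁻¹ := by norm_num
      linarith
    · have h4y : 4 * y ≤ A := by
        have : (2 : ℝ) * y ≤ d := by exact_mod_cast hy2
        have : (4 : ℝ) * y ≤ A := by linarith
        exact_mod_cast this
      have h2D : 2 * D ^ 2 ≤ A := by
        have : (2 : ℝ) * D ^ 2 ≤ A := by linarith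
        exact_mod_cast this
      have h1 := hblk n A (A + A / 1000) y D (by omega) hy1' h4y (by omega) (by omega) hD2 h2D
      refine h1.trans ?_
      have h2 := herr A hA1 hA2
      have h3 : (1 + 1 / 1000) * (y : ℝ) * (((A + A / 1000 : ℕ) : ℝ) - A) / (A * Real.log D) ≤
          (1001 / 1000) * y * (1 / 1000) / (494 / 10000 * L) := by
        have h4 : ((A + A / 1000 : ℕ) : ℝ) - A ≤ 1 / 1000 * A := by
          have h5 : 1000 * (A / 1000) ≤ A := by omega
          have h6 : 1000 * ((A / 1000 : ℕ) : ℝ) ≤ A := by exact_mod_cast h5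
          push_cast [Nat.cast_add]
          push_cast at h6
          linarith
        have hlogD0 : 0 < Real.log D := by
          have : 0 < 494 / 10000 * L := by positivity
          linarith
        have h5 : (1 + 1 / 1000) * (y : ℝ) * (((A + A / 1000 : ℕ) : ℝ) - A) / (A * Real.log D) ≤
            (1 + 1 / 1000) * (y : ℝ) * (1 / 1000 * A) / (A * Real.log D) := by
          apply div_le_div_of_nonneg_right _ (by positivity)
          exact mul_le_mul_of_nonneg_left h4 (by positivity)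
        refine h5.trans ?_
        have h6 : (1 + 1 / 1000) * (y : ℝ) * (1 / 1000 * A) / (A * Real.log D) =
            (1001 / 1000) * y * (1 / 1000) / Real.log D := by
          field_simp
          ring
        rw [h6]
        exact div_le_div_of_nonneg_left (by positivity) (by positivity) hlogD
      have h7 : (1001 / 1000) * (y : ℝ) * (1 / 1000) / (494 / 10000 * L) + y / (1000000 * L) ≤ β := by
        have h8 : (1001 / 1000) * (y : ℝ) * (1 / 1000) / (494 / 10000 * L) + y / (1000000 * L) =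
            (1001 / 1000 * (1 / 1000) / (494 / 10000) + 1 / 1000000) * (y / L) := by
          field_simp
        have h9 : β = 203 / 10000 * (y / L) := by rw [hβdef]; ring
        rw [h8, h9]
        apply mul_le_mul_of_nonneg_right _ (by positivity)
        norm_num
      linarith
  have hcount := mid_ind (fun p => p.Prime ∧ n % (p - 1) ≤ y) P1 P2 β (98 / 100000) hβ
    (by norm_num) hP11 hstep (P2 - P1) P1 le_rfl le_rfl hle
  -- conclusion
  have hsum : ∑ p ∈ (Ioc P1 P2).filter (fun p => p.Prime ∧ n % (p - 1) ≤ y), Real.log p ≤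
      (((Ioc P1 P2).filter (fun p => p.Prime ∧ n % (p - 1) ≤ y)).card : ℝ) * Real.log P2 := by
    rw [← nsmul_eq_mul]
    apply sum_le_card_nsmul
    intro p hp
    rw [mem_filter, mem_Ioc] at hp
    apply Real.log_le_log
    · have : 0 < p := by omega
      exact_mod_cast this
    · exact_mod_cast hp.1.2
  refine hsum.trans ?_
  have hlogP20 : 0 ≤ Real.log P2 := Real.log_natCast_nonneg P2
  have hN : (((Ioc P1 P2).filter (fun p => p.Prime ∧ n % (p - 1) ≤ y)).card : ℝ) ≤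
      β * (205 * L) := by
    refine hcount.trans (mul_le_mul_of_nonneg_left ?_ hβ)
    have h1 : Real.log ((P2 : ℝ) / P1) / (98 / 100000) ≤ (1 / 5 * L) / (98 / 100000) :=
      div_le_div_of_nonneg_right hratio (by norm_num)
    linarith
  have hβL : β * (205 * L) = 203 / 10000 * 205 * y := by
    rw [hβdef]
    field_simp
  rw [hβL] at hN
  calc (((Ioc P1 P2).filter (fun p => p.Prime ∧ n % (p - 1) ≤ y)).card : ℝ) * Real.log P2
      ≤ (203 / 10000 * 205 * y) * (6001 / 10000 * L) :=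
        mul_le_mul hN hlogP2 hlogP20 (by positivity)
    _ ≤ 13 / 5 * y * L := by
        have : 0 ≤ (y : ℝ) * L := by positivity
        nlinarith

end Pool.Agent.BLF
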