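import Mathlib
import Pool.Agent.BLF.Stmt

/-!
Module Near (size 3).  From UNIQ, PROD.  PROOF.  `Tc = T.map ℂ`, a factor of `(BC n)` up to constants (`Data.eq_rat`: `2 D B_n = q3 T`), so `Tc.roots ≤ (BC n).roots` as multisets.  If no root of `Tc` were within `1/4` of `2`, PROD with `s = Tc.roots`, card `n - 3` (`Data.deg`), gives
`log |T(2)| = log D + log ∏ ≥ ((n-3)/2) log (n-3) - C (n-3) + log D` (`BernIrr.norm_eval_eq`), but `3 T(2) = D n` (`Data.val2`), so `∏ = n/3`: contradiction for large `n`.  So there is a root `ρ`, `‖2-ρ‖ < 1/4`.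
For such a root `a`: `BernIrr.near_half` gives `‖a - j/2‖ ≤ exp(-n/2)`, so `|j/2 - 2| < 1/2` and `j = 4`; two such roots are within `2 exp(-n/2) ≤ 1/8`, hence equal by UNIQ.  `rootMultiplicity ρ Tc ≤ rootMultiplicity ρ (BC n) = 1` (UNIQ) and `≥ 1`.
-/

namespace Pool.Agent.BLF

open Polynomial Finset Pool.Agent.BernIrr Pool.Agent.StSP

theorem near_holds (h1 : UniqS) (h2 : ProdS) : NearS := by
  obtain ⟨n₁, h1⟩ := h1
  obtain ⟨C₀, n₂, hC₀, h2⟩ := h2
  obtain ⟨M, hM⟩ := exists_nat_gt (Real.exp (2 * C₀ + 2))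
  refine ⟨max (max n₁ n₂) (M + 600), ?_⟩
  intro n D κ T U h hn
  have hn1 : n₁ ≤ n := (le_max_left _ _).trans ((le_max_left _ _).trans hn)
  have hn2 : n₂ ≤ n := (le_max_right _ _).trans ((le_max_left _ _).trans hn)
  have hnM : M + 600 ≤ n := (le_max_right _ _).trans hn
  have hn600 : (600 : ℝ) ≤ n := by
    have : 600 ≤ n := by omega
    exact_mod_cast this
  set Tc : ℂ[X] := T.map (Int.castRingHom ℂ) with hTc
  have hinj : Function.Injective (Int.castRingHom ℂ) := RingHom.injective_int _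
  have hT0 : T ≠ 0 := h.prim.ne_zero
  have hTc0 : Tc ≠ 0 := (Polynomial.map_ne_zero_iff hinj).2 hT0
  have hDC : (2 * (D : ℂ)) ≠ 0 := by
    have : (D : ℂ) ≠ 0 := by exact_mod_cast h.Dpos.ne'
    exact mul_ne_zero two_ne_zero this
  have heq : C (2 * (D : ℂ)) * BC n = q3.map (Int.castRingHom ℂ) * Tc := by
    have := congrArg (Polynomial.map (algebraMap ℚ ℂ)) h.eq_rat
    rw [Polynomial.map_mul, Polynomial.map_mul, Polynomial.map_C, Polynomial.map_map,
      Polynomial.map_map] at this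
    have e1 : (algebraMap ℚ ℂ).comp (Int.castRingHom ℚ) = Int.castRingHom ℂ :=
      RingHom.ext_int _ _
    rw [e1] at this
    have e2 : (algebraMap ℚ ℂ) (2 * (D : ℚ)) = 2 * (D : ℂ) := by
      rw [map_mul, map_ofNat, map_natCast]
    rw [e2] at this
    exact this
  have hB0 : BC n ≠ 0 := by
    intro h0
    rw [h0, mul_zero] at heq
    rcases mul_eq_zero.1 heq.symm with h3 | h3
    · exact (Polynomial.map_ne_zero_iff hinj).2 q3_primitive.ne_zero h3
    · exact hTc0 h3
  have hle : Tc.roots ≤ (BC n).roots := by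
    have h3 : Tc ∣ C (2 * (D : ℂ)) * BC n := ⟨q3.map (Int.castRingHom ℂ), by rw [heq]; ring⟩
    have h4 := Polynomial.roots.le_of_dvd (mul_ne_zero (C_ne_zero.2 hDC) hB0) h3
    rwa [Polynomial.roots_C_mul _ hDC] at h4
  have hroot : ∀ a : ℂ, Tc.IsRoot a → (BC n).IsRoot a := by
    intro a ha
    have : a ∈ (BC n).roots := Multiset.mem_of_le hle ((Polynomial.mem_roots hTc0).2 ha)
    exact (Polynomial.mem_roots hB0).1 this
  have hcard : Multiset.card Tc.roots = n - 3 := by
    rw [← (IsAlgClosed.splits Tc).natDegree_eq_card_roots, hTc,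
      Polynomial.natDegree_map_eq_of_injective hinj, h.deg]
  -- roots near 2
  have hclose : ∀ a : ℂ, Tc.IsRoot a → ‖2 - a‖ < 1 / 4 → ‖a - 2‖ ≤ 1 / 16 ∧ ‖a‖ ≤ n / 200 := by
    intro a ha ha2
    have hna : ‖a‖ ≤ 9 / 4 := by
      have h3 : a = 2 - (2 - a) := by ring
      rw [h3]
      refine (norm_sub_le _ _).trans ?_
      have h4 : ‖(2 : ℂ)‖ = 2 := by simp
      rw [h4]
      linarith
    have hexp : Real.exp (-(n : ℝ) / 2) ≤ 1 / 16 := by
      have h3 : Real.exp (-(n : ℝ) / 2) = (Real.exp ((n : ℝ) / 2))⁻¹ := by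
        rw [← Real.exp_neg]; congr 1; ring
      rw [h3, one_div]
      apply inv_anti₀ (by norm_num)
      have := Real.add_one_le_exp ((n : ℝ) / 2)
      linarith
    obtain ⟨j, hj⟩ := near_half h.odd a (by linarith) (hroot a ha)
    have h3 : ‖((j : ℂ) / 2 - 2)‖ < 1 / 2 := by
      have h4 : (j : ℂ) / 2 - 2 = -(a - j / 2) - (2 - a) := by ring
      rw [h4]
      refine lt_of_le_of_lt (norm_sub_le _ _) ?_
      rw [norm_neg]
      linarith
    have h5 : j = 4 := by
      have h6 : ((j : ℂ) / 2 - 2) = (((j : ℝ) / 2 - 2 : ℝ) : ℂ) := by push_cast; ring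
      rw [h6, Complex.norm_real, Real.norm_eq_abs, abs_lt] at h3
      have h7 : (3 : ℝ) < j := by linarith [h3.1]
      have h8 : (j : ℝ) < 5 := by linarith [h3.2]
      have h9 : 3 < j := by exact_mod_cast h7
      have h10 : j < 5 := by exact_mod_cast h8
      omega
    rw [h5] at hj
    refine ⟨?_, by linarith⟩
    have h6 : a - ((4 : ℤ) : ℂ) / 2 = a - 2 := by push_cast; ring
    rw [h6] at hj
    exact hj.trans hexp
  -- existence
  have hex : ∃ ρ : ℂ, Tc.IsRoot ρ ∧ ‖2 - ρ‖ < 1 / 4 := by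
    by_contra hcon
    push Not at hcon
    have h3 := h2 n hn2 h.odd Tc.roots hle (fun a ha => hcon a ((Polynomial.mem_roots hTc0).1 ha))
    have hev : ‖Tc.eval 2‖ = (D : ℝ) * (Tc.roots.map (fun a => ‖2 - a‖)).prod := by
      rw [norm_eval_eq]
      congr 1
      rw [hTc, Polynomial.leadingCoeff_map_of_injective hinj, h.lc]
      simp
    have hev2 : 3 * ‖Tc.eval 2‖ = (D : ℝ) * n := by
      have h4 : Tc.eval 2 = ((T.eval 2 : ℤ) : ℂ) := by
        have := Polynomial.eval_intCast_map (Int.castRingHom ℂ) T 2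
        simpa using this
      have h5 := congrArg (fun z : ℤ => (z : ℂ)) h.val2
      push_cast at h5
      have h6 : (3 : ℂ) * Tc.eval 2 = (D : ℂ) * n := by rw [h4]; exact h5
      have h7 := congrArg norm h6
      rw [norm_mul, norm_mul, Complex.norm_natCast, Complex.norm_natCast] at h7
      simpa using h7
    have hDpos : (0 : ℝ) < D := by exact_mod_cast h.Dpos
    have hprod : (Tc.roots.map (fun a => ‖2 - a‖)).prod = n / 3 := by
      rw [hev] at hev2
      have h4 : (D : ℝ) * (3 * (Tc.roots.map (fun a => ‖2 - a‖)).prod) = D * n := by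
        linarith
      have h5 := mul_left_cancel₀ hDpos.ne' h4
      linarith
    rw [hprod, hcard] at h3
    set m : ℝ := ((n - 3 : ℕ) : ℝ) with hm
    have hmn : m = n - 3 := by
      rw [hm, Nat.cast_sub (by omega)]
      norm_num
    have hmM : Real.exp (2 * C₀ + 2) < m := by
      rw [hmn]
      have h4 : ((M + 600 : ℕ) : ℝ) ≤ n := by exact_mod_cast hnM
      push_cast at h4
      linarith
    have hm0 : 0 < m := lt_trans (Real.exp_pos _) hmM
    have hlog : 2 * C₀ + 2 < Real.log m := (Real.lt_log_iff_exp_lt hm0).2 hmM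
    have h4 : m / 2 * (2 * C₀ + 2) ≤ m / 2 * Real.log m :=
      mul_le_mul_of_nonneg_left hlog.le (by positivity)
    have h5 : Real.log ((n : ℝ) / 3) ≤ (n : ℝ) / 3 - 1 := by
      have := Real.log_le_sub_one_of_pos (show (0 : ℝ) < n / 3 by linarith)
      exact this
    have h6 : m ≤ Real.log ((n : ℝ) / 3) := by nlinarith
    linarith
  obtain ⟨ρ, hρ, hρ2⟩ := hex
  obtain ⟨hρ3, hρ4⟩ := hclose ρ hρ hρ2
  obtain ⟨hm1, hun⟩ := h1 n hn1 h.odd ρ (hroot ρ hρ) hρ4
  refine ⟨ρ, ?_, ?_⟩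
  · have h3 : Multiset.count ρ Tc.roots ≤ Multiset.count ρ (BC n).roots :=
      Multiset.count_le_of_le ρ hle
    rw [Polynomial.count_roots, Polynomial.count_roots, hm1] at h3
    have h4 : 0 < Tc.rootMultiplicity ρ := (Polynomial.rootMultiplicity_pos hTc0).2 hρ
    omega
  · intro a ha ha2
    obtain ⟨ha3, ha4⟩ := hclose a ha ha2
    symm
    refine hun a (hroot a ha) ha4 ?_
    have h3 : ρ - a = (ρ - 2) - (a - 2) := by ring
    rw [h3]
    refine (norm_sub_le _ _).trans ?_
    linarith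

end Pool.Agent.BLF
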