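import Mathlib
import Pool.Agent.BLF.Stmt

/-!
Module Prod (size 3).  From UNIQ.  PROOF.  Let `m = card s ≤ n` (degree), `C` large.  All distances are `≥ 1/4`, so the product is `≥ (1/4)^m`, which settles `m ≤ m₀` (with `C` large).  Let `m ≥ m₀`, `R = m/1000`; `R + 2 ≤ n/200`.
The elements `a ∈ s` with `‖2 - a‖ < R` have `‖a‖ ≤ n/200`; by UNIQ the roots of `BC n` of modulus `≤ n/200` are simple, so these elements form a `Finset` (multiplicity 1: `s ≤ roots`, `count_roots`), and by `BernIrr.near_half` each is within `exp(-n/2) ≤ 1/16` of some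
`j/2`; two with the same `j` are within 1/8, hence equal (UNIQ).  `|j - 4| ≤ 2R + 1`, so there are at most `4R + 5 ≤ m/2` of them.  The other at least `m/2` elements have distance `≥ R = m/1000`.
So the product is `≥ (1/4)^m (m/1000)^(m/2)` (if `m/1000 ≥ 1`), whose log is `(m/2) log m - m (log 4 + (1/2) log 1000)`.  (`m = 0`: both sides are 0.)
-/

namespace Pool.Agent.BLF

open Polynomial Finset Pool.Agent.BernIrr Pool.Agent.StSP

private theorem prod_natDegree_le (n : ℕ) : (BC n).natDegree ≤ n := by
  refine natDegree_map_le.trans ?_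
  rw [natDegree_le_iff_coeff_eq_zero]
  intro i hi
  rw [coeff_bernoulli, if_neg (by omega)]

/-- lower bound of the log of a product of distances -/
private theorem prod_log_ge (s : Multiset ℂ) (r : ℝ) (hr : 0 < r) (h : ∀ a ∈ s, r ≤ ‖2 - a‖) :
    (Multiset.card s : ℝ) * Real.log r ≤ Real.log (s.map (fun a => ‖2 - a‖)).prod ∧
      0 < (s.map (fun a => ‖2 - a‖)).prod := by
  have h1 := prod_ge (x := 2) hr.le h
  have h0 : 0 < r ^ (Multiset.card s) := by positivity
  refine ⟨?_, h0.trans_le h1⟩
  rw [← Real.log_pow]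
  exact Real.log_le_log h0 h1

theorem prod_holds (h : UniqS) : ProdS := by
  classical
  obtain ⟨n₁, hn₁⟩ := h
  have hl4 : 0 < Real.log 4 := Real.log_pos (by norm_num)
  have hl1000 : 0 < Real.log 1000 := Real.log_pos (by norm_num)
  refine ⟨Real.log 4 + Real.log 1000, max n₁ 500, by positivity, ?_⟩
  intro n hn hodd s hs hs4
  have hnn1 : n₁ ≤ n := (le_max_left _ _).trans hn
  have hn500 : 500 ≤ n := (le_max_right _ _).trans hn
  have hnR : (500 : ℝ) ≤ n := by exact_mod_cast hn500
  set m := Multiset.card s with hm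
  have hmn : m ≤ n := (Multiset.card_le_card hs).trans ((card_roots' _).trans (prod_natDegree_le n))
  have hmnR : (m : ℝ) ≤ n := by exact_mod_cast hmn
  have hm0 : (0 : ℝ) ≤ m := Nat.cast_nonneg m
  have hall := prod_log_ge s (1 / 4) (by norm_num) hs4
  have hl14 : Real.log (1 / 4) = - Real.log 4 := by rw [one_div, Real.log_inv]
  rw [hl14, ← hm] at hall
  by_cases hmm : m < 1000
  · -- small m
    refine le_trans ?_ hall.1
    rcases Nat.eq_zero_or_pos m with h0 | h0
    · rw [h0]; simp
    · have h1 : Real.log m ≤ Real.log 1000 := by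
        apply Real.log_le_log
        · exact_mod_cast h0
        · exact_mod_cast hmm.le
      have h2 : (m : ℝ) / 2 * Real.log m ≤ m / 2 * Real.log 1000 :=
        mul_le_mul_of_nonneg_left h1 (by positivity)
      have h3 : 0 ≤ (m : ℝ) * Real.log 1000 := by positivity
      nlinarith
  · have hm1000 : 1000 ≤ m := by omega
    have hm1000R : (1000 : ℝ) ≤ m := by exact_mod_cast hm1000
    set R : ℝ := m / 1000 with hR
    have hR1 : 1 ≤ R := by rw [hR, le_div_iff₀ (by norm_num)]; linarith
    set S := s.filter (fun a => ‖2 - a‖ < R) with hS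
    set S' := s.filter (fun a => ¬ ‖2 - a‖ < R) with hS'
    have hsplit : S + S' = s := Multiset.filter_add_not _ _
    have hbig := prod_log_ge S' R (by linarith) (fun a ha => by
      rw [hS', Multiset.mem_filter] at ha
      exact not_lt.1 ha.2)
    have hsm := prod_log_ge S (1 / 4) (by norm_num) (fun a ha => by
      rw [hS, Multiset.mem_filter] at ha
      exact hs4 a ha.1)
    rw [hl14] at hsm
    have hcardsum : (Multiset.card S : ℝ) + Multiset.card S' = m := by
      have : Multiset.card S + Multiset.card S' = m := by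
        rw [← Multiset.card_add, hsplit]
      exact_mod_cast this
    -- the elements of S
    have hroot : ∀ a ∈ S, (BC n).IsRoot a ∧ ‖a‖ ≤ n / 200 ∧ ‖2 - a‖ < R := by
      intro a ha
      rw [hS, Multiset.mem_filter] at ha
      have h1 := Multiset.mem_of_le hs ha.1
      rw [mem_roots'] at h1
      refine ⟨h1.2, ?_, ha.2⟩
      have h2 : ‖a‖ ≤ 2 + ‖2 - a‖ := by
        have h3 : a = 2 - (2 - a) := by ring
        calc ‖a‖ = ‖2 - (2 - a)‖ := by rw [← h3]
          _ ≤ ‖(2 : ℂ)‖ + ‖2 - a‖ := norm_sub_le _ _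
          _ = 2 + ‖2 - a‖ := by norm_num
      have h4 : R ≤ n / 1000 := by rw [hR]; gcongr
      have h5 := ha.2
      linarith
    have hnodup : S.Nodup := by
      rw [Multiset.nodup_iff_count_le_one]
      intro a
      by_cases ha : a ∈ S
      · obtain ⟨h1, h2, -⟩ := hroot a ha
        have h3 := (hn₁ n hnn1 hodd a h1 h2).1
        calc S.count a ≤ s.count a := Multiset.count_le_of_le a (Multiset.filter_le _ _)
          _ ≤ (BC n).roots.count a := Multiset.count_le_of_le a hs
          _ = 1 := by rw [count_roots, h3]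
      · rw [Multiset.count_eq_zero_of_notMem ha]; norm_num
    have hexp : Real.exp (-(n : ℝ) / 2) ≤ 1 / 16 := by
      have h1 : -(n : ℝ) / 2 = -((n : ℝ) / 2) := by ring
      rw [h1, Real.exp_neg, one_div]
      apply inv_anti₀ (by norm_num)
      have := Real.add_one_le_exp ((n : ℝ) / 2)
      linarith
    have hj : ∀ a : ℂ, ∃ j : ℤ, a ∈ S → ‖a - j / 2‖ ≤ 1 / 16 := by
      intro a
      by_cases ha : a ∈ S
      · obtain ⟨h1, h2, -⟩ := hroot a ha
        obtain ⟨j, hj⟩ := near_half hodd a (h2.trans (by
          have : (0 : ℝ) ≤ n := Nat.cast_nonneg n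
          linarith)) h1
        exact ⟨j, fun _ => hj.trans hexp⟩
      · exact ⟨0, fun h => absurd h ha⟩
    choose j hj using hj
    set F := S.toFinset with hF
    have hFcard : F.card = Multiset.card S := Multiset.toFinset_card_of_nodup hnodup
    have hmemF : ∀ a, a ∈ F ↔ a ∈ S := fun a => Multiset.mem_toFinset
    have hinj : Set.InjOn j F := by
      intro a ha b hb hab
      have ha' := (hmemF a).1 ha
      have hb' := (hmemF b).1 hb
      obtain ⟨h1, h2, -⟩ := hroot a ha'
      obtain ⟨h3, h4, -⟩ := hroot b hb'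
      refine (hn₁ n hnn1 hodd a h1 h2).2 b h3 h4 ?_
      have e1 := hj a ha'
      have e2 := hj b hb'
      rw [← hab] at e2
      have e3 : a - b = (a - j a / 2) - (b - j a / 2) := by ring
      rw [e3]
      refine (norm_sub_le _ _).trans ?_
      linarith
    set K : ℕ := ⌊2 * R + 1 / 8⌋₊ with hK
    have hKR : (K : ℝ) ≤ 2 * R + 1 / 8 := Nat.floor_le (by linarith)
    have himg : F.image j ⊆ Icc (4 - (K : ℤ)) (4 + K) := by
      intro k hk
      rw [mem_image] at hk
      obtain ⟨a, ha, rfl⟩ := hk
      have ha' := (hmemF a).1 ha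
      obtain ⟨-, -, h5⟩ := hroot a ha'
      have e1 := hj a ha'
      have e2 : ‖((j a : ℂ) - 4)‖ ≤ 2 * R + 1 / 8 := by
        have e3 : ((j a : ℂ) - 4) = -2 * ((a - j a / 2) + (2 - a)) := by ring
        rw [e3, norm_mul]
        have e4 : ‖(-2 : ℂ)‖ = 2 := by norm_num
        rw [e4]
        have e5 := norm_add_le (a - j a / 2) (2 - a)
        linarith
      have e6 : ‖((j a : ℂ) - 4)‖ = |((j a - 4 : ℤ) : ℝ)| := by
        rw [← Complex.norm_intCast]
        push_cast
        rfl
      rw [e6] at e2
      have e7 : ((j a - 4).natAbs : ℝ) ≤ 2 * R + 1 / 8 := by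
        rw [Nat.cast_natAbs]
        push_cast
        push_cast at e2
        exact e2
      have e8 : (j a - 4).natAbs ≤ K := Nat.le_floor e7
      rw [mem_Icc]
      omega
    have hcardS : (Multiset.card S : ℝ) ≤ 4 * R + 2 := by
      have h1 : F.card = (F.image j).card := (card_image_of_injOn hinj).symm
      have h2 := card_le_card himg
      rw [← h1, Int.card_Icc, hFcard] at h2
      have h3 : Multiset.card S ≤ 2 * K + 1 := by omega
      have h4 : (Multiset.card S : ℝ) ≤ 2 * K + 1 := by exact_mod_cast h3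
      linarith
    have hcardS' : (m : ℝ) / 2 ≤ Multiset.card S' := by
      have h1 : 4 * R + 2 ≤ m / 2 := by rw [hR]; linarith
      linarith
    have hlogR : Real.log R = Real.log m - Real.log 1000 := by
      rw [hR, Real.log_div (by linarith) (by norm_num)]
    have hlogR0 : 0 ≤ Real.log R := Real.log_nonneg hR1
    have hprod : Real.log (s.map (fun a => ‖2 - a‖)).prod =
        Real.log (S.map (fun a => ‖2 - a‖)).prod + Real.log (S'.map (fun a => ‖2 - a‖)).prod := by
      rw [← Real.log_mul hsm.2.ne' hbig.2.ne', ← Multiset.prod_add, ← Multiset.map_add, hsplit]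
    rw [hprod]
    have h1 : (m : ℝ) / 2 * Real.log R ≤ Multiset.card S' * Real.log R :=
      mul_le_mul_of_nonneg_right hcardS' hlogR0
    have h2 : (Multiset.card S : ℝ) * Real.log 4 ≤ m * Real.log 4 := by
      apply mul_le_mul_of_nonneg_right _ hl4.le
      have : (0 : ℝ) ≤ Multiset.card S' := Nat.cast_nonneg _
      linarith
    have h3 := hsm.1
    have h4 := hbig.1
    rw [hlogR] at h1
    have h5 : 0 ≤ (m : ℝ) * Real.log 1000 := by positivity
    rw [hlogR] at h4
    nlinarith

end Pool.Agent.BLF
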