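import Mathlib
import Pool.Agent.BLF.Stmt

/-!
Module Split (size 3).  From NEAR.  PROOF.  `ℤ[X]` is a UFD: `T ≠ 0` is a unit times a product of irreducibles (`UniqueFactorizationMonoid.exists_prime_factors` or strong induction with `WfDvdMonoid`); evaluating at `ρ` in `ℂ` some irreducible factor `H` has `H(ρ) = 0`
(a unit of `ℤ[X]` is `±1`, `BernIrr.unit_pm`).  `T = H G`.  If `a` is a root of `G` with `‖2-a‖ < 1/4` then `a` is a root of `T`, so `a = ρ` (NEAR), and `ρ` would be a root of `G` and `H`, so `rootMultiplicity ρ T ≥ 2`, contradiction.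
-/

namespace Pool.Agent.BLF

open Polynomial Finset Pool.Agent.BernIrr Pool.Agent.StSP

private theorem split_aux (ρ : ℂ) (T : ℤ[X]) : T ≠ 0 →
    (T.map (Int.castRingHom ℂ)).IsRoot ρ →
    ∃ H : ℤ[X], Irreducible H ∧ H ∣ T ∧ (H.map (Int.castRingHom ℂ)).IsRoot ρ := by
  induction T using UniqueFactorizationMonoid.induction_on_prime with
  | h₁ => intro h; exact absurd rfl h
  | h₂ x hx =>
    intro _ hr
    exfalso
    have h1 : IsUnit ((x.map (Int.castRingHom ℂ)).eval ρ) := by
      have := hx.map ((evalRingHom ρ).comp (mapRingHom (Int.castRingHom ℂ)))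
      simpa using this
    rw [IsRoot.def] at hr
    rw [hr] at h1
    exact not_isUnit_zero h1
  | h₃ a p ha hp ih =>
    intro _ hr
    rw [Polynomial.map_mul, IsRoot.def, eval_mul] at hr
    rcases mul_eq_zero.1 hr with h1 | h1
    · exact ⟨p, hp.irreducible, dvd_mul_right _ _, h1⟩
    · obtain ⟨H, h2, h3, h4⟩ := ih ha h1
      exact ⟨H, h2, h3.mul_left _, h4⟩

theorem split_holds (h : NearS) : SplitS := by
  obtain ⟨n₀, h⟩ := h
  refine ⟨n₀, fun n D κ T U hd hn => ?_⟩
  obtain ⟨ρ, h1, h2⟩ := h n D κ T U hd hn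
  have hT : T.map (Int.castRingHom ℂ) ≠ 0 := by
    intro h0
    rw [h0, rootMultiplicity_zero] at h1
    exact absurd h1 (by norm_num)
  have hT0 : T ≠ 0 := by
    rintro rfl
    exact hT (Polynomial.map_zero _)
  have hr : (T.map (Int.castRingHom ℂ)).IsRoot ρ := by
    rw [← rootMultiplicity_pos hT, h1]
    exact one_pos
  obtain ⟨H, hH, ⟨G, hG⟩, hHr⟩ := split_aux ρ T hT0 hr
  refine ⟨G, H, by rw [hG, mul_comm], hH, fun a ha => ?_⟩
  by_contra hcon
  push Not at hcon
  have haT : (T.map (Int.castRingHom ℂ)).IsRoot a := by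
    rw [hG, Polynomial.map_mul]
    exact root_mul_left_of_isRoot _ ha
  have hρ := h2 a haT hcon
  subst hρ
  have hprod : H.map (Int.castRingHom ℂ) * G.map (Int.castRingHom ℂ) ≠ 0 := by
    rw [← Polynomial.map_mul, ← hG]; exact hT
  have hm := rootMultiplicity_mul (x := a) hprod
  rw [← Polynomial.map_mul, ← hG, h1] at hm
  have hm1 := (rootMultiplicity_pos (left_ne_zero_of_mul hprod)).2 hHr
  have hm2 := (rootMultiplicity_pos (right_ne_zero_of_mul hprod)).2 ha
  omega

end Pool.Agent.BLF
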