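import Mathlib
import Pool.Agent.BLF.Stmt

/-!
Module Ssl (size 3).  PROOF.  As in `H6.HR.SS_ge` (Pool/Agent/H6/HR/Sieve.lean) the sum `SS` is `≥ ∑_{l ≤ D squarefree} selbergTerms l`, `selbergTerms l = (1/l) ∏_{p∣l} (1-1/p)^{-1} = ∏_{p ∣ l} 1/(p-1)`.
And `∏_{p∣l} 1/(p-1) = ∏_{p∣l} ∑_{k≥1} p^{-k} ≥ ∑_{m ≤ D, rad m = l} 1/m`.  Summing over the squarefree `l ≤ D`: `≥ ∑_{m≤D} 1/m ≥ log D` (`log_add_one_le_harmonic`).
For the inequality for one `l`: e.g. prove by induction on the finite set `S` of primes that for every `K`, `∑_{m ∈ numbers with primeFactors = S and all exponents ≤ K} 1/m = ∏_{p∈S} ∑_{1≤k≤K} p^{-k} ≤ ∏ 1/(p-1)`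
(or use `Nat.factoredNumbers` / `EulerProduct`, `prod_primesBelow_tsum...`, or the exchange argument: `∑_{q ≤ D sqf} 1/φ(q) ≥ ∑_{m≤D} 1/m`).
-/

namespace Pool.Agent.BLF

open Polynomial Finset Pool.Agent.BernIrr Pool.Agent.StSP

private theorem ssl_geom (p : ℕ) (hp : 1 < p) (K : ℕ) :
    ∑ a ∈ Icc 1 K, (1 : ℝ) / (p : ℝ) ^ a = (1 - 1 / (p : ℝ) ^ K) * (1 / ((p : ℝ) - 1)) := by
  have hp1 : (0 : ℝ) < (p : ℝ) - 1 := by
    have : (1 : ℝ) < p := by exact_mod_cast hp
    linarith
  have hp0 : (0 : ℝ) < (p : ℝ) := by linarith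
  induction K with
  | zero => simp
  | succ K ih =>
    rw [Finset.sum_Icc_succ_top (by omega), ih]
    rw [pow_succ]
    field_simp
    ring

private theorem ssl_rad (K : ℕ) (S : Finset ℕ) (hS : ∀ p ∈ S, p.Prime) :
    ∑ m ∈ (Icc 1 K).filter (fun m => m.primeFactors = S), (1 : ℝ) / m ≤
      ∏ p ∈ S, (1 / ((p : ℝ) - 1)) := by
  classical
  induction S using Finset.induction_on with
  | empty =>
    rw [Finset.prod_empty]
    calc ∑ m ∈ (Icc 1 K).filter (fun m => m.primeFactors = ∅), (1 : ℝ) / m
        ≤ ∑ m ∈ ({1} : Finset ℕ), (1 : ℝ) / m := by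
          apply Finset.sum_le_sum_of_subset_of_nonneg
          · intro m hm
            rw [Finset.mem_filter, Finset.mem_Icc, Nat.primeFactors_eq_empty] at hm
            rw [Finset.mem_singleton]
            omega
          · intro i _ _
            positivity
      _ = 1 := by simp
  | insert p S hpS ih =>
    have hp : p.Prime := hS p (Finset.mem_insert_self _ _)
    have ih' := ih (fun q hq => hS q (Finset.mem_insert_of_mem hq))
    rw [Finset.prod_insert hpS]
    have hp1 : (0 : ℝ) < (p : ℝ) - 1 := by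
      have : (1 : ℝ) < p := by exact_mod_cast hp.one_lt
      linarith
    have hp0 : (0 : ℝ) < (p : ℝ) := by linarith
    set F := (Icc 1 K).filter (fun m => m.primeFactors = insert p S) with hF
    set F' := (Icc 1 K).filter (fun m => m.primeFactors = S) with hF'
    have hmap : ∀ m ∈ F, (m.factorization p, ordCompl[p] m) ∈ (Icc 1 K) ×ˢ F' := by
      intro m hm
      rw [hF, Finset.mem_filter, Finset.mem_Icc] at hm
      obtain ⟨⟨h1, h2⟩, h3⟩ := hm
      have hm0 : m ≠ 0 := by omega
      have hpm : p ∣ m := by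
        have : p ∈ m.primeFactors := by rw [h3]; exact Finset.mem_insert_self _ _
        exact Nat.dvd_of_mem_primeFactors this
      rw [Finset.mem_product, hF', Finset.mem_filter, Finset.mem_Icc, Finset.mem_Icc]
      refine ⟨⟨?_, ?_⟩, ⟨?_, ?_⟩, ?_⟩
      · exact hp.factorization_pos_of_dvd hm0 hpm
      · have h4 : m.factorization p < m := Nat.factorization_lt p hm0
        exact h4.le.trans h2
      · exact Nat.ordCompl_pos p hm0
      · exact (Nat.ordCompl_le m p).trans h2
      · have h5 : (ordCompl[p] m).primeFactors = m.primeFactors.erase p := by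
          rw [← Nat.support_factorization, Nat.factorization_ordCompl, Finsupp.support_erase,
            Nat.support_factorization]
        rw [h3] at h5
        rw [h5]
        ext q
        rw [Finset.mem_erase, Finset.mem_insert]
        constructor
        · rintro ⟨h6, h7 | h7⟩
          · exact absurd h7 h6
          · exact h7
        · intro h6
          refine ⟨?_, Or.inr h6⟩
          rintro rfl
          exact hpS h6
    have hinj : Set.InjOn (fun m : ℕ => (m.factorization p, ordCompl[p] m)) (F : Set ℕ) := by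
      intro a _ b _ hab
      simp only [Prod.mk.injEq] at hab
      have h1 := Nat.ordProj_mul_ordCompl_eq_self a p
      have h2 := Nat.ordProj_mul_ordCompl_eq_self b p
      rw [← h1, ← h2, hab.2, hab.1]
    calc ∑ m ∈ F, (1 : ℝ) / m
        = ∑ m ∈ F, (fun x : ℕ × ℕ => (1 : ℝ) / (p : ℝ) ^ x.1 * (1 / (x.2 : ℝ)))
            ((fun m : ℕ => (m.factorization p, ordCompl[p] m)) m) := by
          apply Finset.sum_congr rfl
          intro m _
          dsimp only
          have h1 := Nat.ordProj_mul_ordCompl_eq_self m p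
          conv_lhs => rw [← h1]
          push_cast
          rw [one_div_mul_one_div]
      _ = ∑ x ∈ F.image (fun m : ℕ => (m.factorization p, ordCompl[p] m)),
            (1 : ℝ) / (p : ℝ) ^ x.1 * (1 / (x.2 : ℝ)) := by
          rw [Finset.sum_image hinj]
      _ ≤ ∑ x ∈ (Icc 1 K) ×ˢ F', (1 : ℝ) / (p : ℝ) ^ x.1 * (1 / (x.2 : ℝ)) := by
          apply Finset.sum_le_sum_of_subset_of_nonneg
          · intro x hx
            rw [Finset.mem_image] at hx
            obtain ⟨m, hm, rfl⟩ := hx
            exact hmap m hm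
          · intro i _ _
            positivity
      _ = (∑ a ∈ Icc 1 K, (1 : ℝ) / (p : ℝ) ^ a) * ∑ m ∈ F', (1 : ℝ) / m := by
          rw [Finset.sum_product, Finset.sum_mul_sum]
      _ ≤ 1 / ((p : ℝ) - 1) * ∏ q ∈ S, (1 / ((q : ℝ) - 1)) := by
          apply mul_le_mul _ ih' (Finset.sum_nonneg (fun i _ => by positivity)) (by positivity)
          rw [ssl_geom p hp.one_lt K]
          have h1 : (1 - 1 / (p : ℝ) ^ K) ≤ 1 := by
            have : 0 ≤ 1 / (p : ℝ) ^ K := by positivity
            linarith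
          calc (1 - 1 / (p : ℝ) ^ K) * (1 / ((p : ℝ) - 1)) ≤ 1 * (1 / ((p : ℝ) - 1)) := by gcongr
            _ = _ := one_mul _

theorem ssl_holds : SslS := by
  classical
  intro D hD
  have h1 : Real.log D ≤ ∑ n ∈ Finset.Icc 1 D, (1 : ℝ) / n := by
    have h2 : Real.log D ≤ (harmonic D : ℝ) :=
      (Real.log_le_log (by exact_mod_cast hD) (by push_cast; linarith)).trans
        (log_add_one_le_harmonic D)
    rw [harmonic_eq_sum_Icc] at h2
    push_cast at h2
    simpa [one_div] using h2
  refine h1.trans ?_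
  set L := (Icc 1 D).filter Squarefree with hL
  have hmaps : ∀ m ∈ Icc 1 D, (∏ p ∈ m.primeFactors, p) ∈ L := by
    intro m hm
    rw [Finset.mem_Icc] at hm
    rw [hL, Finset.mem_filter, Finset.mem_Icc]
    have hpos : 0 < ∏ p ∈ m.primeFactors, p :=
      Finset.prod_pos (fun p hp => (Nat.prime_of_mem_primeFactors hp).pos)
    refine ⟨⟨hpos, ?_⟩, ?_⟩
    · exact (Nat.le_of_dvd (by omega) (Nat.prod_primeFactors_dvd m)).trans hm.2
    · apply Finset.squarefree_prod_of_pairwise_isCoprime
      · intro p hp q hq hpq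
        exact Nat.coprime_iff_isRelPrime.mp
          ((Nat.coprime_primes (Nat.prime_of_mem_primeFactors hp)
            (Nat.prime_of_mem_primeFactors hq)).mpr hpq)
      · intro p hp
        exact (Nat.prime_of_mem_primeFactors hp).squarefree
  have h3 : ∑ n ∈ Icc 1 D, (1 : ℝ) / n ≤ ∑ l ∈ L, (H6.HR.intSieve 0 1 D).selbergTerms l := by
    rw [← Finset.sum_fiberwise_of_maps_to (t := L) (g := fun m => ∏ p ∈ m.primeFactors, p) hmaps]
    apply Finset.sum_le_sum
    intro l hl
    rw [hL, Finset.mem_filter, Finset.mem_Icc] at hl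
    have hl0 : l ≠ 0 := by omega
    have h4 : ∑ m ∈ (Icc 1 D).filter (fun m => ∏ p ∈ m.primeFactors, p = l), (1 : ℝ) / m ≤
        ∑ m ∈ (Icc 1 D).filter (fun m => m.primeFactors = l.primeFactors), (1 : ℝ) / m := by
      apply Finset.sum_le_sum_of_subset_of_nonneg
      · intro m hm
        rw [Finset.mem_filter] at hm ⊢
        refine ⟨hm.1, ?_⟩
        rw [← hm.2, Nat.primeFactors_prod]
        intro p hp
        exact Nat.prime_of_mem_primeFactors hp
      · intro i _ _
        positivity
    refine h4.trans ((ssl_rad D l.primeFactors (fun p hp => Nat.prime_of_mem_primeFactors hp)).trans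
      (le_of_eq ?_))
    rw [BoundingSieve.selbergTerms_apply]
    have hnu : ∀ k : ℕ, (H6.HR.intSieve 0 1 D).nu k = (k : ℝ)⁻¹ := fun k => rfl
    rw [hnu]
    have h5 : (l : ℝ) = ∏ p ∈ l.primeFactors, (p : ℝ) := by
      conv_lhs => rw [← Nat.prod_primeFactors_of_squarefree hl.2]
      push_cast
      rfl
    rw [h5, ← Finset.prod_inv_distrib, ← Finset.prod_mul_distrib]
    apply Finset.prod_congr rfl
    intro p hp
    rw [hnu]
    have hp1 : (0 : ℝ) < (p : ℝ) - 1 := by
      have : (1 : ℝ) < p := by exact_mod_cast (Nat.prime_of_mem_primeFactors hp).one_lt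
      linarith
    have hp0 : (0 : ℝ) < (p : ℝ) := by linarith
    rw [← mul_inv, one_div]
    congr 1
    field_simp
  refine h3.trans ?_
  unfold H6.SS
  have hsub : L ⊆ (H6.HR.intSieve 0 1 D).prodPrimes.divisors := by
    intro l hl
    rw [hL, Finset.mem_filter, Finset.mem_Icc] at hl
    rw [Nat.mem_divisors]
    refine ⟨?_, BoundingSieve.prodPrimes_ne_zero⟩
    exact hl.2.dvd_primorial.trans (primorial_dvd_primorial hl.1.2)
  calc ∑ l ∈ L, (H6.HR.intSieve 0 1 D).selbergTerms l
      = ∑ l ∈ L, (if l ≤ D then (H6.HR.intSieve 0 1 D).selbergTerms l else 0) := by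
        apply Finset.sum_congr rfl
        intro l hl
        rw [hL, Finset.mem_filter, Finset.mem_Icc] at hl
        rw [if_pos hl.1.2]
    _ ≤ _ := by
        apply Finset.sum_le_sum_of_subset_of_nonneg hsub
        intro i hi _
        split_ifs
        · exact (BoundingSieve.selbergTerms_pos (Nat.dvd_of_mem_divisors hi)).le
        · exact le_rfl

end Pool.Agent.BLF
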