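import Mathlib
import Pool.Agent.BLF.Stmt

/-!
Module Two (size 3).  PROOF.  Let `U = N B_n`, `N = primorial (n+1)`, `N/2` odd (`hU`); von Staudt (see Pool/Agent/BernIrr/Stau.lean, Core1.lean `exists_U`, and Mathlib `vonStaudt...`): `2 B_k` is 2-integral and odd (2-adically) for `k = 1` and for even `k ≥ 2`, `B_k = 0` for odd `k ≥ 3`, `2 B_0 = 2`.  So mod 2:
`U = ∑_{k=1 or k even ≥ 2} C(n,k) x^(n-k)`.  With `n = 2m+1`, Lucas mod 2: `C(n,2j) = C(m,j)`, so `∑_{k even} C(n,k) x^(n-k) = x (x^2+1)^m = x (x+1)^(n-1)`, and `U = x (x+1)^(n-1) + x^n + x^(n-1) = x (x+1) [(x+1)^(n-2) + x^(n-2)]` (mod 2).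
On the other hand `U = κ q3 T` (`Data.hUT`), `q3 = x (x-1)(2x-1) = x (x+1)` mod 2, `κ` odd (`2 κ D = N`).  Cancel `x (x+1)`.
ALTERNATIVE without von Staudt at 2: `V = 2 D B_n = q3 T` satisfies `V(x+1) - V(x) = 2 D n x^(n-1)`, and `B_n(x) = 2^(n-1) (B_n(x/2) + B_n((x+1)/2))`; or use `∑_k C(n,k) 2^k ...`; any proof is fine.
-/

namespace Pool.Agent.BLF

open Polynomial Finset Pool.Agent.BernIrr Pool.Agent.StSP

private theorem two_odd_half (m : ℕ) (hm : 2 ≤ m) :
    ((primorial m / 2 : ℕ) : ZMod 2) = 1 := by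
  have h2 : 2 ∣ primorial m := dvd_primorial Nat.prime_two hm
  obtain ⟨c, hc⟩ := h2
  rw [hc, Nat.mul_div_cancel_left _ (by norm_num)]
  have hodd : Odd c := by
    rw [← Nat.not_even_iff_odd]
    intro he
    obtain ⟨d, hd⟩ := he.two_dvd
    have h4 : 2 * 2 ∣ primorial m := ⟨d, by rw [hc, hd]; ring⟩
    have := (squarefree_primorial m) 2 h4
    simp at this
  obtain ⟨d, rfl⟩ := hodd
  push_cast
  have : (2 : ZMod 2) = 0 := rfl
  rw [this]; ring

private theorem two_int (n k : ℕ) (hn : 1 ≤ n) (hk : k ≤ n) : ∃ b : ℤ,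
    (primorial (n + 1) : ℚ) * _root_.bernoulli k = b ∧
    (b : ZMod 2) = if k = 1 ∨ (0 < k ∧ Even k) then 1 else 0 := by
  have hhalf := two_odd_half (n + 1) (by omega)
  set N := primorial (n + 1) with hN
  obtain ⟨f, hf⟩ : ∃ f : ℕ → ℕ, ∀ q, N / q = f q := ⟨_, fun _ => rfl⟩
  rw [hf] at hhalf
  have h2N : 2 ∣ N := dvd_primorial Nat.prime_two (by omega)
  have hN0 : ((N : ℕ) : ZMod 2) = 0 := (ZMod.natCast_eq_zero_iff _ _).2 h2N
  rcases Nat.eq_zero_or_pos k with rfl | hk0
  · refine ⟨N, by simp, ?_⟩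
    rw [if_neg (by omega)]
    exact_mod_cast hN0
  rcases Nat.even_or_odd k with hev | hodd
  · rw [if_pos (Or.inr ⟨hk0, hev⟩)]
    obtain ⟨j, hj⟩ := hev
    have hj2 : k = 2 * j := by omega
    have hj0 : 0 < j := by omega
    obtain ⟨z, hz⟩ := Bernoulli.vonStaudt_clausen j
    set S := (range (2 * j + 2)).filter (fun p => p.Prime ∧ (p - 1) ∣ 2 * j) with hS
    have hSp : ∀ q ∈ S, q.Prime ∧ q ≤ n + 1 ∧ (q - 1) ∣ 2 * j := by
      intro q hq
      simp only [hS, mem_filter, mem_range] at hq
      exact ⟨hq.2.1, by omega, hq.2.2⟩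
    refine ⟨N * z - ∑ q ∈ S, (f q : ℤ), ?_, ?_⟩
    · have h1 : _root_.bernoulli k = z - ∑ q ∈ S, (1 : ℚ) / q := by
        rw [hj2, hz]; ring
      rw [h1]
      push_cast
      rw [mul_sub, mul_sum]
      congr 1
      refine sum_congr rfl fun q hq => ?_
      obtain ⟨hq1, hq2, _⟩ := hSp q hq
      rw [← hf q, Nat.cast_div (dvd_primorial hq1 hq2) (by exact_mod_cast hq1.ne_zero)]
      ring
    · push_cast
      rw [hN0, zero_mul, zero_sub]
      have h2S : 2 ∈ S := by
        simp only [hS, mem_filter, mem_range]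
        exact ⟨by omega, Nat.prime_two, one_dvd _⟩
      rw [← add_sum_erase _ _ h2S]
      have h0 : ∑ q ∈ S.erase 2, (f q : ZMod 2) = 0 := by
        refine Finset.sum_eq_zero fun q hq => ?_
        rw [mem_erase] at hq
        obtain ⟨hq1, hq2, _⟩ := hSp q hq.2
        rw [← hf q]
        exact (ZMod.natCast_eq_zero_iff _ _).2
          (dvd_div_of_ne Nat.prime_two hq1 hq.1.symm h2N (dvd_primorial hq1 hq2))
      rw [h0, add_zero, hhalf]
      decide
  · rcases Nat.eq_or_lt_of_le hk0 with h1 | h1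
    · have h1 : k = 1 := h1.symm
      refine ⟨-(f 2 : ℤ), ?_, ?_⟩
      · rw [h1, _root_.bernoulli_one]
        push_cast
        rw [← hf 2, Nat.cast_div h2N (by norm_num)]
        push_cast
        ring
      · rw [if_pos (Or.inl h1)]
        push_cast
        rw [hhalf]
        decide
    · refine ⟨0, by rw [bernoulli_eq_zero_of_odd hodd h1]; simp, ?_⟩
      rw [if_neg]
      · simp
      · rintro (h2 | h2)
        · omega
        · exact (Nat.not_even_iff_odd.2 hodd) h2.2

private theorem two_choose_odd {n i : ℕ} (hn : Odd n) (hi : Odd i) :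
    (((n - 1).choose (i - 1) : ℕ) : ZMod 2) = ((n.choose i : ℕ) : ZMod 2) := by
  obtain ⟨a, rfl⟩ := hn
  obtain ⟨b, rfl⟩ := hi
  have h := Nat.add_one_mul_choose_eq (2 * a) (2 * b)
  have h' := congrArg (Nat.cast : ℕ → ZMod 2) h
  push_cast at h'
  have h2 : (2 : ZMod 2) = 0 := rfl
  rw [h2] at h'
  simpa using h'

private theorem two_choose_even {n i : ℕ} (hn : Odd n) (hi : Even i) (h0 : 0 < i) :
    (((n - 1).choose (i - 1) : ℕ) : ZMod 2) = 0 := by
  obtain ⟨a, rfl⟩ := hn
  obtain ⟨b, rfl⟩ := hi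
  obtain ⟨c, rfl⟩ : ∃ c, b = c + 1 := ⟨b - 1, by omega⟩
  have e : c + 1 + (c + 1) = (2 * c + 1) + 1 := by ring
  rw [e]
  have h := Nat.add_one_mul_choose_eq (2 * a) (2 * c + 1)
  have h' := congrArg (Nat.cast : ℕ → ZMod 2) h
  push_cast at h'
  have h2 : (2 : ZMod 2) = 0 := rfl
  have h3 : (1 + 1 : ZMod 2) = 0 := rfl
  rw [h2] at h'
  simp only [zero_mul, zero_add, one_mul, h3, mul_zero] at h'
  simpa using h'

theorem two_holds : TwoS := by
  intro n D κ T U h
  have hodd := h.odd
  have hge := h.ge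
  have h2 : (2 : ZMod 2) = 0 := rfl
  have hneg : (-1 : ZMod 2) = 1 := rfl
  -- coefficients of U mod 2
  have hcoef : ∀ i, i ≤ n → ((U.coeff i : ℤ) : ZMod 2) =
      (if n - i = 1 ∨ (0 < n - i ∧ Even (n - i)) then 1 else 0) * ((n.choose i : ℕ) : ZMod 2) := by
    intro i hi
    obtain ⟨b, hb1, hb2⟩ := two_int n (n - i) (by omega) (by omega)
    have h1 : ((U.coeff i : ℤ) : ℚ) = ((b * (n.choose i : ℤ) : ℤ) : ℚ) := by
      have e1 : (U.map (Int.castRingHom ℚ)).coeff i = ((U.coeff i : ℤ) : ℚ) := by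
        rw [coeff_map]; rfl
      rw [← e1, h.hU, coeff_C_mul, coeff_bernoulli, if_pos hi]
      push_cast
      rw [← hb1]
      ring
    have h3 : U.coeff i = b * (n.choose i : ℤ) := by exact_mod_cast h1
    rw [h3]
    push_cast
    rw [hb2]
  have hκ : ((κ : ℕ) : ZMod 2) = 1 := by
    have hodd' : Odd κ := by
      rw [← Nat.not_even_iff_odd]
      intro he
      obtain ⟨d, hd⟩ := he.two_dvd
      have h4 : 2 * 2 ∣ primorial (n + 1) := ⟨d * D, by rw [← h.hN, hd]; ring⟩
      have := (squarefree_primorial (n + 1)) 2 h4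
      simp at this
    obtain ⟨d, rfl⟩ := hodd'
    push_cast
    rw [h2]; ring
  -- U mod 2
  have hU2 : U.map (Int.castRingHom (ZMod 2)) = X * (X + 1) ^ (n - 1) + X ^ n + X ^ (n - 1) := by
    ext i
    rw [coeff_map, eq_intCast, coeff_add, coeff_add, coeff_X_pow, coeff_X_pow]
    rcases Nat.lt_or_ge n i with hi | hi
    · have h0 : U.coeff i = 0 := coeff_eq_zero_of_natDegree_lt (by rw [h.Udeg]; exact hi)
      rw [h0, if_neg (by omega), if_neg (by omega)]
      obtain ⟨j, rfl⟩ : ∃ j, i = j + 1 := ⟨i - 1, by omega⟩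
      rw [coeff_X_mul, coeff_X_add_one_pow, Nat.choose_eq_zero_of_lt (by omega)]
      simp
    · rw [hcoef i hi]
      rcases Nat.eq_zero_or_pos i with rfl | hi0
      · rw [if_neg, if_neg (by omega), if_neg (by omega)]
        · simp
        · rintro (h3 | h3)
          · omega
          · rw [Nat.sub_zero] at h3
            exact (Nat.not_even_iff_odd.2 hodd) h3.2
      · obtain ⟨j, rfl⟩ : ∃ j, i = j + 1 := ⟨i - 1, by omega⟩
        rw [coeff_X_mul, coeff_X_add_one_pow]
        have hch1 : Odd (j + 1) → (((n - 1).choose j : ℕ) : ZMod 2) =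
            ((n.choose (j + 1) : ℕ) : ZMod 2) := fun ho => by
          have := two_choose_odd hodd ho
          simpa using this
        have hch2 : Even (j + 1) → (((n - 1).choose j : ℕ) : ZMod 2) = 0 := fun ho => by
          have := two_choose_even hodd ho (by omega)
          simpa using this
        by_cases e1 : j + 1 = n
        · rw [if_neg (by omega), if_pos e1, if_neg (by omega), hch1 (by rw [e1]; exact hodd), e1,
            Nat.choose_self]
          decide
        · by_cases e2 : j + 1 = n - 1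
          · have hev : Even (j + 1) := by
              rw [e2]
              obtain ⟨a, ha⟩ := hodd
              exact ⟨a, by omega⟩
            rw [if_pos (by omega), if_neg e1, if_pos e2, hch2 hev]
            have e3 : n.choose (j + 1) = n := by
              rw [e2]
              obtain ⟨m, rfl⟩ : ∃ m, n = m + 1 := ⟨n - 1, by omega⟩
              simp
            rw [e3]
            obtain ⟨a, ha⟩ := hodd
            rw [ha]
            push_cast
            rw [h2]; ring
          · rw [if_neg e1, if_neg e2]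
            rcases Nat.even_or_odd (j + 1) with hev | ho
            · rw [if_neg, hch2 hev]
              · ring
              · rintro (h3 | h3)
                · omega
                · obtain ⟨a, ha⟩ := hodd
                  obtain ⟨b, hb⟩ := hev
                  obtain ⟨c, hc⟩ := h3.2
                  omega
            · rw [if_pos, hch1 ho]
              · ring
              · right
                refine ⟨by omega, ?_⟩
                obtain ⟨a, ha⟩ := hodd
                obtain ⟨b, hb⟩ := ho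
                exact ⟨a - b, by omega⟩
  have hq : q3.map (Int.castRingHom (ZMod 2)) = X * (X + 1) := by
    unfold q3
    simp only [Polynomial.map_mul, Polynomial.map_sub, Polynomial.map_X, Polynomial.map_one,
      Polynomial.map_ofNat]
    have e2 : (2 : (ZMod 2)[X]) = 0 := by
      have : (2 : (ZMod 2)[X]) = C (2 : ZMod 2) := rfl
      rw [this, h2, C_0]
    linear_combination (X * (X - 1) * X - X * X) * e2
  have hmain : X * (X + 1) * T.map (Int.castRingHom (ZMod 2)) =
      X * (X + 1) * ((X + 1) ^ (n - 2) + X ^ (n - 2)) := by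
    have h1 := congrArg (Polynomial.map (Int.castRingHom (ZMod 2))) h.hUT
    rw [Polynomial.map_mul, Polynomial.map_mul, map_C, hq] at h1
    have e1 : (Int.castRingHom (ZMod 2)) (κ : ℤ) = 1 := by
      rw [eq_intCast]; exact_mod_cast hκ
    rw [e1, C_1, one_mul] at h1
    rw [← h1, hU2]
    obtain ⟨m, rfl⟩ : ∃ m, n = m + 2 := ⟨n - 2, by omega⟩
    have e3 : m + 2 - 1 = m + 1 := by omega
    have e4 : m + 2 - 2 = m := by omega
    rw [e3, e4]
    ring
  have hX : (X * (X + 1) : (ZMod 2)[X]) ≠ 0 := by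
    apply mul_ne_zero X_ne_zero
    have : (X + 1 : (ZMod 2)[X]) = X + C 1 := by simp
    rw [this]
    exact X_add_C_ne_zero 1
  exact mul_left_cancel₀ hX hmain

end Pool.Agent.BLF
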