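import Mathlib
import Pool.Agent.BLF.Stmt

/-!
Module Uniq (size 4).  PROOF.  `n = 2h+1`, `K = (2π)^n (-1)^(h+1)/(2 n!)`, `E(z) = K B_n(z) - sin(2πz)`.  (1) `‖E(z)‖ ≤ 4/2^n exp(4π‖z‖)` for ALL `z ∈ ℂ`: the proof of `BernIrr.sine_approx` (Pool/Agent/BernIrr/Arch1.lean; `bern_eval`, `coef_cmp`, `sc_hasSum`,
`sc_abs`) works verbatim with the value `K B_n(z)` instead of `0` (finite sum = `K B_n(z)`; there the root assumption is only used to make it 0).
(2) `E` is entire; Cauchy (`Complex.norm_deriv_le_of_forall_mem_sphere_norm_le`) on the circle of radius 1: `‖E'(z)‖ ≤ 4/2^n exp(4π(‖z‖+1)) ≤ exp(-n/2)` for `‖z‖ ≤ n/200`, `n` large (`log 2 - 4π/200 > 0.63`).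
(3) Simple: if `B_n(x) = B_n'(x) = 0` then `‖sin 2πx‖` and `2π‖cos 2πx‖ = ‖E'(x)‖` are both small, contradicting `sin^2 + cos^2 = 1`; so `rootMultiplicity = 1` (`Polynomial.one_lt_rootMultiplicity_iff_isRoot` / derivative; `BC n ≠ 0`).
(4) Separation: `E(x) - E(y) = sin 2πy - sin 2πx`, `‖E(x)-E(y)‖ ≤ exp(-n/2) ‖x-y‖` (mean value inequality on the ball, `Convex.norm_image_sub_le_of_norm_deriv_le`).  By `BernIrr.near_half` `x` is within `exp(-n/2)` of `j/2` and `y` of `j'/2`; `‖x-y‖ ≤ 1/8` gives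
`j = j'`.  `sin 2πx - sin 2πy = 2 sin(π(x-y)) cos(π(x+y))`, `‖cos π(x+y)‖ ≥ 1/2` (`x+y` is very close to the integer `j`) and `‖sin π(x-y)‖ ≥ 2‖x-y‖` (`BernIrr.near_int` with `w = π(x-y)`: the integer must be 0), so `‖...‖ ≥ 2‖x-y‖` and `x = y`.
-/

namespace Pool.Agent.BLF

open Polynomial Finset Pool.Agent.BernIrr Pool.Agent.StSP

/-- the normalizing constant -/
private noncomputable def uniqK (n h : ℕ) : ℝ := (-1) ^ (h + 1) * ((2 * Real.pi) ^ n / (2 * n.factorial))

private noncomputable def uniqE (n h : ℕ) (z : ℂ) : ℂ :=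
  (uniqK n h : ℂ) * (BC n).eval z - Complex.sin (2 * Real.pi * z)

private theorem uniq_bound {n h : ℕ} (hh : n = 2 * h + 1) (x : ℂ) :
    ‖uniqE n h x‖ ≤ 4 / 2 ^ n * Real.exp (4 * Real.pi * ‖x‖) := by
  set u : ℂ := 2 * Real.pi * x with hu
  have h1 := bern_eval n x
  -- the finite sum as a series
  set f : ℕ → ℂ := fun m => if m ≤ n then ((((-1) ^ (h + 1) * bt (n - m) : ℝ)) : ℂ) *
    (u ^ m / m.factorial) else 0 with hf
  have hfs : HasSum f ((uniqK n h : ℂ) * (BC n).eval x) := by
    have h2 : HasSum f (∑ m ∈ range (n + 1), f m) := by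
      apply hasSum_sum_of_ne_finset_zero
      intro m hm
      rw [mem_range, not_lt] at hm
      simp only [hf]
      rw [if_neg (by omega)]
    have h3 : ∑ m ∈ range (n + 1), f m = (uniqK n h : ℂ) * (BC n).eval x := by
      calc ∑ m ∈ range (n + 1), f m = ∑ m ∈ range (n + 1), ((-1) ^ (h + 1) : ℂ) *
            ((bt (n - m) : ℂ) * (u ^ m / m.factorial)) := by
            apply sum_congr rfl
            intro m hm
            rw [mem_range] at hm
            simp only [hf]
            rw [if_pos (by omega)]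
            push_cast
            ring
        _ = _ := by
            rw [← mul_sum, ← h1]
            unfold uniqK
            push_cast
            ring
    rwa [h3] at h2
  have hs := sc_hasSum u
  have hd := hfs.sub hs
  have hg : HasSum (fun m : ℕ => 4 / 2 ^ n * ((2 * ‖u‖) ^ m / m.factorial))
      (4 / 2 ^ n * Real.exp (2 * ‖u‖)) := by
    apply HasSum.mul_left
    have := NormedSpace.expSeries_div_hasSum_exp (𝔸 := ℝ) (2 * ‖u‖)
    rwa [← Real.exp_eq_exp_ℝ] at this
  have hb : ∀ m, ‖f m - (sc m : ℂ) * (u ^ m / m.factorial)‖ ≤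
      4 / 2 ^ n * ((2 * ‖u‖) ^ m / m.factorial) := by
    intro m
    have hfac : (0 : ℝ) < m.factorial := by exact_mod_cast Nat.factorial_pos m
    have hun : ‖u ^ m / (m.factorial : ℂ)‖ = ‖u‖ ^ m / m.factorial := by
      rw [norm_div, norm_pow, Complex.norm_natCast]
    have hR : 4 / 2 ^ n * ((2 * ‖u‖) ^ m / m.factorial) =
        4 * 2 ^ m / 2 ^ n * (‖u‖ ^ m / m.factorial) := by
      rw [mul_pow]; ring
    rw [hR]
    simp only [hf]
    split_ifs with hm
    · rw [← sub_mul, norm_mul, hun, ← Complex.ofReal_sub, Complex.norm_real, Real.norm_eq_abs]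
      apply mul_le_mul_of_nonneg_right (coef_cmp hh hm) (by positivity)
    · rw [zero_sub, norm_neg, norm_mul, hun, Complex.norm_real, Real.norm_eq_abs]
      apply mul_le_mul_of_nonneg_right _ (by positivity)
      refine (sc_abs m).trans ?_
      rw [le_div_iff₀ (by positivity), one_mul]
      have : (2 : ℝ) ^ n ≤ 2 ^ m := pow_le_pow_right₀ (by norm_num) (by omega)
      have : (0 : ℝ) < 2 ^ m := by positivity
      linarith
  have hfin := hd.norm_le_of_bounded hg hb
  have hnu : 2 * ‖u‖ = 4 * Real.pi * ‖x‖ := by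
    rw [hu, norm_mul, norm_mul, Complex.norm_real, Real.norm_eq_abs, abs_of_pos Real.pi_pos]
    simp
    ring
  rw [hnu] at hfin
  exact hfin

private theorem uniq_hasDeriv (n h : ℕ) (z : ℂ) : HasDerivAt (uniqE n h)
    ((uniqK n h : ℂ) * (derivative (BC n)).eval z - Complex.cos (2 * Real.pi * z) * (2 * Real.pi)) z := by
  unfold uniqE
  refine HasDerivAt.sub (((BC n).hasDerivAt z).const_mul _) ?_
  have h1 : HasDerivAt (fun z : ℂ => 2 * (Real.pi : ℂ) * z) (2 * Real.pi) z := by
    simpa using (hasDerivAt_id z).const_mul (2 * (Real.pi : ℂ))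
  exact h1.csin

private theorem uniq_small {n : ℕ} (hn : 200 ≤ n) {t : ℝ} (ht : t ≤ n / 200 + 1) :
    4 / 2 ^ n * Real.exp (4 * Real.pi * t) ≤ Real.exp (-(n : ℝ) / 2) := by
  have h5 : (4 : ℝ) / 2 ^ n = Real.exp (2 * Real.log 2 - n * Real.log 2) := by
    have e1 : Real.exp (n * Real.log 2) = 2 ^ n := by
      rw [mul_comm, Real.exp_mul, Real.exp_log (by norm_num), Real.rpow_natCast]
    have e2 : Real.exp (2 * Real.log 2) = 4 := by
      rw [two_mul, Real.exp_add, Real.exp_log (by norm_num)]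
      norm_num
    rw [Real.exp_sub, e1, e2]
  rw [h5, ← Real.exp_add]
  apply Real.exp_le_exp.2
  have h6 := Real.log_two_gt_d9
  have h6' := Real.log_two_lt_d9
  have h7 := Real.pi_lt_d2
  have h7' := Real.pi_pos
  have hn' : (200 : ℝ) ≤ n := by exact_mod_cast hn
  have h8 : 4 * Real.pi * t ≤ 4 * 3.15 * (n / 200 + 1) := by
    have h9 : 4 * Real.pi * t ≤ 4 * Real.pi * (n / 200 + 1) :=
      mul_le_mul_of_nonneg_left ht (by positivity)
    refine h9.trans ?_
    apply mul_le_mul_of_nonneg_right _ (by positivity)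
    linarith
  nlinarith

private theorem uniq_deriv_bound {n h : ℕ} (hh : n = 2 * h + 1) (hn : 200 ≤ n) (z : ℂ)
    (hz : ‖z‖ ≤ n / 200) : ‖deriv (uniqE n h) z‖ ≤ Real.exp (-(n : ℝ) / 2) := by
  have hdiff : Differentiable ℂ (uniqE n h) := fun w => (uniq_hasDeriv n h w).differentiableAt
  have h1 := Complex.norm_deriv_le_of_forall_mem_sphere_norm_le (c := z) (R := 1)
    (C := Real.exp (-(n : ℝ) / 2)) (f := uniqE n h) one_pos hdiff.diffContOnCl (by
      intro w hw
      refine (uniq_bound hh w).trans (uniq_small hn ?_)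
      rw [mem_sphere_iff_norm] at hw
      have h2 : ‖w‖ ≤ ‖w - z‖ + ‖z‖ := by
        have := norm_add_le (w - z) z
        rwa [sub_add_cancel] at this
      linarith)
  rwa [div_one] at h1

private theorem uniq_exp_small {n : ℕ} (hn : 200 ≤ n) : Real.exp (-(n : ℝ) / 2) ≤ 1 / 100 := by
  have hn' : (200 : ℝ) ≤ n := by exact_mod_cast hn
  have h1 : Real.exp (-(n : ℝ) / 2) ≤ Real.exp (-100) := Real.exp_le_exp.2 (by linarith)
  refine h1.trans ?_
  rw [Real.exp_neg]
  have h2 : (100 : ℝ) ≤ Real.exp 100 := by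
    have := Real.add_one_le_exp (100 : ℝ)
    linarith
  rw [one_div]
  exact inv_anti₀ (by norm_num) h2

private theorem uniq_cos {u : ℂ} (hu : ‖u‖ ≤ 1 / 4) : 1 / 2 ≤ ‖Complex.cos u‖ := by
  have hI : ‖u * Complex.I‖ = ‖u‖ := by rw [norm_mul, Complex.norm_I, mul_one]
  have hI' : ‖-u * Complex.I‖ = ‖u‖ := by rw [norm_mul, Complex.norm_I, mul_one, norm_neg]
  have h1 := Complex.norm_exp_sub_one_le (x := u * Complex.I) (by rw [hI]; linarith)
  have h2 := Complex.norm_exp_sub_one_le (x := -u * Complex.I) (by rw [hI']; linarith)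
  rw [hI] at h1
  rw [hI'] at h2
  have h3 : Complex.cos u - 1 = ((Complex.exp (u * Complex.I) - 1) +
      (Complex.exp (-u * Complex.I) - 1)) / 2 := by
    rw [Complex.cos]
    ring
  have h4 : ‖Complex.cos u - 1‖ ≤ 1 / 2 := by
    rw [h3, norm_div]
    have h5 := norm_add_le (Complex.exp (u * Complex.I) - 1) (Complex.exp (-u * Complex.I) - 1)
    have h6 : ‖(2 : ℂ)‖ = 2 := by simp
    rw [h6]
    linarith
  have h7 : ‖(1 : ℂ)‖ ≤ ‖(1 : ℂ) - Complex.cos u‖ + ‖Complex.cos u‖ := by
    have := norm_add_le ((1 : ℂ) - Complex.cos u) (Complex.cos u)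
    rwa [sub_add_cancel] at this
  rw [norm_one, norm_sub_rev] at h7
  linarith

private theorem uniq_cos_int {u : ℂ} (j : ℤ) : ‖Complex.cos (j * Real.pi + u)‖ = ‖Complex.cos u‖ := by
  rw [Complex.cos_add, Complex.sin_int_mul_pi, zero_mul, sub_zero, norm_mul]
  have h2 : ‖Complex.cos ((j : ℂ) * Real.pi)‖ = 1 := by
    have h3 : Complex.cos ((j : ℂ) * Real.pi) = ((Real.cos (j * Real.pi) : ℝ) : ℂ) := by
      push_cast; rfl
    rw [h3, Complex.norm_real, Real.norm_eq_abs, Real.abs_cos_int_mul_pi]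
  rw [h2, one_mul]

theorem uniq_holds : UniqS := by
  refine ⟨200, fun n hn hodd x hx hxn => ?_⟩
  obtain ⟨h, hh⟩ := hodd
  have hodd : Odd n := ⟨h, hh⟩
  have hn' : (200 : ℝ) ≤ n := by exact_mod_cast hn
  have hsm := uniq_exp_small hn
  have hpos := Real.exp_pos (-(n : ℝ) / 2)
  constructor
  · have hne : BC n ≠ 0 := by
      intro h0
      have h1 : (Polynomial.bernoulli n) ≠ 0 := by
        intro h2
        have h3 := Polynomial.coeff_bernoulli n n
        rw [h2] at h3
        simp at h3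
      exact h1 ((Polynomial.map_eq_zero _).mp h0)
    have h1 : 0 < (BC n).rootMultiplicity x := (Polynomial.rootMultiplicity_pos hne).mpr hx
    by_contra hc
    have h2 : 1 < (BC n).rootMultiplicity x := by omega
    rw [Polynomial.one_lt_rootMultiplicity_iff_isRoot hne] at h2
    have h3 : ‖Complex.sin (2 * Real.pi * x)‖ ≤ 1 / 100 := by
      have h4 := (uniq_bound hh x).trans (uniq_small hn (by linarith))
      unfold uniqE at h4
      rw [Polynomial.IsRoot.def.mp hx, mul_zero, zero_sub, norm_neg] at h4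
      linarith
    have h5 : ‖Complex.cos (2 * Real.pi * x)‖ ≤ 1 / 100 := by
      have h4 := uniq_deriv_bound hh hn x hxn
      rw [(uniq_hasDeriv n h x).deriv, Polynomial.IsRoot.def.mp h2.2, mul_zero, zero_sub, norm_neg,
        norm_mul, norm_mul, Complex.norm_real, Real.norm_eq_abs, abs_of_pos Real.pi_pos] at h4
      have h6 : ‖(2 : ℂ)‖ = 2 := by simp
      rw [h6] at h4
      have h7 := Real.pi_gt_three
      have h8 := norm_nonneg (Complex.cos (2 * Real.pi * x))
      nlinarith
    have h9 := Complex.sin_sq_add_cos_sq (2 * Real.pi * x)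
    have h10 : ‖(1 : ℂ)‖ ≤ ‖Complex.sin (2 * Real.pi * x)‖ ^ 2 + ‖Complex.cos (2 * Real.pi * x)‖ ^ 2 := by
      rw [← h9]
      refine (norm_add_le _ _).trans (le_of_eq ?_)
      rw [norm_pow, norm_pow]
    rw [norm_one] at h10
    have h11 := norm_nonneg (Complex.cos (2 * Real.pi * x))
    have h12 := norm_nonneg (Complex.sin (2 * Real.pi * x))
    nlinarith
  · intro y hy hyn hxy
    have hdiff : Differentiable ℂ (uniqE n h) := fun w => (uniq_hasDeriv n h w).differentiableAt
    have hmv : ‖uniqE n h x - uniqE n h y‖ ≤ Real.exp (-(n : ℝ) / 2) * ‖x - y‖ := by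
      refine (convex_closedBall (0 : ℂ) ((n : ℝ) / 200)).norm_image_sub_le_of_norm_deriv_le
        (f := uniqE n h) (fun z _ => hdiff z) (fun z hz => ?_) ?_ ?_
      · rw [mem_closedBall_zero_iff] at hz
        exact uniq_deriv_bound hh hn z hz
      · rw [mem_closedBall_zero_iff]; exact hyn
      · rw [mem_closedBall_zero_iff]; exact hxn
    have hEE : uniqE n h x - uniqE n h y =
        -(2 * Complex.sin (Real.pi * (x - y)) * Complex.cos (Real.pi * (x + y))) := by
      unfold uniqE
      rw [Polynomial.IsRoot.def.mp hx, Polynomial.IsRoot.def.mp hy, mul_zero, zero_sub, zero_sub]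
      have h1 := Complex.sin_sub_sin (2 * Real.pi * x) (2 * Real.pi * y)
      have h2 : (2 * (Real.pi : ℂ) * x - 2 * Real.pi * y) / 2 = Real.pi * (x - y) := by ring
      have h3 : (2 * (Real.pi : ℂ) * x + 2 * Real.pi * y) / 2 = Real.pi * (x + y) := by ring
      rw [h2, h3] at h1
      rw [← h1]
      ring
    -- the cosine
    obtain ⟨j, hj⟩ := near_half hodd x (by linarith) hx
    obtain ⟨j', hj'⟩ := near_half hodd y (by linarith) hy
    have hjj : j = j' := by
      by_contra hne
      have h1 : (1 : ℝ) ≤ |((j - j' : ℤ) : ℝ)| := by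
        rw [← Int.cast_abs]
        exact_mod_cast Int.one_le_abs (sub_ne_zero.mpr hne)
      have h2 : ‖(j : ℂ) / 2 - j' / 2‖ = |((j - j' : ℤ) : ℝ)| / 2 := by
        have h3 : (j : ℂ) / 2 - j' / 2 = ((((j - j' : ℤ) : ℝ) / 2 : ℝ) : ℂ) := by
          push_cast; ring
        rw [h3, Complex.norm_real, Real.norm_eq_abs, abs_div, abs_two]
      have h4 : ‖(j : ℂ) / 2 - j' / 2‖ ≤ ‖x - j / 2‖ + ‖x - y‖ + ‖y - j' / 2‖ := by
        have h5 : (j : ℂ) / 2 - j' / 2 = -(x - j / 2) + (x - y) + (y - j' / 2) := by ring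
        rw [h5]
        refine (norm_add_le _ _).trans ?_
        refine add_le_add_left ((norm_add_le _ _).trans ?_) _
        rw [norm_neg]
      rw [h2] at h4
      linarith
    subst hjj
    have hcos : 1 / 2 ≤ ‖Complex.cos (Real.pi * (x + y))‖ := by
      have h1 : (Real.pi : ℂ) * (x + y) = j * Real.pi + Real.pi * ((x - j / 2) + (y - j / 2)) := by
        ring
      rw [h1, uniq_cos_int]
      apply uniq_cos
      rw [norm_mul, Complex.norm_real, Real.norm_eq_abs, abs_of_pos Real.pi_pos]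
      have h2 := norm_add_le (x - j / 2) (y - j / 2)
      have h3 := Real.pi_lt_d2
      have h4 := Real.pi_pos
      have h5 := norm_nonneg ((x - j / 2) + (y - j / 2))
      nlinarith
    have hsin : 2 * ‖x - y‖ ≤ ‖Complex.sin (Real.pi * (x - y))‖ := by
      obtain ⟨i, hi⟩ := near_int (Real.pi * (x - y))
      have h1 : (Real.pi : ℂ) * (x - y) - Real.pi * i = Real.pi * ((x - y) - i) := by ring
      rw [h1, norm_mul, Complex.norm_real, Real.norm_eq_abs, abs_of_pos Real.pi_pos] at hi
      have h2 : 2 * ‖(x - y) - i‖ ≤ ‖Complex.sin (Real.pi * (x - y))‖ := by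
        have h3 := Real.pi_pos
        have h4 : Real.pi * (2 * ‖(x - y) - i‖) ≤ Real.pi * ‖Complex.sin (Real.pi * (x - y))‖ := by
          linarith
        exact le_of_mul_le_mul_left h4 h3
      by_cases h0 : i = 0
      · subst h0
        simpa using h2
      · have h3 : (1 : ℝ) ≤ |(i : ℝ)| := by
          rw [← Int.cast_abs]
          exact_mod_cast Int.one_le_abs h0
        have h4 : ‖(i : ℂ)‖ = |(i : ℝ)| := by
          rw [← Complex.ofReal_intCast, Complex.norm_real, Real.norm_eq_abs]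
        have h5 : ‖(i : ℂ)‖ ≤ ‖(x - y) - i‖ + ‖x - y‖ := by
          have h6 := norm_sub_le (x - y) ((x - y) - i)
          rw [sub_sub_cancel] at h6
          linarith
        rw [h4] at h5
        linarith
    have hfin : 2 * ‖x - y‖ ≤ ‖uniqE n h x - uniqE n h y‖ := by
      rw [hEE, norm_neg, norm_mul, norm_mul]
      have h6 : ‖(2 : ℂ)‖ = 2 := by simp
      rw [h6]
      have h7 := norm_nonneg (x - y)
      have h8 := norm_nonneg (Complex.sin (Real.pi * (x - y)))
      nlinarith
    have h9 := norm_nonneg (x - y)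
    have h10 : ‖x - y‖ = 0 := by nlinarith
    exact sub_eq_zero.mp (norm_eq_zero.mp h10)

end Pool.Agent.BLF
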