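import Mathlib
import Pool.Agent.BLF.Stmt
import Pool.Agent.BLF.Exs
import Pool.Agent.BLF.Maj
import Pool.Agent.BLF.Lam
import Pool.Agent.BLF.Ssl
import Pool.Agent.BLF.Sel
import Pool.Agent.BLF.Blk
import Pool.Agent.BLF.Mid
import Pool.Agent.BLF.Big
import Pool.Agent.BLF.LogD
import Pool.Agent.BLF.Uniq
import Pool.Agent.BLF.Prod
import Pool.Agent.BLF.Near
import Pool.Agent.BLF.Split
import Pool.Agent.BLF.Fact
import Pool.Agent.BLF.Mass
import Pool.Agent.BLF.All
import Pool.Agent.BLF.Two
import Pool.Agent.BLF.Ord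
import Pool.Agent.BLF.Cnt

namespace Pool.Agent.BLF

open Polynomial Finset Pool.Agent.BernIrr

theorem all : AllS := by
  have hu := uniq_holds
  have hp := prod_holds hu
  have hl := logD_holds big_holds
  exact all_holds (fact_holds (split_holds (near_holds hu hp)) hp hl) mass_holds
    (mid_holds (blk_holds exs_holds maj_holds (sel_holds lam_holds ssl_holds))) hl

end Pool.Agent.BLF
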