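import Mathlib
import Pool.Agent.BLF.Stmt

/-!
The two final theorems from the module statements.
-/

namespace Pool.Agent.BLF

open Polynomial Finset Pool.Agent.BernIrr

lemma q3_map : q3.map (Int.castRingHom ℚ) = C 2 * (X * (X - C (1 / 2)) * (X - 1)) := by
  unfold q3
  simp only [Polynomial.map_mul, Polynomial.map_sub, Polynomial.map_X, Polynomial.map_one,
    Polynomial.map_ofNat]
  have e2 : (2 : ℚ[X]) = C 2 := rfl
  have e3 : (C 2 : ℚ[X]) * (X - C (1 / 2)) = C 2 * X - 1 := by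
    rw [mul_sub, ← C_mul]; norm_num
  rw [e2, ← e3]
  ring

lemma bern_eq {n D κ : ℕ} {T U : ℤ[X]} (h : Data n D κ T U) :
    Polynomial.bernoulli n = X * (X - C (1 / 2)) * (X - 1) *
      (C ((D : ℚ)⁻¹) * T.map (Int.castRingHom ℚ)) := by
  have h1 := h.eq_rat
  rw [q3_map] at h1
  have hD : (D : ℚ) ≠ 0 := by exact_mod_cast h.Dpos.ne'
  have h2 : (C (2 * (D : ℚ)) : ℚ[X]) ≠ 0 := by
    rw [Ne, C_eq_zero]
    exact mul_ne_zero two_ne_zero hD
  apply mul_left_cancel₀ h2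
  rw [h1]
  have e1 : (C (2 * (D : ℚ)) : ℚ[X]) * C ((D : ℚ)⁻¹) = C 2 := by
    rw [← C_mul]
    congr 1
    field_simp
  calc C 2 * (X * (X - C (1 / 2)) * (X - 1)) * T.map (Int.castRingHom ℚ)
      = (C (2 * (D : ℚ)) * C ((D : ℚ)⁻¹)) * (X * (X - C (1 / 2)) * (X - 1)) *
          T.map (Int.castRingHom ℚ) := by rw [e1]
    _ = _ := by ring

lemma irr_map {n D κ : ℕ} {T U G H : ℤ[X]} (h : Data n D κ T U) (hT : T = G * H)
    (hH : Irreducible H) : Irreducible (H.map (Int.castRingHom ℚ)) := by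
  have hprim : H.IsPrimitive := isPrimitive_of_dvd h.prim ⟨G, by rw [hT]; ring⟩
  exact (IsPrimitive.Int.irreducible_iff_irreducible_map_cast hprim).1 hH

theorem large_factor (hall : AllS) : ∃ n₀ : ℕ, ∀ n : ℕ, n₀ ≤ n → Odd n → ∃ P Q : ℚ[X],
    Polynomial.bernoulli n = X * (X - C (1 / 2)) * (X - 1) * (P * Q) ∧ Irreducible P ∧
      (Q.natDegree : ℝ) ≤ (n : ℝ) ^ (2 / 5 : ℝ) := by
  obtain ⟨n₀, hall⟩ := hall
  refine ⟨max n₀ 5, fun n hn hodd => ?_⟩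
  obtain ⟨D, κ, T, U, h⟩ := exists_data hodd (le_trans (le_max_right _ _) hn)
  obtain ⟨G, H, hT, hH, hd⟩ := hall n D κ T U h (le_trans (le_max_left _ _) hn)
  refine ⟨H.map (Int.castRingHom ℚ), C ((D : ℚ)⁻¹) * G.map (Int.castRingHom ℚ), ?_,
    irr_map h hT hH, ?_⟩
  · rw [bern_eq h, hT, Polynomial.map_mul]
    ring
  · have hD : (D : ℚ)⁻¹ ≠ 0 := inv_ne_zero (by exact_mod_cast h.Dpos.ne')
    rw [natDegree_C_mul hD, natDegree_map_eq_of_injective (RingHom.injective_int _)]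
    exact hd

theorem criterion (hall : AllS) (hord : OrdS) : ∃ n₀ : ℕ, ∀ n : ℕ, n₀ ≤ n → Odd n →
    (∀ r e : ℕ, r.Prime → r ∣ n - 2 → 1 ≤ e → r ∣ 2 ^ e - 1 → (n : ℝ) ^ (2 / 5 : ℝ) < e) →
    ∃ R : ℚ[X], Polynomial.bernoulli n = X * (X - C (1 / 2)) * (X - 1) * R ∧ Irreducible R := by
  obtain ⟨n₀, hall⟩ := hall
  refine ⟨max n₀ 5, fun n hn hodd hr => ?_⟩
  obtain ⟨D, κ, T, U, h⟩ := exists_data hodd (le_trans (le_max_right _ _) hn)
  obtain ⟨G, H, hT, hH, hd⟩ := hall n D κ T U h (le_trans (le_max_left _ _) hn)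
  refine ⟨_, bern_eq h, ?_⟩
  have hG0 : G.natDegree = 0 := by
    by_contra h0
    obtain ⟨r, e, hrp, hrn, he1, hed, hre⟩ := hord n D κ T U G H h hT (by omega)
    have h1 := hr r e hrp hrn he1 hre
    have h2 : (e : ℝ) ≤ G.natDegree := by exact_mod_cast hed
    linarith
  have hGu : IsUnit G := by
    by_contra hu
    have := deg_pos_of_not_unit h.prim ⟨H, hT⟩ hu
    omega
  have hTirr : Irreducible T := by
    rw [hT]
    exact (irreducible_isUnit_mul hGu).2 hH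
  have hmap : Irreducible (T.map (Int.castRingHom ℚ)) :=
    (IsPrimitive.Int.irreducible_iff_irreducible_map_cast h.prim).1 hTirr
  have hD : IsUnit (C ((D : ℚ)⁻¹)) := isUnit_C.2 (by
    rw [isUnit_iff_ne_zero]
    exact inv_ne_zero (by exact_mod_cast h.Dpos.ne'))
  exact (irreducible_isUnit_mul hD).2 hmap

theorem criterion_order (hall : AllS) (hord : OrdS) : ∃ n₀ : ℕ, ∀ n : ℕ, n₀ ≤ n → Odd n →
    (∀ r : ℕ, r.Prime → r ∣ n - 2 → (n : ℝ) ^ (2 / 5 : ℝ) < orderOf (2 : ZMod r)) →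
    ∃ R : ℚ[X], Polynomial.bernoulli n = X * (X - C (1 / 2)) * (X - 1) * R ∧ Irreducible R := by
  obtain ⟨n₀, h⟩ := criterion hall hord
  refine ⟨n₀, fun n hn hodd hr => h n hn hodd ?_⟩
  intro r e hrp hrn he hre
  refine (hr r hrp hrn).trans_le ?_
  have h1 : (2 : ZMod r) ^ e = 1 := by
    have h2 : ((2 ^ e - 1 : ℕ) : ZMod r) = 0 := (ZMod.natCast_eq_zero_iff _ _).2 hre
    rw [Nat.cast_sub Nat.one_le_two_pow] at h2
    push_cast at h2
    exact sub_eq_zero.1 h2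
  have h3 : orderOf (2 : ZMod r) ≤ e := Nat.le_of_dvd he (orderOf_dvd_of_pow_eq_one h1)
  exact_mod_cast h3

open scoped Classical in
theorem prime_count (hall : AllS) (hord : OrdS) (hcnt : CntS) : ∃ K : ℝ, 0 < K ∧ ∀ N : ℕ, 1 ≤ N →
    (((Icc 1 N).filter (fun l : ℕ => l.Prime ∧ ¬ ∃ R : ℚ[X],
      Polynomial.bernoulli (l + 2) = X * (X - C (1 / 2)) * (X - 1) * R ∧ Irreducible R)).card : ℝ) ≤
        K * (N : ℝ) ^ (4 / 5 : ℝ) := by
  obtain ⟨n₀, h⟩ := criterion hall hord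
  refine ⟨(n₀ + 3 : ℝ) + 9, by positivity, fun N hN => ?_⟩
  have hN1 : (1 : ℝ) ≤ N := by exact_mod_cast hN
  set E : ℕ := ⌊((N : ℝ) + 2) ^ (2 / 5 : ℝ)⌋₊ with hE
  have hsub : (Icc 1 N).filter (fun l : ℕ => l.Prime ∧ ¬ ∃ R : ℚ[X],
      Polynomial.bernoulli (l + 2) = X * (X - C (1 / 2)) * (X - 1) * R ∧ Irreducible R) ⊆
      range (n₀ + 3) ∪ (Icc 1 N).filter (fun l => l.Prime ∧ ∃ e ∈ Icc 1 E, l ∣ 2 ^ e - 1) := by
    intro l hl
    rw [mem_filter, mem_Icc] at hl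
    obtain ⟨⟨hl1, hlN⟩, hlp, hirr⟩ := hl
    rw [mem_union, mem_range, mem_filter, mem_Icc]
    by_cases hsmall : l < n₀ + 3
    · exact Or.inl hsmall
    · right
      refine ⟨⟨hl1, hlN⟩, hlp, ?_⟩
      by_contra hno
      apply hirr
      have hodd : Odd l := hlp.odd_of_ne_two (by omega)
      apply h (l + 2) (by omega) (by
        obtain ⟨k, hk⟩ := hodd
        exact ⟨k + 1, by omega⟩)
      intro r e hrp hrn he hre
      have hrl : r = l := by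
        have : r ∣ l := by simpa using hrn
        exact (Nat.prime_dvd_prime_iff_eq hrp hlp).1 this
      rw [hrl] at hre
      by_contra hlt
      rw [not_lt] at hlt
      apply hno
      refine ⟨e, ?_, hre⟩
      rw [mem_Icc]
      refine ⟨he, ?_⟩
      rw [hE]
      apply Nat.le_floor
      refine hlt.trans ?_
      apply Real.rpow_le_rpow (by positivity) _ (by norm_num)
      push_cast
      have : (l : ℝ) ≤ N := by exact_mod_cast hlN
      linarith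
  have hcard := (card_le_card hsub).trans (card_union_le _ _)
  have hc := hcnt N E
  have hE2 : (E : ℝ) ^ 2 ≤ 9 * (N : ℝ) ^ (4 / 5 : ℝ) := by
    have h1 : (E : ℝ) ≤ ((N : ℝ) + 2) ^ (2 / 5 : ℝ) := Nat.floor_le (by positivity)
    have h2 : ((N : ℝ) + 2) ^ (2 / 5 : ℝ) ≤ (3 * (N : ℝ)) ^ (2 / 5 : ℝ) := by
      apply Real.rpow_le_rpow (by positivity) _ (by norm_num)
      linarith
    have h3 : (3 * (N : ℝ)) ^ (2 / 5 : ℝ) ≤ 3 * (N : ℝ) ^ (2 / 5 : ℝ) := by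
      rw [Real.mul_rpow (by norm_num) (by positivity)]
      apply mul_le_mul_of_nonneg_right _ (by positivity)
      calc (3 : ℝ) ^ (2 / 5 : ℝ) ≤ 3 ^ (1 : ℝ) :=
            Real.rpow_le_rpow_of_exponent_le (by norm_num) (by norm_num)
        _ = 3 := Real.rpow_one 3
    have h4 : ((N : ℝ) ^ (2 / 5 : ℝ)) ^ 2 = (N : ℝ) ^ (4 / 5 : ℝ) := by
      rw [← Real.rpow_natCast, ← Real.rpow_mul (by positivity)]
      norm_num
    calc (E : ℝ) ^ 2 ≤ (3 * (N : ℝ) ^ (2 / 5 : ℝ)) ^ 2 :=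
          pow_le_pow_left₀ (by positivity) (h1.trans (h2.trans h3)) 2
      _ = _ := by rw [mul_pow, h4]; norm_num
  have hN45 : (1 : ℝ) ≤ (N : ℝ) ^ (4 / 5 : ℝ) := Real.one_le_rpow hN1 (by norm_num)
  have hcardr : (((Icc 1 N).filter (fun l : ℕ => l.Prime ∧ ¬ ∃ R : ℚ[X],
      Polynomial.bernoulli (l + 2) = X * (X - C (1 / 2)) * (X - 1) * R ∧ Irreducible R)).card : ℝ) ≤
      ((range (n₀ + 3)).card : ℝ) +
        (((Icc 1 N).filter (fun l => l.Prime ∧ ∃ e ∈ Icc 1 E, l ∣ 2 ^ e - 1)).card : ℝ) := by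
    exact_mod_cast hcard
  have hr : ((range (n₀ + 3)).card : ℝ) = n₀ + 3 := by
    rw [card_range]; push_cast; ring
  have hnn : (0 : ℝ) ≤ n₀ + 3 := by positivity
  have hconv : (((Icc 1 N).filter (fun l => l.Prime ∧ ∃ e ∈ Icc 1 E, l ∣ 2 ^ e - 1)).card : ℝ) ≤
      (E : ℝ) ^ 2 := hc
  rw [hr] at hcardr
  calc _ ≤ ((n₀ : ℝ) + 3) + 9 * (N : ℝ) ^ (4 / 5 : ℝ) := by linarith
    _ ≤ ((n₀ : ℝ) + 3) * (N : ℝ) ^ (4 / 5 : ℝ) + 9 * (N : ℝ) ^ (4 / 5 : ℝ) := by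
        have := mul_le_mul_of_nonneg_left hN45 hnn
        linarith
    _ = _ := by ring

end Pool.Agent.BLF
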