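import Mathlib
import Pool.Agent.BLF.Stmt

/-!
Module Ord (size 3).  From TWO.  PROOF.  `lc G` is odd (divides `D`, `Data.lc_mul`, `Data.Dodd`), so `g0 := G.map (ZMod 2)` has degree `deg G ≥ 1`.  Let `g` be an irreducible factor of `g0`, `e = deg g`, `1 ≤ e ≤ deg G`, `K = AdjoinRoot g`, a field with `2^e` elements, `α` the root.  By TWO `(α+1)^(n-2) + α^(n-2) = 0`, i.e.
`(α+1)^(n-2) = α^(n-2)` (char 2).  `α ≠ 0` (otherwise `1 = 0`, `n - 2 ≥ 3`), `ζ = (α+1)/α ≠ 1`, `ζ^(n-2) = 1`, `ζ^(2^e-1) = 1` (`FiniteField.pow_card_sub_one_eq_one`).  So `m = orderOf ζ > 1` divides `n - 2` and `2^e - 1`; take a prime `r ∣ m`.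
-/

namespace Pool.Agent.BLF

open Polynomial Finset Pool.Agent.BernIrr Pool.Agent.StSP

theorem ord_holds (h : TwoS) : OrdS := by
  classical
  intro n D κ T U G H hD hT hdeg
  have hp2 : Nat.Prime 2 := Nat.prime_two
  have hlc : ¬ 2 ∣ G.leadingCoeff.natAbs := by
    intro h2
    have h3 : 2 ∣ D := h2.trans ⟨_, (hD.lc_mul hT).symm⟩
    exact (Nat.not_even_iff_odd.2 hD.Dodd) (even_iff_two_dvd.2 h3)
  have hdeg0 : (G.map (Int.castRingHom (ZMod 2))).natDegree = G.natDegree := by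
    refine natDegree_map_of_leadingCoeff_ne_zero _ ?_
    intro h0
    apply hlc
    rw [eq_intCast, ZMod.intCast_zmod_eq_zero_iff_dvd] at h0
    exact Int.natCast_dvd.1 h0
  obtain ⟨g, hg, hgd⟩ := exists_irreducible_of_natDegree_pos
    (f := G.map (Int.castRingHom (ZMod 2))) (by omega)
  have hG0 : G.map (Int.castRingHom (ZMod 2)) ≠ 0 := by
    intro h0
    rw [h0, natDegree_zero] at hdeg0
    omega
  have hge : g.natDegree ≤ G.natDegree := by
    rw [← hdeg0]
    exact natDegree_le_of_dvd hgd hG0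
  have hg1 : 1 ≤ g.natDegree := hg.natDegree_pos
  have : Fact (Irreducible g) := ⟨hg⟩
  have hdvd : g ∣ (X + 1 : (ZMod 2)[X]) ^ (n - 2) + X ^ (n - 2) := by
    rw [← h n D κ T U hD, hT, Polynomial.map_mul]
    exact hgd.mul_right _
  -- the field generated by a root
  let α : AdjoinRoot g := AdjoinRoot.root g
  have hroot : (α + 1) ^ (n - 2) + α ^ (n - 2) = 0 := by
    have h1 : aeval α ((X + 1 : (ZMod 2)[X]) ^ (n - 2) + X ^ (n - 2)) = 0 := by
      obtain ⟨q, hq⟩ := hdvd
      rw [hq, map_mul]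
      have h2 : aeval α g = 0 := AdjoinRoot.eval₂_root g
      rw [h2, zero_mul]
    simpa using h1
  have : CharP (AdjoinRoot g) 2 := charP_of_injective_algebraMap
    (algebraMap (ZMod 2) (AdjoinRoot g)).injective 2
  have hn5 := hD.ge
  have hα : α ≠ 0 := by
    intro h0
    rw [h0, zero_add, one_pow, zero_pow (by omega), add_zero] at hroot
    exact one_ne_zero hroot
  have heq : (α + 1) ^ (n - 2) = α ^ (n - 2) := CharTwo.add_eq_zero.1 hroot
  have hζ1 : ((α + 1) / α) ^ (n - 2) = 1 := by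
    rw [div_pow, heq, div_self (pow_ne_zero _ hα)]
  have hζne : (α + 1) / α ≠ 1 := by
    intro h1
    rw [div_eq_one_iff_eq hα] at h1
    exact one_ne_zero (α := AdjoinRoot g) (by linear_combination h1)
  have hζ0 : (α + 1) / α ≠ 0 := by
    intro h0
    rw [h0, zero_pow (by omega)] at hζ1
    exact zero_ne_one hζ1
  have hfin : Module.Finite (ZMod 2) (AdjoinRoot g) :=
    (AdjoinRoot.powerBasis hg.ne_zero).finite
  have : Finite (AdjoinRoot g) := Module.finite_of_finite (ZMod 2)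
  have hcard : Nat.card (AdjoinRoot g) = 2 ^ g.natDegree := by
    rw [Module.natCard_eq_pow_finrank (K := ZMod 2), Nat.card_zmod,
      (AdjoinRoot.powerBasis hg.ne_zero).finrank, AdjoinRoot.powerBasis_dim]
  have hζ2 : ((α + 1) / α) ^ (2 ^ g.natDegree - 1) = 1 := by
    have := Fintype.ofFinite (AdjoinRoot g)
    have h1 := FiniteField.pow_card_sub_one_eq_one ((α + 1) / α) hζ0
    rwa [← Nat.card_eq_fintype_card, hcard] at h1
  have hm1 : orderOf ((α + 1) / α) ≠ 1 := by
    rw [Ne, orderOf_eq_one_iff]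
    exact hζne
  exact ⟨(orderOf ((α + 1) / α)).minFac, g.natDegree, Nat.minFac_prime hm1,
    (Nat.minFac_dvd _).trans (orderOf_dvd_of_pow_eq_one hζ1), hg1, hge,
    (Nat.minFac_dvd _).trans (orderOf_dvd_of_pow_eq_one hζ2)⟩

end Pool.Agent.BLF
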